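import Pool.Agent.Lib.MP_d118f9_ag.B.Good

/-!
# MP_d118f9_ag, block ST2 (uniformity): constants that only depend on the genus (PR0)
-/

set_option autoImplicit false

noncomputable section

open Classical

namespace Pool.Agent.MPd118f9

section

variable {k F : Type} [Field k] [IsAlgClosed k] [CharZero k] [Field F] [Algebra k F]

private theorem uz_exists_mem (hF : IsCurve k F) {D D' : Dv k F} (h : ell D' < ell D) :
    ∃ a ∈ L D, a ∉ L D' := by
  by_contra hc
  push Not at hc
  have := hF.finDim D'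
  exact absurd (Submodule.finrank_mono (show L D ≤ L D' from hc)) (not_le.2 h)

private theorem uz_sec (hF : IsCurve k F) {a₀ : ℤ}
    (hlt : ∀ (D : Dv k F) (P : Pt k F), a₀ ≤ deg D → ell (D - Finsupp.single P 1) < ell D)
    (hpos : ∀ D : Dv k F, a₀ ≤ deg D → 0 < ell D) {D : Dv k F} (hD : a₀ ≤ deg D)
    (Z : Finset (Pt k F)) :
    ∃ u ∈ L D, u ≠ 0 ∧ ∀ P ∈ Z, u ∉ L (D - Finsupp.single P 1) := by
  have : Infinite k := inferInstance
  let p : Option Z → Subspace k (L D) := fun o =>
    match o with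
    | none => ⊥
    | some P => (L (D - Finsupp.single (P : Pt k F) 1)).comap (L D).subtype
  have hne : ⋃ i, (p i : Set (L D)) ≠ Set.univ := by
    intro hc
    obtain ⟨i, hi⟩ := Subspace.exists_eq_top_of_iUnion_eq_univ hc
    match i, hi with
    | none, hi =>
      have h0 : ell D = 0 := by
        have : (⊥ : Submodule k (L D)) = ⊤ := hi
        have h2 : Module.finrank k (L D) = Module.finrank k (⊤ : Submodule k (L D)) :=
          (finrank_top k (L D)).symm
        rw [← this, finrank_bot] at h2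
        exact h2
      have := hpos D hD
      omega
    | some P, hi =>
      have hle : L D ≤ L (D - Finsupp.single (P : Pt k F) 1) := by
        intro x hx
        have : (⟨x, hx⟩ : L D) ∈ (L (D - Finsupp.single (P : Pt k F) 1)).comap (L D).subtype := by
          have hi' : (L (D - Finsupp.single (P : Pt k F) 1)).comap (L D).subtype = ⊤ := hi
          rw [hi']
          exact Submodule.mem_top
        exact this
      have := hF.finDim (D - Finsupp.single (P : Pt k F) 1)
      exact absurd (Submodule.finrank_mono hle) (not_le.2 (hlt D P hD))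
  obtain ⟨x, hx⟩ := (Set.ne_univ_iff_exists_notMem _).1 hne
  rw [Set.mem_iUnion] at hx
  push Not at hx
  refine ⟨x, x.2, ?_, fun P hP => ?_⟩
  · intro h0
    apply hx none
    show x ∈ (⊥ : Submodule k (L D))
    rw [Submodule.mem_bot]
    exact Subtype.ext h0
  · exact hx (some ⟨P, hP⟩)

private theorem uz_ord {A : Dv k F} {P : Pt k F} {a : F} (h0 : a ≠ 0) (ha : a ∈ L A)
    (ha' : a ∉ L (A - Finsupp.single P 1)) : P.ord a = -A P := by
  rw [mem_L_of_ne h0] at ha ha'
  push Not at ha'
  obtain ⟨Q, hQ⟩ := ha'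
  have hQ2 := ha Q
  rw [Finsupp.sub_apply] at hQ
  by_cases hPQ : Q = P
  · subst hPQ
    rw [Finsupp.single_eq_same] at hQ
    omega
  · rw [Finsupp.single_apply, if_neg (fun e => hPQ e.symm)] at hQ
    omega

private theorem uz_eff (hF : IsCurve k F) {A : Dv k F} (h : 1 ≤ ell A) :
    ∃ f : F, f ≠ 0 ∧ 0 ≤ A + dv k f := by
  have h1 : L A ≠ ⊥ := by
    intro h2
    have h3 : ell A = 0 := by
      unfold ell
      rw [h2]
      exact finrank_bot k F
    omega
  obtain ⟨f, hf, hf0⟩ := Submodule.exists_mem_ne_zero_of_ne_bot h1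
  refine ⟨f, hf0, fun P => ?_⟩
  have h2 := (mem_L_of_ne hf0).1 hf P
  rw [Finsupp.add_apply, hF.dv_apply hf0, Finsupp.zero_apply]
  linarith

omit [IsAlgClosed k] [CharZero k] in
private theorem uz_pos {D : Dv k F} (hD : 0 ≤ D) (h : D ≠ 0) : ∃ P, 1 ≤ D P := by
  by_contra hc
  push Not at hc
  refine h (Finsupp.ext fun P => ?_)
  have h1 : 0 ≤ D P := hD P
  have h2 := hc P
  rw [Finsupp.zero_apply]
  omega

omit [IsAlgClosed k] [CharZero k] in
private theorem uz_sub {D : Dv k F} (hD : 0 ≤ D) {P : Pt k F} (hP : 1 ≤ D P) :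
    0 ≤ D - Finsupp.single P 1 := by
  intro Q
  rw [Finsupp.sub_apply, Finsupp.zero_apply, Finsupp.single_apply]
  split_ifs with h1
  · rw [← h1]
    omega
  · have h2 : 0 ≤ D Q := hD Q
    omega

/-- For `deg D > 2 g - 2`: `ell D = deg D + 1 - g` (`IsCan.riemann_roch`, `ell_of_deg_neg`). -/
theorem ell_of_large (hF : IsCurve k F) {D : Dv k F} (hD : 2 * (genus k F : ℤ) - 1 ≤ deg D) :
    (ell D : ℤ) = deg D + 1 - genus k F := by
  obtain ⟨W, hW⟩ := hF.exists_can
  have h1 := hW.riemann_roch hF D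
  have h2 : ell (W - D) = 0 := by
    refine hF.ell_of_deg_neg ?_
    have h3 : deg W = 2 * (genus k F : ℤ) - 2 := hW.1
    rw [deg_sub, h3]
    linarith
  rw [h2] at h1
  push_cast at h1
  linarith

/-- The proof of `IsCurve.exists_isGood` with `c₀ = 2 g - 1` (copy it; `ell_of_large` instead of
`IsCurve.riemann`; the private lemmas have to be copied too). -/
theorem isGood_genus (hF : IsCurve k F) : IsGood k F (2 * (genus k F : ℤ) + 2) := by
  have hc₀ : ∀ D : Dv k F, 2 * (genus k F : ℤ) - 1 ≤ deg D →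
      (ell D : ℤ) = deg D + 1 - genus k F := fun D hD => ell_of_large hF hD
  obtain ⟨a₀, ha₀⟩ : ∃ a₀ : ℤ, a₀ = 2 * (genus k F : ℤ) + 2 := ⟨_, rfl⟩
  rw [← ha₀]
  have h1 : 2 * (genus k F : ℤ) - 1 + 1 ≤ a₀ := by omega
  have h2 : (genus k F : ℤ) + 2 ≤ a₀ := by omega
  have hlt : ∀ (D : Dv k F) (P : Pt k F), a₀ ≤ deg D →
      ell (D - Finsupp.single P 1) < ell D := by
    intro D P hD
    have e1 := hc₀ D (by linarith)
    have e2 := hc₀ (D - Finsupp.single P 1) (by rw [deg_sub, deg_single]; linarith)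
    rw [deg_sub, deg_single] at e2
    omega
  have hpos : ∀ D : Dv k F, a₀ ≤ deg D → 0 < ell D := by
    intro D hD
    have e1 := hc₀ D (by linarith)
    omega
  refine ⟨by omega, by omega, fun {D} hD => hc₀ D (by linarith), fun {D} hD => ?_,
    fun {D} P hD => uz_exists_mem hF (hlt D P hD)⟩
  obtain ⟨u₁, hu₁, n1, -⟩ := uz_sec hF hlt hpos hD ∅
  have hZ : {P : Pt k F | P.ord u₁ ≠ -D P}.Finite := by
    refine ((hF.finite_ord n1).union D.support.finite_toSet).subset ?_
    intro P hP
    by_contra hc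
    rw [Set.mem_union, not_or] at hc
    obtain ⟨hc1, hc2⟩ := hc
    have e1 : P.ord u₁ = 0 := not_not.1 hc1
    have e2 : D P = 0 := Finsupp.notMem_support_iff.1 hc2
    apply hP
    rw [e1, e2, neg_zero]
  obtain ⟨u₂, hu₂, n2, hs⟩ := uz_sec hF hlt hpos hD hZ.toFinset
  refine ⟨u₁, hu₁, u₂, hu₂, n1, n2, ?_⟩
  ext P
  rw [Finsupp.inf_apply, hF.dv_apply n1, hF.dv_apply n2, Finsupp.neg_apply]
  have g1 := (mem_L_of_ne n1).1 hu₁ P
  have g2 := (mem_L_of_ne n2).1 hu₂ P
  by_cases hP : P.ord u₁ = -D P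
  · rw [hP]
    exact inf_eq_left.2 g2
  · have := uz_ord n2 hu₂ (hs P (hZ.mem_toFinset.2 hP))
    rw [this]
    exact inf_eq_right.2 g1

/-- The poles of an element of `L D`, `D ≥ 0`. -/
theorem poles_le_of_mem (hF : IsCurve k F) {D : Dv k F} (hD : 0 ≤ D) {z : F} (hz : z ∈ L D) :
    poles k z ≤ D := by
  have h0 : -dv k z ≤ D := by
    intro P
    by_cases hz0 : z = 0
    · have h1 : dv k z = 0 := by
        rw [hz0]
        ext Q
        unfold dv
        split_ifs with h2
        · rw [Finsupp.onFinset_apply, Q.ord_zero]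
          rfl
        · rfl
      rw [h1, neg_zero]
      exact hD P
    · have h1 := (mem_L_of_ne hz0).1 hz P
      rw [Finsupp.neg_apply, hF.dv_apply hz0]
      linarith
  exact sup_le h0 hD

/-- A function with poles only at `P`.  Proof: `ell (single P (g + 1)) ≥ 2` (`le_ell`), the
constants are one-dimensional. -/
theorem exists_z (hF : IsCurve k F) (P : Pt k F) : ∃ z : F, (∀ c : k, z ≠ algebraMap k F c) ∧
    z ∈ L (Finsupp.single P ((genus k F : ℤ) + 1)) := by
  have h1 := hF.le_ell (Finsupp.single P ((genus k F : ℤ) + 1))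
  rw [deg_single] at h1
  have h2 : ell (0 : Dv k F) < ell (Finsupp.single P ((genus k F : ℤ) + 1)) := by
    rw [hF.ell_zero]
    omega
  obtain ⟨z, hz, hz'⟩ := uz_exists_mem hF h2
  refine ⟨z, fun c hc => hz' ?_, hz⟩
  exact hF.mem_L_zero.2 ⟨c, hc⟩

/-- Every effective divisor is a sum of points.  Induction on the degree: if `deg D ≠ 0` there is
a point `P` with `D P ≥ 1`. -/
theorem exists_sum_single {D : Dv k F} (hD : 0 ≤ D) {e : ℕ} (he : deg D = e) :
    ∃ P : Fin e → Pt k F, D = ∑ i, Finsupp.single (P i) (1 : ℤ) := by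
  induction e generalizing D with
  | zero =>
    have h1 : D = 0 := by
      by_contra h2
      obtain ⟨P, hP⟩ := uz_pos hD h2
      have h3 := deg_mono (uz_sub hD hP)
      rw [deg_zero, deg_sub, deg_single, he] at h3
      norm_num at h3
    exact ⟨Fin.elim0, by rw [h1]; simp⟩
  | succ e ih =>
    have h1 : D ≠ 0 := by
      intro h2
      rw [h2, deg_zero] at he
      push_cast at he
      omega
    obtain ⟨P, hP⟩ := uz_pos hD h1
    have h3 : deg (D - Finsupp.single P 1) = e := by
      rw [deg_sub, deg_single, he]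
      push_cast
      ring
    obtain ⟨Q, hQ⟩ := ih (uz_sub hD hP) h3
    refine ⟨Fin.cons P Q, ?_⟩
    rw [Fin.sum_univ_succ]
    simp only [Fin.cons_zero, Fin.cons_succ]
    rw [← hQ]
    abel

/-- The gonality is at most `g + 1` (`exists_z`, `gon` is the infimum). -/
theorem gon_le (hF : IsCurve k F) : gon k F ≤ genus k F + 1 := by
  have := hF.infinite_pt
  obtain ⟨P⟩ : Nonempty (Pt k F) := inferInstance
  have h1 := hF.le_ell (Finsupp.single P ((genus k F : ℤ) + 1))
  rw [deg_single] at h1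
  refine Nat.sInf_le ⟨Finsupp.single P ((genus k F : ℤ) + 1), ?_, by omega, ?_⟩
  · exact Finsupp.single_nonneg.2 (by positivity)
  · rw [deg_single]
    push_cast
    ring

/-- If `genus k F ≥ 1` there is an effective canonical divisor: `W + dv k f`, `f ≠ 0` in `L W`. -/
theorem IsCan.exists_effective (hF : IsCurve k F) {W : Dv k F} (hW : IsCan W)
    (hg : 1 ≤ genus k F) : ∃ f : F, f ≠ 0 ∧ 0 ≤ W + dv k f ∧ IsCan (W + dv k f) := by
  have h1 : 1 ≤ ell W := by
    rw [show ell W = genus k F from hW.2]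
    exact hg
  obtain ⟨f, hf, hfW⟩ := uz_eff hF h1
  refine ⟨f, hf, hfW, ?_, ?_⟩
  · rw [deg_add, hF.deg_dv hf, add_zero]
    exact hW.1
  · rw [hF.ell_add_dv W hf]
    exact hW.2

/-- If `deg A ≥ genus` then `A` is equivalent to an effective divisor. -/
theorem exists_effective (hF : IsCurve k F) {A : Dv k F} (hA : (genus k F : ℤ) ≤ deg A) :
    ∃ f : F, f ≠ 0 ∧ 0 ≤ A + dv k f := by
  refine uz_eff hF ?_
  have h1 := hF.le_ell A
  omega

end

end Pool.Agent.MPd118f9
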