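import Pool.Agent.Lib.MP_d118f9_ag_G.U.PR3
import Pool.Agent.Lib.MP_d118f9_ag_G.U.UZ

/-!
# MP_d118f9_ag, block ST2 (uniformity): the window (PR4)
-/

set_option autoImplicit false

noncomputable section

open Classical

namespace Pool.Agent.MPd118f9

variable {k F : Type} [Field k] [IsAlgClosed k] [CharZero k] [Field F] [Algebra k F]

/-- **PR4.**  Proof.  Let `P` be a point (`IsCurve.infinite_pt`), `z` as in `exists_z`, so
`0 < deg (poles k z) ≤ h + 1` (`poles_le_of_mem`, `deg_mono`, `deg_poles_pos`).  Induction on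
`(deg A - T).toNat`.  If `deg A ≤ T + h + 1` use `hwin`; otherwise `A' = A - poles k z` has
`T ≤ deg A' < deg A`, and `XA.step` with `isGood_genus` applies (`deg W = 2 h - 2`). -/
theorem XA.window (hF : IsCurve k F) {h p : ℕ} (hg : genus k F = h) {W : Dv k F} (hW : IsCan W)
    {T : ℤ} (hT : ((p : ℤ) + 3) * (h + 1) + (p + 2) * (2 * h + 2) + |2 * (h : ℤ) - 2| ≤ T) {s : ℕ}
    {w : Fin s → F} (hwin : ∀ A : Dv k F, T ≤ deg A → deg A ≤ T + h + 1 → XA A W w p)
    (A : Dv k F) (hA : T ≤ deg A) : XA A W w p := by
  subst hg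
  obtain ⟨P⟩ : Nonempty (Pt k F) := by
    have := hF.infinite_pt
    infer_instance
  obtain ⟨z, hz, hzL⟩ := exists_z hF P
  have hD : (0 : Dv k F) ≤ Finsupp.single P ((genus k F : ℤ) + 1) :=
    Finsupp.single_nonneg.mpr (by positivity)
  have h1 : deg (poles k z) ≤ (genus k F : ℤ) + 1 := by
    have h := deg_mono (poles_le_of_mem hF hD hzL)
    rwa [deg_single] at h
  have h2 : 0 < deg (poles k z) := hF.deg_poles_pos hz
  have hW1 : deg W = 2 * (genus k F : ℤ) - 2 := hW.1
  have key : ∀ n : ℕ, ∀ A : Dv k F, T ≤ deg A → (deg A - T).toNat = n → XA A W w p := by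
    intro n
    induction n using Nat.strong_induction_on with
    | _ n ih =>
      intro A hA hn
      by_cases hle : deg A ≤ T + (genus k F : ℤ) + 1
      · exact hwin A hA hle
      · rw [not_le] at hle
        have h3 : deg (A - poles k z) = deg A - deg (poles k z) := by
          rw [deg_sub]
        refine XA.step hF (isGood_genus hF) hz ?_ ?_
        · rw [hW1]
          have h4 : ((p : ℤ) + 3) * deg (poles k z) ≤ ((p : ℤ) + 3) * ((genus k F : ℤ) + 1) :=
            mul_le_mul_of_nonneg_left h1 (by positivity)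
          linarith
        · refine ih (deg (A - poles k z) - T).toNat ?_ _ ?_ rfl
          · rw [h3]
            omega
          · rw [h3]
            omega
  exact key _ A hA rfl

end Pool.Agent.MPd118f9
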