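import Pool.Agent.Lib.MP_d118f9_ag_G.U.ULin
import Pool.Agent.Lib.MP_d118f9_ag.D.DCliff

/-!
# MP_d118f9_ag, block ST2 (uniformity): genus, canonical divisors, gonality (U7)
-/

set_option autoImplicit false

noncomputable section

open Classical

namespace Pool.Agent.MPd118f9

section

variable {U : Ultrafilter ℕ} {k : Type} [Field k] [IsAlgClosed k] [CharZero k] {F : ℕ → Type}
  [∀ n, Field (F n)] [∀ n, Algebra k (F n)] {hF : ∀ n, IsCurve k (F n)} {h : ℕ}
  {hg : ∀ n, genus k (F n) = h}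

/-- **U7.**  Proof.  `≤`: `IsCurve.exists_genus` for `UF` (`UF.isCurve`):
`genus = deg Ds + 1 - ell Ds` with `TrD hg Ds D` (`exists_eq_sum_ipt`, `TrD.sum_single`), which
is `deg (D n) + 1 - ell (D n) ≤ h`
(`TrD.deg`, `TrD.ell`, `IsCurve.le_ell`).  `≥`: `D n = single (P n) (2 h)`, `P n` any point
(`IsCurve.infinite_pt`): `deg + 1 - ell = h` (`ell_of_large`), limit `Ds` (`TrD.sum_single`),
`IsCurve.le_ell` for `UF`. -/
theorem UF.genus_eq (hg : ∀ n, genus k (F n) = h) : genus (UK k U) (UF hF U) = h := by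
  have hC := UF.isCurve (hF := hF) (U := U) hg
  apply le_antisymm
  · obtain ⟨Ds, hDs⟩ := hC.exists_genus
    obtain ⟨e, m, P, hP, -⟩ := exists_eq_sum_ipt hg Ds
    have hT : TrD hg Ds fun n => ∑ i, Finsupp.single (P i n) (m i) := by
      rw [hP]
      exact TrD.sum_single m P
    obtain ⟨n, h1, h2⟩ := (hT.deg.and hT.ell).exists
    have h3 := (hF n).le_ell (∑ i, Finsupp.single (P i n) (m i))
    rw [hg n, h1, h2] at h3
    omega
  · have hne : ∀ n, Nonempty (Pt k (F n)) := fun n =>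
      have := (hF n).infinite_pt
      inferInstance
    let P : ∀ n, Pt k (F n) := fun n => Classical.choice (hne n)
    have hT : TrD hg (∑ i : Fin 1, Finsupp.single (ipt U hF hg P) (2 * (h : ℤ)))
        fun n => ∑ i : Fin 1, Finsupp.single (P n) (2 * (h : ℤ)) :=
      TrD.sum_single (fun _ : Fin 1 => 2 * (h : ℤ)) fun _ => P
    obtain ⟨n, h1, h2⟩ := (hT.deg.and hT.ell).exists
    have h0 : deg (∑ _i : Fin 1, Finsupp.single (P n) (2 * (h : ℤ)) : Dv k (F n)) =
        2 * (h : ℤ) := by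
      rw [Fin.sum_univ_one, deg_single]
    have h3 := ell_of_large (hF n)
      (D := ∑ _i : Fin 1, Finsupp.single (P n) (2 * (h : ℤ))) (by
        rw [h0, hg n]
        linarith)
    have h4 := hC.le_ell (∑ _i : Fin 1, Finsupp.single (ipt U hF hg P) (2 * (h : ℤ)))
    rw [h2, h0, hg n] at h3
    rw [h3, ← h1, h0] at h4
    omega

/-- Proof.  `IsCan Ws` is `deg Ws = 2 h - 2 ∧ ell Ws = h` (`UF.genus_eq`); `TrD.deg`, `TrD.ell`. -/
theorem TrD.isCan {Ws : Dv (UK k U) (UF hF U)} {W : ∀ n, Dv k (F n)} (h1 : TrD hg Ws W)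
    (hW : ∀ n, IsCan (W n)) : IsCan Ws := by
  obtain ⟨n, h2, h3⟩ := (h1.deg.and h1.ell).exists
  have h4 := (hW n).1
  have h5 := (hW n).2
  rw [hg n] at h4 h5
  constructor
  · rw [UF.genus_eq hg, ← h2, h4]
  · rw [UF.genus_eq hg, ← h3, h5]

/-- Proof.  `gon` is the infimum of a nonempty set (`exists_z` for `UF`), so it is `deg Ds` with
`0 ≤ Ds`, `2 ≤ ell Ds`; `TrD hg Ds D` (`exists_eq_sum_ipt`, `TrD.sum_single`); then almost
everywhere `0 ≤ D n`, `2 ≤ ell (D n)`, `deg (D n) = deg Ds`, so `g ≤ gon k (F n) ≤ deg Ds`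
(`Nat.sInf_le`). -/
theorem UF.le_gon (hg : ∀ n, genus k (F n) = h) {g : ℕ} (h1 : ∀ n, g ≤ gon k (F n)) :
    g ≤ gon (UK k U) (UF hF U) := by
  have hC := UF.isCurve (hF := hF) (U := U) hg
  obtain ⟨Ds, hD0, hD2, hDg⟩ := exists_gon hC
  obtain ⟨e, m, P, hP, hm⟩ := exists_eq_sum_ipt hg Ds
  have hT : TrD hg Ds fun n => ∑ i, Finsupp.single (P i n) (m i) := by
    rw [hP]
    exact TrD.sum_single m P
  obtain ⟨n, h2, h3⟩ := (hT.deg.and hT.ell).exists
  have h4 : gon k (F n) ≤ gon (UK k U) (UF hF U) := by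
    refine Nat.sInf_le ⟨∑ i, Finsupp.single (P i n) (m i), ?_, ?_, ?_⟩
    · exact Finset.sum_nonneg fun i _ => Finsupp.single_nonneg.2 (hm hD0 i)
    · rw [h3]
      exact hD2
    · rw [h2, hDg]
  exact (h1 n).trans h4

end

end Pool.Agent.MPd118f9
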