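import Pool.Agent.Lib.MP_d118f9_ag_G.U.UTr
import Pool.Agent.Lib.MP_d118f9_ag_G.U.UGen
import Pool.Agent.Lib.MP_d118f9_ag_G.U.PR4

/-!
# MP_d118f9_ag, block ST2 (uniformity): the contradiction in the ultraproduct
-/

set_option autoImplicit false

noncomputable section

open Classical

namespace Pool.Agent.MPd118f9

section

variable {k : Type} [Field k] [IsAlgClosed k] [CharZero k]

/-- For every `T` there is a bad effective divisor in the window that starts with `T`. -/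
private theorem exists_bad {F : Type} [Field F] [Algebra k F] (hF : IsCurve k F) {h p : ℕ}
    (hg : genus k F = h) {W : Dv k F} (hW : IsCan W) {s : ℕ} {w : Fin s → F} {T : ℤ}
    (hT : ((p : ℤ) + 3) * (h + 1) + (p + 2) * (2 * h + 2) + |2 * (h : ℤ) - 2| ≤ T) {A : Dv k F}
    (hA : T ≤ deg A) (hX : ¬ XA A W w p) :
    ∃ B : Dv k F, 0 ≤ B ∧ T ≤ deg B ∧ deg B ≤ T + h + 1 ∧ ¬ XA B W w p := by
  by_contra hcon
  push Not at hcon
  refine hX (XA.window hF hg hW hT (fun B hB1 hB2 => ?_) A hA)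
  have h1 : (genus k F : ℤ) ≤ deg B := by
    rw [hg]
    have h2 : (0 : ℤ) ≤ |2 * (h : ℤ) - 2| := abs_nonneg _
    have h3 : (0 : ℤ) ≤ p := Int.natCast_nonneg p
    have h4 : (0 : ℤ) ≤ h := Int.natCast_nonneg h
    nlinarith [mul_nonneg h3 h4]
  obtain ⟨f, hf, hf0⟩ := exists_effective hF h1
  refine XA.of_add_dv hF hf (hcon _ hf0 ?_ ?_)
  · rw [deg_add, hF.deg_dv hf, add_zero]
    exact hB1
  · rw [deg_add, hF.deg_dv hf, add_zero]
    exact hB2

/-- **The ultraproduct of bad curves is bad.** -/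
theorem XA.ultra {h : ℕ} (hh : 1 ≤ h) {p s g : ℕ} (F : ℕ → Type) [∀ n, Field (F n)]
    [∀ n, Algebra k (F n)] (hF : ∀ n, IsCurve k (F n)) (hg : ∀ n, genus k (F n) = h)
    (hgon : ∀ n, g ≤ gon k (F n)) (W : ∀ n, Dv k (F n)) (hW : ∀ n, IsCan (W n))
    (w : ∀ n, Fin s → F n) (hw : ∀ n l, w n l ∈ L (W n)) (hwi : ∀ n, LinearIndependent k (w n))
    (A : ∀ n, Dv k (F n)) (hA : ∀ n : ℕ, (n : ℤ) ≤ deg (A n))
    (hX : ∀ n, ¬ XA (A n) (W n) (w n) p) :
    ∃ (K E : Type) (_ : Field K) (_ : IsAlgClosed K) (_ : CharZero K) (_ : Field E)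
      (_ : Algebra K E), IsCurve K E ∧ genus K E = h ∧ g ≤ gon K E ∧
      ∃ (W' : Dv K E) (w' : Fin s → E), IsCan W' ∧ (∀ l, w' l ∈ L W') ∧
        LinearIndependent K w' ∧ ∀ N : ℤ, ∃ A' : Dv K E, N ≤ deg A' ∧ ¬ XA A' W' w' p := by
  -- effective canonical divisors
  have h1 : ∀ n, ∃ f : F n, f ≠ 0 ∧ 0 ≤ W n + dv k f ∧ IsCan (W n + dv k f) := fun n =>
    IsCan.exists_effective (hF n) (hW n) (by rw [hg n]; exact hh)
  choose f hf0 hf1 hf2 using h1
  have hfin : ∀ n l, (f n)⁻¹ * w n l ∈ L (W n + dv k (f n)) := by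
    intro n l
    have h2 := ((hF n).isBdl_L (isGood_genus (hF n))).smul (inv_ne_zero (hf0 n)) (hw n l)
    rwa [(hF n).dv_inv (hf0 n), sub_neg_eq_add] at h2
  set W₁ : ∀ n, Dv k (F n) := fun n => W n + dv k (f n) with hW₁
  set w₁ : ∀ n, Fin s → F n := fun n l => (f n)⁻¹ * w n l with hw₁
  have hw₁i : ∀ n, LinearIndependent k (w₁ n) := by
    intro n
    have h2 := (hwi n).map' (LinearMap.mulLeft k (f n)⁻¹)
      (LinearMap.ker_eq_bot.2 (mul_right_injective₀ (inv_ne_zero (hf0 n))))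
    exact h2
  have hX₁ : ∀ n, ¬ XA (A n) (W₁ n) (w₁ n) p := fun n hcon =>
    hX n (XA.of_add_dv' (hF n) (hf0 n) hcon)
  -- the windows
  set T₁ : ℤ := ((p : ℤ) + 3) * (h + 1) + (p + 2) * (2 * h + 2) + |2 * (h : ℤ) - 2| with hT₁
  have h3 : ∀ (T : ℕ) (n : ℕ), T₁ ≤ T → T ≤ n → ∃ B : Dv k (F n), 0 ≤ B ∧ (T : ℤ) ≤ deg B ∧
      deg B ≤ T + h + 1 ∧ ¬ XA B (W₁ n) (w₁ n) p := by
    intro T n hT hn
    refine exists_bad (hF n) (hg n) (hf2 n) hT (A := A n) ?_ (hX₁ n)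
    exact (by exact_mod_cast hn : (T : ℤ) ≤ n).trans (hA n)
  choose! B hB0 hB1 hB2 hBX using h3
  -- the ultraproduct
  let U : Ultrafilter ℕ := Filter.hyperfilter ℕ
  have hU : ∀ T : ℕ, ∀ᶠ n in (U : Filter ℕ), T ≤ n := fun T =>
    Nat.hyperfilter_le_atTop (Filter.eventually_ge_atTop T)
  obtain ⟨Ws, hWs⟩ := TrD.exists_lim (U := U) (hF := hF) hg (D := W₁) (B := 2 * (h : ℤ) - 2)
    (Filter.Eventually.of_forall fun n => ⟨hf1 n, by
      have h4 := (hf2 n).1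
      rw [hg n] at h4
      exact h4.le⟩)
  have hwb : ∀ l, (fun n => w₁ n l) ∈ bdS k F U := fun l =>
    hWs.mem_bdS (Filter.Eventually.of_forall fun n => hfin n l)
  let w' : Fin s → bdS k F U := fun l => ⟨fun n => w₁ n l, hwb l⟩
  refine ⟨UK k U, UF hF U, inferInstance, inferInstance, inferInstance, inferInstance,
    inferInstance, UF.isCurve hg, UF.genus_eq hg, UF.le_gon hg hgon, Ws,
    fun l => UF.mk hF (w' l), hWs.isCan hf2, fun l => ?_, ?_, fun N => ?_⟩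
  · exact (hWs.mem_L (w' l)).2 (Filter.Eventually.of_forall fun n => hfin n l)
  · exact (UF.linearIndependent_iff w').2 (Filter.Eventually.of_forall fun n => hw₁i n)
  · set T : ℕ := (max T₁ N).toNat with hT
    have hT1 : max T₁ N ≤ (T : ℤ) := Int.self_le_toNat _
    have hT2 : T₁ ≤ (T : ℤ) := (le_max_left _ _).trans hT1
    obtain ⟨As, hAs⟩ := TrD.exists_lim (U := U) (hF := hF) hg (D := fun n => B T n)
      (B := (T : ℤ) + h + 1) (by
        filter_upwards [hU T] with n hn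
        exact ⟨hB0 T n hT2 hn, hB2 T n hT2 hn⟩)
    refine ⟨As, ?_, fun hcon => ?_⟩
    · obtain ⟨n, hn1, hn2⟩ := (hAs.deg.and (hU T)).exists
      rw [← hn1]
      exact ((le_max_right _ _).trans hT1).trans (hB1 T n hT2 hn2)
    · obtain ⟨n, hn1, hn2⟩ := ((XA.transfer hAs hWs w' hcon).and (hU T)).exists
      exact hBX T n hT2 hn2 hn1

end

end Pool.Agent.MPd118f9
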