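import Pool.Agent.Lib.MP_d118f9_ag.B.Output

/-!
# MP_d118f9_ag, block ST2 (uniformity): splitting with explicit constants (PR1)
-/

set_option autoImplicit false

noncomputable section

open Classical

namespace Pool.Agent.MPd118f9

variable {k F S : Type} [Field k] [IsAlgClosed k] [CharZero k] [Field F] [Algebra k F]
  [CommRing S] [Algebra k S] [Algebra F S] [IsScalarTower k F S]

/-- The divisors of the level `μ`. -/
private def PR1_lv (A₀ E : Dv k F) (t : ℕ) (μ : Fin (t + 1) → ℕ) (i : ℕ) : Dv k F :=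
  A₀ + (if h : i < t then μ ⟨i, by omega⟩ else 0) • E

omit [IsAlgClosed k] [CharZero k] in
private theorem PR1_lv_update (A₀ E : Dv k F) (t : ℕ) (μ : Fin (t + 1) → ℕ) (l : Fin (t + 1))
    (hl : l.1 < t) : PR1_lv A₀ E t (Function.update μ l (μ l + 1)) =
      Function.update (PR1_lv A₀ E t μ) l.1 (PR1_lv A₀ E t μ l.1 + E) := by
  funext i
  by_cases hi : i = l.1
  · subst hi
    rw [Function.update_self, PR1_lv, PR1_lv, dif_pos hl, dif_pos hl]
    have h1 : (⟨l.1, by omega⟩ : Fin (t + 1)) = l := rfl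
    rw [h1, Function.update_self, succ_nsmul, ← add_assoc]
  · rw [Function.update_of_ne hi, PR1_lv, PR1_lv]
    by_cases hit : i < t
    · rw [dif_pos hit, dif_pos hit, Function.update_of_ne]
      intro h
      exact hi (congrArg Fin.val h)
    · rw [dif_neg hit, dif_neg hit]

omit [IsAlgClosed k] [CharZero k] in
private theorem PR1_lv_last (A₀ E : Dv k F) (t : ℕ) (μ : Fin (t + 1) → ℕ) (n : ℕ) :
    PR1_lv A₀ E t (Function.update μ (Fin.last t) n) = PR1_lv A₀ E t μ := by
  funext i
  rw [PR1_lv, PR1_lv]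
  by_cases hit : i < t
  · rw [dif_pos hit, dif_pos hit, Function.update_of_ne]
    intro h
    have h1 := congrArg Fin.val h
    simp only [Fin.val_last] at h1
    omega
  · rw [dif_neg hit, dif_neg hit]

/-- **PR1.**  This is `Vars.output` with `M = 1`, without its last step, and with an explicit bound.
Proof: copy the proof of `Vars.output` (file `MP_d118f9_ag/B/Output.lean`, the case `M ≥ 1`) with
`M = 1`, `m = t + 1`, `m' = t`; the private lemmas `lvA`, `lvA_update`, `lvA_last` have to be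
copied too. -/
theorem Vars.split (hF : IsCurve k F) {a₀ : ℤ} (ha : IsGood k F a₀) (t : ℕ) {z : F}
    (hz : ∀ c : k, z ≠ algebraMap k F c) (W : Dv k F) (c : Fin (t + 2) → k)
    (hc : Function.Injective c) [Nontrivial S] (V : Vars k F S) (hV : ∀ s < t, V.Disj s)
    (A : Dv k F) (hA : ((t : ℤ) + 3) * deg (poles k z) + (t + 2) * a₀ + |deg W| ≤ deg A) {x : S}
    (hx : x ∈ V.Fb (fun _ => A) t (A + W)) :
    ∃ y : Fin (t + 2) → S,
      (∀ j, y j ∈ V.Fb (fun _ => A - poles k z) t (A - poles k z + W)) ∧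
      x = ∑ j, ((∏ l ∈ Finset.range t, (V.x l z - algebraMap k S (c j))) *
        (algebraMap F S z - algebraMap k S (c j))) * y j := by
  have ha0 := ha.pos
  have hE : 0 < deg (poles k z) := hF.deg_poles_pos hz
  have hta : 0 ≤ ((t : ℤ) + 1) * a₀ := by positivity
  have hW1 : -|deg W| ≤ deg W := neg_abs_le _
  have hW2 : 0 ≤ |deg W| := abs_nonneg _
  obtain ⟨m, hm⟩ : ∃ m : ℕ, m = t + 1 := ⟨_, rfl⟩
  have hmE : 0 ≤ (m : ℤ) * deg (poles k z) := by positivity
  have hm1 : m + 1 = (t + 1 + 1) * 1 := by omega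
  have hm' : t + 1 = m := hm.symm
  set E := poles k z with hEdef
  set A₀ : Dv k F := A - m • E with hA₀
  have hdA₀ : a₀ + deg E + (t + 1) * a₀ + |deg W| ≤ deg A₀ := by
    rw [hA₀, deg_sub, deg_nsmul, hm]
    push_cast
    linarith
  have hlv : ∀ (μ : Fin (t + 1) → ℕ) (s : ℕ), deg A₀ ≤ deg (PR1_lv A₀ E t μ s) := by
    intro μ s
    rw [PR1_lv, deg_add, deg_nsmul]
    have h1 : 0 ≤ (((if h : s < t then μ ⟨s, by omega⟩ else 0 : ℕ)) : ℤ) * deg E := by
      positivity
    linarith
  have hlvE : ∀ (μ : Fin (t + 1) → ℕ) (s : ℕ), a₀ + deg E ≤ deg (PR1_lv A₀ E t μ s) := by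
    intro μ s
    have h1 := hlv μ s
    linarith
  let G : (Fin (t + 1) → ℕ) → Submodule k S := fun μ =>
    V.Fb (PR1_lv A₀ E t μ) t (A₀ + W + μ (Fin.last t) • E)
  have hdB : ∀ n : ℕ, (t + 1) * a₀ + deg E ≤ deg (A₀ + W + n • E) := by
    intro n
    rw [deg_add, deg_add, deg_nsmul]
    have h1 : 0 ≤ (n : ℤ) * deg E := by positivity
    linarith
  let ζ : Fin (t + 1) → S := fun l => if l.1 < t then V.x l z else algebraMap F S z
  have hGl : ∀ (μ : Fin (t + 1) → ℕ) (l : Fin (t + 1)), l.1 < t →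
      G (Function.update μ l (μ l + 1)) =
        V.Fb (Function.update (PR1_lv A₀ E t μ) l.1 (PR1_lv A₀ E t μ l.1 + E)) t
          (A₀ + W + μ (Fin.last t) • E) := by
    intro μ l hl
    change V.Fb (PR1_lv A₀ E t (Function.update μ l (μ l + 1))) t
      (A₀ + W + (Function.update μ l (μ l + 1)) (Fin.last t) • E) = _
    rw [PR1_lv_update A₀ E t μ l hl, Function.update_of_ne]
    intro h
    rw [← h] at hl
    simp at hl
  have hGlast : ∀ (μ : Fin (t + 1) → ℕ),
      G (Function.update μ (Fin.last t) (μ (Fin.last t) + 1)) =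
        V.Fb (PR1_lv A₀ E t μ) t (A₀ + W + μ (Fin.last t) • E + E) := by
    intro μ
    change V.Fb (PR1_lv A₀ E t (Function.update μ (Fin.last t) (μ (Fin.last t) + 1))) t
      (A₀ + W + (Function.update μ (Fin.last t) (μ (Fin.last t) + 1)) (Fin.last t) • E) = _
    rw [PR1_lv_last, Function.update_self, succ_nsmul, ← add_assoc]
  have hlast : ∀ l : Fin (t + 1), ¬ l.1 < t → l = Fin.last t := by
    intro l hl
    apply Fin.ext
    rw [Fin.val_last]
    omega
  have hE0 : 0 ≤ E := le_sup_right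
  obtain ⟨y, hy, hxy⟩ := partition ζ c hc hm1 hm' G (by
    intro μ l u hu
    by_cases hl : l.1 < t
    · rw [hGl μ l hl]
      exact (V.isLev_Fb hF ha hz (PR1_lv A₀ E t μ) hl hV fun s _ => hlvE μ s).le_p hu
    · rw [hlast l hl, hGlast μ]
      obtain ⟨α, β, hB⟩ := V.isBdl_Fb hF ha (PR1_lv A₀ E t μ) t hV fun s _ => by
        have h1 := hlvE μ s
        linarith
      exact hB.mono (le_add_of_nonneg_right hE0) hu) (by
    intro μ l u hu
    by_cases hl : l.1 < t
    · rw [hGl μ l hl]
      simp only [ζ, if_pos hl]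
      exact (V.isLev_Fb hF ha hz (PR1_lv A₀ E t μ) hl hV fun s _ => hlvE μ s).mul_p hu
    · rw [hlast l hl, hGlast μ]
      obtain ⟨α, β, hB⟩ := V.isBdl_Fb hF ha (PR1_lv A₀ E t μ) t hV fun s _ => by
        have h1 := hlvE μ s
        linarith
      have hζ : ζ (Fin.last t) = algebraMap F S z := by
        simp [ζ]
      rw [hζ, ← Algebra.smul_def]
      refine hB.smul_mem hF ?_ hu
      have hz0 : z ≠ 0 := by
        have h2 := hz 0
        rwa [map_zero] at h2
      rw [mem_L_of_ne hz0]
      intro P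
      have h2 : -dv k z P ≤ E P := by
        rw [hEdef]
        exact le_sup_left
      rw [hF.dv_apply hz0] at h2
      linarith) (by
    intro μ l u hu
    by_cases hl : l.1 < t
    · rw [hGl μ l hl] at hu
      simp only [ζ, if_pos hl]
      refine (V.isLev_Fb hF ha hz (PR1_lv A₀ E t μ) hl hV fun s _ => hlvE μ s).gen ?_ hu
      have h1 := hdB (μ (Fin.last t))
      linarith
    · have hl' := hlast l hl
      subst hl'
      rw [hGlast μ] at hu
      have hζ : ζ (Fin.last t) = algebraMap F S z := by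
        simp [ζ]
      rw [hζ]
      refine V.gen_y hF ha hz (PR1_lv A₀ E t μ) hV (fun s _ => ?_) (hdB _) hu
      have h1 := hlvE μ s
      linarith) (x := x) (by
    have h1 : PR1_lv A₀ E t (fun _ => m) = fun i => if i < t then A else A₀ := by
      funext i
      rw [PR1_lv]
      by_cases hi : i < t
      · rw [dif_pos hi, if_pos hi, hA₀, sub_add_cancel]
      · rw [dif_neg hi, if_neg hi, zero_smul, add_zero]
    have h2 : V.Fb (PR1_lv A₀ E t (fun _ => m)) t = V.Fb (fun _ => A) t := by
      rw [h1]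
      exact V.Fb_congr fun l hl => if_pos hl
    have h3 : A₀ + W + m • E = A + W := by
      rw [hA₀]
      abel
    change x ∈ V.Fb (PR1_lv A₀ E t (fun _ => m)) t (A₀ + W + m • E)
    rw [h2, h3]
    exact hx)
  refine ⟨y, fun j => ?_, ?_⟩
  · have h0 : A₀ + t • E = A - E := by
      rw [hA₀, hm, add_smul, one_smul]
      abel
    have h1 : PR1_lv A₀ E t (fun _ => t) = fun i => if i < t then A - E else A₀ := by
      funext i
      rw [PR1_lv]
      by_cases hi : i < t
      · rw [dif_pos hi, if_pos hi, h0]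
      · rw [dif_neg hi, if_neg hi, zero_smul, add_zero]
    have h2 : V.Fb (PR1_lv A₀ E t (fun _ => t)) t = V.Fb (fun _ => A - E) t := by
      rw [h1]
      exact V.Fb_congr fun l hl => if_pos hl
    have h3 : A₀ + W + t • E = A - E + W := by
      rw [← h0]
      abel
    have h4 : y j ∈ V.Fb (PR1_lv A₀ E t (fun _ => t)) t (A₀ + W + t • E) := hy j
    rw [h2, h3] at h4
    exact h4
  · rw [hxy]
    refine Finset.sum_congr rfl fun j _ => ?_
    congr 1
    rw [Finset.prod_pow, pow_one, Fin.prod_univ_castSucc, Finset.prod_range]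
    congr 1
    · refine Finset.prod_congr rfl fun l _ => ?_
      simp [ζ]
    · simp [ζ]

end Pool.Agent.MPd118f9
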