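import Pool.Agent.Lib.MP_d118f9_ag_G.U.PR1
import Pool.Agent.Lib.MP_d118f9_ag.B.LD
import Pool.Agent.Lib.MP_d118f9_ag.C.PAff

/-!
# MP_d118f9_ag, block ST2 (uniformity): splitting of alternating cycles (PR2)
-/

set_option autoImplicit false

noncomputable section

open Classical

namespace Pool.Agent.MPd118f9

/-- The array `c` for the second family of indices, written in the first one with the matrix
`T`. -/
def psh {k F : Type} [Field k] [Field F] [Algebra k F] {r r' : ℕ} (T : Fin r → Fin r' → k) {i : ℕ}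
    (c : (Fin i → Fin r') → F) : (Fin i → Fin r) → F :=
  fun I => ∑ I' : Fin i → Fin r', (∏ l, T (I l) (I' l)) • c I'

section

variable {k F : Type} [Field k] [Field F] [Algebra k F] {r r' i : ℕ}

private theorem pr2_psh_comp (T : Fin r → Fin r' → k) (c : (Fin i → Fin r') → F)
    (σ : Equiv.Perm (Fin i)) (I : Fin i → Fin r) :
    psh T c (I ∘ σ) = psh T (fun I' => c (I' ∘ σ)) I := by
  unfold psh
  rw [← (Equiv.arrowCongr σ.symm (Equiv.refl (Fin r'))).sum_comp]
  refine Finset.sum_congr rfl fun I' _ => ?_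
  have h : (Equiv.arrowCongr σ.symm (Equiv.refl (Fin r'))) I' = I' ∘ σ := rfl
  rw [h]
  congr 1
  exact Equiv.prod_comp σ fun l => T (I l) (I' l)

private theorem pr2_psh_sum {κ : Type} (s : Finset κ) (T : Fin r → Fin r' → k)
    (c : κ → (Fin i → Fin r') → F) (I : Fin i → Fin r) :
    psh T (fun I' => ∑ x ∈ s, c x I') I = ∑ x ∈ s, psh T (c x) I := by
  unfold psh
  rw [Finset.sum_comm]
  exact Finset.sum_congr rfl fun I' _ => Finset.smul_sum

private theorem pr2_psh_zsmul (T : Fin r → Fin r' → k) (n : ℤ) (c : (Fin i → Fin r') → F)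
    (I : Fin i → Fin r) : psh T (fun I' => n • c I') I = n • psh T c I := by
  unfold psh
  rw [Finset.smul_sum]
  exact Finset.sum_congr rfl fun I' _ => smul_comm _ _ _

private theorem pr2_psh_smul (T : Fin r → Fin r' → k) (κ : k) (c : (Fin i → Fin r') → F)
    (I : Fin i → Fin r) : psh T (fun I' => κ • c I') I = κ • psh T c I := by
  unfold psh
  rw [Finset.smul_sum]
  exact Finset.sum_congr rfl fun I' _ => smul_comm _ _ _

/-- The product of an array for `a'` with the functions `z - b` of all variables. -/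
private theorem pr2_key {S : Type} [CommRing S] [Algebra k S] [Algebra F S] [IsScalarTower k F S]
    (V : Vars k F S) {z : F} {b : k} {T : Fin r → Fin r' → k} {a : Fin r → F} {a' : Fin r' → F}
    (hT : ∀ q, (z - algebraMap k F b) * a' q = ∑ p, T p q • a p) (e : (Fin i → Fin r') → F) :
    ((∏ l ∈ Finset.range i, (V.x l z - algebraMap k S b)) *
      (algebraMap F S z - algebraMap k S b)) * V.arr a' e =
      V.arr a (psh T fun I' => (z - algebraMap k F b) * e I') := by
  have h1 : ∀ l, V.x l z - algebraMap k S b = V.x l (z - algebraMap k F b) := by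
    intro l
    rw [map_sub, AlgHom.commutes]
  have h2 : algebraMap F S z - algebraMap k S b = algebraMap F S (z - algebraMap k F b) := by
    rw [map_sub, ← IsScalarTower.algebraMap_apply]
  have h3 : ∏ l ∈ Finset.range i, (V.x l z - algebraMap k S b) =
      ∏ l : Fin i, V.x l (z - algebraMap k F b) := by
    rw [Finset.prod_range]
    exact Finset.prod_congr rfl fun l _ => h1 l
  have h4 : ∀ I' : Fin i → Fin r',
      ((∏ l : Fin i, V.x l (z - algebraMap k F b)) * algebraMap F S (z - algebraMap k F b)) *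
        ((∏ l : Fin i, V.x l (a' (I' l))) * algebraMap F S (e I')) =
      ∑ I : Fin i → Fin r, (∏ l : Fin i, V.x l (a (I l))) *
        algebraMap F S ((∏ l, T (I l) (I' l)) • ((z - algebraMap k F b) * e I')) := by
    intro I'
    have h5 : ∀ l : Fin i, V.x l (z - algebraMap k F b) * V.x l (a' (I' l)) =
        ∑ p, T p (I' l) • V.x l (a p) := by
      intro l
      rw [← map_mul, hT, map_sum]
      exact Finset.sum_congr rfl fun p _ => map_smul _ _ _
    have h6 : ((∏ l : Fin i, V.x l (z - algebraMap k F b)) *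
        algebraMap F S (z - algebraMap k F b)) *
        ((∏ l : Fin i, V.x l (a' (I' l))) * algebraMap F S (e I')) =
        (∏ l : Fin i, (V.x l (z - algebraMap k F b) * V.x l (a' (I' l)))) *
          algebraMap F S ((z - algebraMap k F b) * e I') := by
      rw [Finset.prod_mul_distrib, map_mul]
      ring
    rw [h6, Finset.prod_congr rfl fun l _ => h5 l, Finset.prod_univ_sum,
      Fintype.piFinset_univ, Finset.sum_mul]
    refine Finset.sum_congr rfl fun I _ => ?_
    have h7 : ∏ l : Fin i, T (I l) (I' l) • V.x l (a (I l)) =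
        (∏ l : Fin i, T (I l) (I' l)) • ∏ l : Fin i, V.x l (a (I l)) := Finset.prod_smul _ _ _
    have h8 : algebraMap F S ((∏ l, T (I l) (I' l)) • ((z - algebraMap k F b) * e I')) =
        (∏ l, T (I l) (I' l)) • algebraMap F S ((z - algebraMap k F b) * e I') := by
      rw [Algebra.smul_def, map_mul, ← IsScalarTower.algebraMap_apply, ← Algebra.smul_def]
    rw [h7, h8, smul_mul_assoc, mul_smul_comm]
  unfold Vars.arr psh
  rw [h3, h2, Finset.mul_sum, Finset.sum_congr rfl fun I' _ => h4 I', Finset.sum_comm]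
  refine Finset.sum_congr rfl fun I _ => ?_
  rw [map_sum, Finset.mul_sum]

private theorem pr2_arr_sub {S : Type} [CommRing S] [Algebra k S] [Algebra F S]
    [IsScalarTower k F S] (V : Vars k F S) (a : Fin r → F)
    (c d : (Fin i → Fin r) → F) : V.arr a (fun I => c I - d I) = V.arr a c - V.arr a d := by
  unfold Vars.arr
  rw [← Finset.sum_sub_distrib]
  refine Finset.sum_congr rfl fun I _ => ?_
  rw [map_sub, mul_sub]

private theorem pr2_isCyc {ι A : Type} [Fintype ι] [CommRing A] {v : ι → A} {i : ℕ}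
    {c : (Fin i → ι) → A}
    (h : ∀ (l : Fin i) (I : Fin i → ι), ∑ j, v j * c (Function.update I l j) = 0) :
    IsCyc v c := by
  cases i with
  | zero => trivial
  | succ n =>
    intro J
    rcases isEmpty_or_nonempty ι with he | ⟨⟨j₀⟩⟩
    · exact Fintype.sum_empty _
    · rw [← h 0 (Fin.cons j₀ J)]
      refine Finset.sum_congr rfl fun j _ => ?_
      rw [Fin.update_cons_zero]

private theorem pr2_contr_asymm {ι A : Type} [Fintype ι] [CommRing A] {v : ι → A} {i : ℕ}
    {c : (Fin i → ι) → A}
    (h : ∀ (l : Fin i) (I : Fin i → ι), ∑ j, v j * c (Function.update I l j) = 0)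
    (l : Fin i) (I : Fin i → ι) : ∑ j, v j * asymm c (Function.update I l j) = 0 := by
  unfold asymm
  have h1 : ∀ j, v j * ∑ σ : Equiv.Perm (Fin i), ((Equiv.Perm.sign σ : ℤˣ) : ℤ) •
      c (Function.update I l j ∘ σ) = ∑ σ : Equiv.Perm (Fin i),
        ((Equiv.Perm.sign σ : ℤˣ) : ℤ) • (v j * c (Function.update (I ∘ σ) (σ.symm l) j)) := by
    intro j
    rw [Finset.mul_sum]
    refine Finset.sum_congr rfl fun σ _ => ?_
    rw [mul_smul_comm, Function.update_comp_equiv]
  rw [Finset.sum_congr rfl fun j _ => h1 j, Finset.sum_comm]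
  refine Finset.sum_eq_zero fun σ _ => ?_
  rw [← Finset.smul_sum, h, smul_zero]

end

variable {k F : Type} [Field k] [IsAlgClosed k] [CharZero k] [Field F] [Algebra k F]

/-- **PR2.**  Proof.  Let `V` be the variables of `SS.exists_vars k F i` and `b : Fin (i + 2) → k`
injective (`k` is infinite).  `(z - b j) * a' q ∈ L A` (`mul_mem_L`, `z - b j ∈ L (poles k z)`),
which gives `T`.  For every `J` the element `V.arr a (c · J)` is in `V.Fb (fun _ => A) i (A + W)`
(`Alt.contr_update`, `Vars.arr_mem_Fb`), so `Vars.split` and `Vars.exists_arr` give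
`V.arr a (c · J) = ∑ j, (∏ l, (x l z - b j)) * (y z - b j) * V.arr a' (d j J)` with
`d j J : (Fin i → Fin r') → F`, values in `L (A - E + W)`, contractions with `a'` zero.  Here
`(∏ l, (x l z - b j)) * (y z - b j) * V.arr a' d = V.arr a (psh (T j) fun I' => (z - b j) * d I')`
(expand `x l ((z - b j) * a' q) = ∑ p, T j p q • x l (a p)`, `Finset.prod_univ_sum`), and
`Vars.arr_inj` gives `c I J = ∑ j, psh (T j) (fun I' => (z - b j) * d j J I') I`.
Antisymmetrise in `I` and in `J`: `c' j I J = (i! m!)⁻¹ ∑ σ τ, sign σ sign τ d j (J ∘ τ) (I ∘ σ)`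
(`asymm` or `asym` of `K/KDefs`, `K/AS`; `c` is alternating in both; `psh` commutes with
permutations).  `IsCyc`: the contractions of `d j J` in every place are zero. -/
theorem exists_split (hF : IsCurve k F) {a₀ : ℤ} (ha : IsGood k F a₀) {i m s : ℕ} {z : F}
    (hz : ∀ c : k, z ≠ algebraMap k F c) {A W : Dv k F}
    (hA : ((i : ℤ) + 3) * deg (poles k z) + (i + 2) * a₀ + |deg W| ≤ deg A) {r r' : ℕ}
    (a : Module.Basis (Fin r) k (L A)) (a' : Module.Basis (Fin r') k (L (A - poles k z)))
    (c : (Fin i → Fin r) → (Fin m → Fin s) → F) (hc : Alt2 c) (hcL : ∀ I J, c I J ∈ L (A + W))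
    (hcy : ∀ J, IsCyc (fun j => (a j : F)) fun I => c I J) :
    ∃ (b : Fin (i + 2) → k) (T : Fin (i + 2) → Fin r → Fin r' → k)
      (c' : Fin (i + 2) → (Fin i → Fin r') → (Fin m → Fin s) → F),
      (∀ j q, (z - algebraMap k F (b j)) * (a' q : F) = ∑ p, T j p q • (a p : F)) ∧
      (∀ j, Alt2 (c' j)) ∧ (∀ j I J, c' j I J ∈ L (A - poles k z + W)) ∧
      (∀ j J, IsCyc (fun q => (a' q : F)) fun I => c' j I J) ∧
      ∀ I J, c I J = ∑ j, psh (T j) (fun I' => (z - algebraMap k F (b j)) * c' j I' J) I := by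
  obtain ⟨V, -, hV, -, -⟩ := SS.exists_vars k F i
  have hz0 : z ≠ 0 := neC_zero hz
  -- the scalars
  let b : Fin (i + 2) → k := fun j => ((j : ℕ) : k)
  have hb : Function.Injective b := fun j j' h => Fin.ext (Nat.cast_injective h)
  have hzL : ∀ β : k, z - algebraMap k F β ∈ L (poles k z) := by
    intro β
    refine Submodule.sub_mem _ ?_ ?_
    · rw [mem_L_of_ne hz0]
      intro P
      rw [polesC_apply hF hz0]
      have := le_max_left (-P.ord z) 0
      omega
    · rw [Algebra.algebraMap_eq_smul_one]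
      exact Submodule.smul_mem _ _ (one_mem_L (polesC_nonneg z))
  have hmul : ∀ (β : k) (q : Fin r'), (z - algebraMap k F β) * (a' q : F) ∈ L A := by
    intro β q
    have h1 := mul_mem_L (hzL β) (a' q).2
    have h2 : poles k z + (A - poles k z) = A := by abel
    rwa [h2] at h1
  let T : Fin (i + 2) → Fin r → Fin r' → k := fun j p q => a.repr ⟨_, hmul (b j) q⟩ p
  have hT : ∀ j q, (z - algebraMap k F (b j)) * (a' q : F) = ∑ p, T j p q • (a p : F) := by
    intro j q
    have h1 := a.sum_repr ⟨_, hmul (b j) q⟩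
    have h2 := congrArg (Subtype.val) h1
    simp only [Submodule.coe_sum, Submodule.coe_smul] at h2
    exact h2.symm
  -- the bases
  have hind : LinearIndependent k (fun j => (a j : F)) :=
    a.linearIndependent.map' (L A).subtype (Submodule.ker_subtype _)
  have hmem : ∀ j, (a j : F) ∈ L A := fun j => (a j).2
  have hind' : LinearIndependent k (fun j => (a' j : F)) :=
    a'.linearIndependent.map' (L (A - poles k z)).subtype (Submodule.ker_subtype _)
  have hsp' : L (A - poles k z) ≤ Submodule.span k (Set.range fun j => (a' j : F)) := by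
    have h1 : Set.range (fun j => (a' j : F)) =
        (L (A - poles k z)).subtype '' Set.range a' := by
      rw [← Set.range_comp]
      rfl
    rw [h1, ← Submodule.map_span, a'.span_eq, Submodule.map_top, Submodule.range_subtype]
  -- the elements
  have hx : ∀ J, V.arr (fun j => (a j : F)) (fun I => c I J) ∈ V.Fb (fun _ => A) i (A + W) :=
    fun J => V.arr_mem_Fb hmem (fun I => hcL I J)
      (fun l I => Alt.contr_update (hc.1 J) (hcy J) l I)
  choose y hyF hy using fun J => Vars.split hF ha i hz W b hb V hV A hA (hx J)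
  choose d hdL hdy hd0 using fun (J : Fin m → Fin s) (j : Fin (i + 2)) =>
    V.exists_arr hV hind' hsp' (hyF J j)
  have hcd : ∀ J I, c I J = ∑ j, psh (T j) (fun I' => (z - algebraMap k F (b j)) * d J j I') I := by
    intro J
    have h1 : V.arr (fun j => (a j : F)) (fun I => c I J -
        ∑ j, psh (T j) (fun I' => (z - algebraMap k F (b j)) * d J j I') I) = 0 := by
      rw [pr2_arr_sub, ← V.arr_sum (fun j => (a j : F))
        (fun j I => psh (T j) (fun I' => (z - algebraMap k F (b j)) * d J j I') I), hy J,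
        sub_eq_zero]
      refine Finset.sum_congr rfl fun j _ => ?_
      rw [← hdy J j]
      exact pr2_key V (hT j) (d J j)
    intro I
    exact sub_eq_zero.1 (V.arr_inj hV hind h1 I)
  -- antisymmetrisation
  have hκ : (((i.factorial * m.factorial : ℕ) : ℤ) : k) ≠ 0 := by
    rw [Int.cast_natCast, Nat.cast_ne_zero]
    exact mul_ne_zero i.factorial_ne_zero m.factorial_ne_zero
  let κ : k := (((i.factorial * m.factorial : ℕ) : ℤ) : k)⁻¹
  let c' : Fin (i + 2) → (Fin i → Fin r') → (Fin m → Fin s) → F := fun j I' J =>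
    κ • asymm (fun J' => asymm (d J' j) I') J
  refine ⟨b, T, c', hT, fun j => ⟨fun J => ?_, fun I' => ?_⟩, fun j I J => ?_, fun j J => ?_, ?_⟩
  · refine alt_hom (φ := DistribSMul.toAddMonoidHom F κ) ?_
    unfold asymm
    refine alt_sum fun τ _ => ?_
    exact alt_hom (alt_asymm (d (J ∘ τ) j))
      (DistribSMul.toAddMonoidHom F (((Equiv.Perm.sign τ : ℤˣ) : ℤ)))
  · exact alt_hom (alt_asymm _) (DistribSMul.toAddMonoidHom F κ)
  · refine Submodule.smul_mem _ _ ?_
    exact asymm_mem (N := (L (A - poles k z + W)).toAddSubgroup)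
      (fun J' => asymm_mem (N := (L (A - poles k z + W)).toAddSubgroup) (fun I' => hdL J' j I') I)
      J
  · refine pr2_isCyc fun l I => ?_
    show ∑ q, (a' q : F) * (κ • asymm (fun J' => asymm (d J' j) (Function.update I l q)) J) = 0
    have h1 : ∀ q, (a' q : F) *
        (κ • asymm (fun J' => asymm (d J' j) (Function.update I l q)) J) =
        κ • ∑ τ : Equiv.Perm (Fin m), ((Equiv.Perm.sign τ : ℤˣ) : ℤ) •
          ((a' q : F) * asymm (d (J ∘ τ) j) (Function.update I l q)) := by
      intro q
      rw [mul_smul_comm, asymm, Finset.mul_sum]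
      congr 1
      exact Finset.sum_congr rfl fun τ _ => mul_smul_comm _ _ _
    rw [Finset.sum_congr rfl fun q _ => h1 q, ← Finset.smul_sum, Finset.sum_comm]
    have h2 : ∀ τ : Equiv.Perm (Fin m), ∑ q, ((Equiv.Perm.sign τ : ℤˣ) : ℤ) •
        ((a' q : F) * asymm (d (J ∘ τ) j) (Function.update I l q)) = 0 := by
      intro τ
      rw [← Finset.smul_sum, pr2_contr_asymm (fun l' I' => hd0 (J ∘ τ) j l' I'), smul_zero]
    rw [Finset.sum_congr rfl fun τ _ => h2 τ, Finset.sum_const_zero, smul_zero]
  · intro I J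
    have h1 : ∀ j, psh (T j) (fun I' => (z - algebraMap k F (b j)) * c' j I' J) I =
        κ • ∑ τ : Equiv.Perm (Fin m), ((Equiv.Perm.sign τ : ℤˣ) : ℤ) •
          ∑ σ : Equiv.Perm (Fin i), ((Equiv.Perm.sign σ : ℤˣ) : ℤ) •
            psh (T j) (fun I' => (z - algebraMap k F (b j)) * d (J ∘ τ) j I') (I ∘ σ) := by
      intro j
      have h2 : (fun I' => (z - algebraMap k F (b j)) * c' j I' J) = fun I' =>
          κ • ∑ τ : Equiv.Perm (Fin m), ((Equiv.Perm.sign τ : ℤˣ) : ℤ) •
            ∑ σ : Equiv.Perm (Fin i), ((Equiv.Perm.sign σ : ℤˣ) : ℤ) •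
              ((z - algebraMap k F (b j)) * d (J ∘ τ) j (I' ∘ σ)) := by
        funext I'
        show (z - algebraMap k F (b j)) * (κ • asymm (fun J' => asymm (d J' j) I') J) = _
        rw [mul_smul_comm, asymm, Finset.mul_sum]
        congr 1
        refine Finset.sum_congr rfl fun τ _ => ?_
        rw [mul_smul_comm, asymm, Finset.mul_sum]
        congr 1
        exact Finset.sum_congr rfl fun σ _ => mul_smul_comm _ _ _
      rw [h2, pr2_psh_smul, pr2_psh_sum]
      congr 1
      refine Finset.sum_congr rfl fun τ _ => ?_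
      rw [pr2_psh_zsmul, pr2_psh_sum]
      congr 1
      refine Finset.sum_congr rfl fun σ _ => ?_
      rw [pr2_psh_zsmul, pr2_psh_comp]
    have h3 : ∑ j, psh (T j) (fun I' => (z - algebraMap k F (b j)) * c' j I' J) I =
        κ • asymm (fun J' => asymm (fun I' => c I' J') I) J := by
      rw [Finset.sum_congr rfl fun j _ => h1 j, ← Finset.smul_sum, Finset.sum_comm]
      congr 1
      rw [asymm]
      refine Finset.sum_congr rfl fun τ _ => ?_
      rw [← Finset.smul_sum, Finset.sum_comm, asymm]
      congr 1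
      refine Finset.sum_congr rfl fun σ _ => ?_
      rw [← Finset.smul_sum, ← hcd]
    rw [h3]
    have h4 : (fun J' => asymm (fun I' => c I' J') I) = fun J' => (i.factorial : ℤ) • c I J' := by
      funext J'
      exact asymm_of_alt (hc.1 J') I
    have h5 : Alt fun J' => (i.factorial : ℤ) • c I J' :=
      alt_hom (hc.2 I) (DistribSMul.toAddMonoidHom F (i.factorial : ℤ))
    rw [h4, asymm_of_alt h5, smul_smul]
    have h6 : (m.factorial : ℤ) * (i.factorial : ℤ) = ((i.factorial * m.factorial : ℕ) : ℤ) := by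
      push_cast
      ring
    rw [h6, ← Int.cast_smul_eq_zsmul k, smul_smul, inv_mul_cancel₀ hκ, one_smul]

end Pool.Agent.MPd118f9
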