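import Pool.Agent.Lib.MP_d118f9_ag.K.KDefs
import Pool.Agent.Lib.MP_d118f9_ag.Iface1

/-!
# MP_d118f9_ag, block ST2 (uniformity): the statement `XA`

`XA A W w p` is (MC) if `w` is a basis of `L(W)` and (MG) if `w` is empty.
-/

set_option autoImplicit false

noncomputable section

open Classical

namespace Pool.Agent.MPd118f9

section

variable {k F : Type} [Field k] [Field F] [Algebra k F]

/-- (MC) for the divisors `A`, `W` and the family `w`. -/
def XA (A W : Dv k F) {s : ℕ} (w : Fin s → F) (p : ℕ) : Prop :=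
  ∀ (r : ℕ) (a : Module.Basis (Fin r) k (L A)),
    GX (fun j => (a j : F)) w (L A) (L W) (L (A + W)) p

private theorem UX_alt_mul {ι : Type} {i : ℕ} {c : (Fin i → ι) → F} (h : Alt c) (x : F) :
    Alt fun I => x * c I := by
  intro σ I
  show x * c (I ∘ σ) = ((Equiv.Perm.sign σ : ℤˣ) : ℤ) • (x * c I)
  rw [h σ I, mul_smul_comm]

private theorem UX_alt_zero {ι M : Type} [AddCommGroup M] {i : ℕ} :
    Alt fun _ : Fin i → ι => (0 : M) := by
  intro σ I
  show (0 : M) = ((Equiv.Perm.sign σ : ℤˣ) : ℤ) • (0 : M)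
  rw [smul_zero]

private theorem UX_cyc_zero {ι B : Type} [CommRing B] [Fintype ι] (v : ι → B) :
    ∀ i : ℕ, IsCyc v fun _ : Fin i → ι => (0 : B)
  | 0 => trivial
  | _ + 1 => fun J => by
    show ∑ j, v j * (0 : B) = 0
    simp

private theorem UX_cyc_mul {ι : Type} [Fintype ι] {v v' : ι → F} {x y : F}
    (hv : ∀ j, v' j = y * v j) :
    ∀ {i : ℕ} {c : (Fin i → ι) → F}, IsCyc v c → IsCyc v' fun I => x * c I
  | 0, _, _ => trivial
  | _ + 1, c, h => fun J => by
    have h1 : ∀ j, v' j * (x * c (Fin.cons j J)) = (y * x) * (v j * c (Fin.cons j J)) := by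
      intro j
      rw [hv j]
      ring
    show ∑ j, v' j * (x * c (Fin.cons j J)) = 0
    rw [Finset.sum_congr rfl fun j _ => h1 j, ← Finset.mul_sum]
    have h2 : ∑ j, v j * c (Fin.cons j J) = 0 := h J
    rw [h2, mul_zero]

/-- (MG) is the case of the empty family.  Proof: `m = p`, `u = 0`, the sum over `Fin 0` is `0`. -/
theorem XA.to_ke {A W : Dv k F} {w : Fin 0 → F} {p : ℕ} (h : XA A W w p) (r : ℕ)
    (a : Module.Basis (Fin r) k (L A)) : KE (fun j => (a j : F)) (L W) (L (A + W)) p := by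
  intro c hc hm hcyc
  obtain ⟨g', f', hg', -, hgm, -, -, he⟩ := h r a p 0 (by omega) (fun I _ => c I)
    ⟨fun _ => hc, fun I σ J => by
      have : σ = 1 := Subsingleton.elim _ _
      rw [this]
      simp⟩ (fun I _ => hm I) (fun _ => hcyc)
  refine ⟨fun I => g' I Fin.elim0, hg'.1 _, fun I => hgm I _, fun I => ?_⟩
  have h1 := he I Fin.elim0
  rw [Finset.univ_eq_empty (α := Fin 0), Finset.sum_empty, add_zero] at h1
  exact h1

/-- Proof.  For `u = 0` this is the hypothesis with `m = p` (`f' = 0`).  For `u ≥ 1` the functions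
of `Fin u → Fin 0` are functions on the empty set: everything is trivial. -/
theorem XA.of_ke {A W : Dv k F} {w : Fin 0 → F} {p : ℕ}
    (h : ∀ (r : ℕ) (a : Module.Basis (Fin r) k (L A)),
      KE (fun j => (a j : F)) (L W) (L (A + W)) p) : XA A W w p := by
  intro r a m u hmu g hg hm hcyc
  rcases u with _ | u
  · obtain rfl : m = p := by omega
    obtain ⟨b, hb, hbm, hbe⟩ := h r a (fun I => g I Fin.elim0) (hg.1 _) (fun I => hm I _)
      (hcyc _)
    refine ⟨fun I _ => b I, fun _ _ => 0, ⟨fun _ => hb, fun I σ J => ?_⟩,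
      ⟨fun _ => UX_alt_zero, fun _ => UX_alt_zero⟩, fun I _ => hbm I,
      fun _ _ => Submodule.zero_mem _, fun _ => UX_cyc_zero _ _, fun I J => ?_⟩
    · have : σ = 1 := Subsingleton.elim _ _
      rw [this]
      simp
    · have hJ : J = Fin.elim0 := Subsingleton.elim _ _
      rw [hJ, Finset.univ_eq_empty (α := Fin 0), Finset.sum_empty, add_zero]
      exact hbe I
  · refine ⟨fun _ _ => 0, fun _ _ => 0, ⟨fun _ => UX_alt_zero, fun _ => UX_alt_zero⟩,
      ⟨fun _ => UX_alt_zero, fun _ => UX_alt_zero⟩, fun _ _ => Submodule.zero_mem _,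
      fun _ _ => Submodule.zero_mem _, fun _ => UX_cyc_zero _ _, fun I J => (J 0).elim0⟩

variable [IsAlgClosed k] [CharZero k]

/-- multiplication by `f⁻¹` -/
private def UX_e (hF : IsCurve k F) (A : Dv k F) {f : F} (hf : f ≠ 0) :
    L A ≃ₗ[k] L (A + dv k f) where
  toFun g := ⟨f⁻¹ * g, (hF.mul_mem_iff hf).1 (by
    rw [← mul_assoc, mul_inv_cancel₀ hf, one_mul]
    exact g.2)⟩
  map_add' g g' := Subtype.ext (mul_add _ _ _)
  map_smul' c g := Subtype.ext (mul_smul_comm _ _ _)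
  invFun g := ⟨f * g, (hF.mul_mem_iff hf).2 g.2⟩
  left_inv g := Subtype.ext (by
    show f * (f⁻¹ * (g : F)) = g
    rw [← mul_assoc, mul_inv_cancel₀ hf, one_mul])
  right_inv g := Subtype.ext (by
    show f⁻¹ * (f * (g : F)) = g
    rw [← mul_assoc, inv_mul_cancel₀ hf, one_mul])

private theorem UX_inv_mem (hF : IsCurve k F) {D D' : Dv k F} {f g : F} (hf : f ≠ 0)
    (hD : D' = D + dv k f) (hg : g ∈ L D) : f⁻¹ * g ∈ L D' := by
  rw [hD]
  refine (hF.mul_mem_iff hf).1 ?_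
  rw [← mul_assoc, mul_inv_cancel₀ hf, one_mul]
  exact hg

/-- Proof.  `f' ∈ L (A + dv k f) ↔ f * f' ∈ L A`.  From a basis `a` of `L A` we get the basis
`f⁻¹ * a j` of `L (A + dv k f)`; apply the hypothesis to `f⁻¹ * g I J`. -/
theorem XA.of_add_dv (hF : IsCurve k F) {A W : Dv k F} {f : F} (hf : f ≠ 0) {s : ℕ}
    {w : Fin s → F} {p : ℕ} (h : XA (A + dv k f) W w p) : XA A W w p := by
  intro r a m u hmu g hg hm hcyc
  have hv : ∀ j, (((a.map (UX_e hF A hf)) j : L (A + dv k f)) : F) = f⁻¹ * (a j : F) := by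
    intro j
    rw [Module.Basis.map_apply]
    rfl
  obtain ⟨g', f', hg', hf', hgm, hfm, hfc, he⟩ := h r (a.map (UX_e hF A hf)) m u hmu
    (fun I J => f⁻¹ * g I J) ⟨fun J => UX_alt_mul (hg.1 J) _, fun I => UX_alt_mul (hg.2 I) _⟩
    (fun I J => UX_inv_mem hF hf (by abel) (hm I J)) (fun J => UX_cyc_mul hv (hcyc J))
  refine ⟨g', fun I J => f * f' I J, hg', ⟨fun J => UX_alt_mul (hf'.1 J) _,
    fun I => UX_alt_mul (hf'.2 I) _⟩, hgm, fun I J => (hF.mul_mem_iff hf).2 (hfm I J),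
    fun J => UX_cyc_mul (y := f) (fun j => ?_) (hfc J), fun I J => ?_⟩
  · rw [hv j, ← mul_assoc, mul_inv_cancel₀ hf, one_mul]
  · have h1 := congrArg (fun x => f * x) (he I J)
    beta_reduce at h1
    rw [← mul_assoc, mul_inv_cancel₀ hf, one_mul, mul_add, Finset.mul_sum, Finset.mul_sum] at h1
    rw [h1]
    congr 1
    · refine Finset.sum_congr rfl fun j _ => ?_
      rw [hv j, ← mul_assoc, ← mul_assoc, mul_inv_cancel₀ hf, one_mul]
    · refine Finset.sum_congr rfl fun l _ => ?_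
      ring

/-- Proof.  Apply the hypothesis to `f⁻¹ * g I J`. -/
theorem XA.of_add_dv' (hF : IsCurve k F) {A W : Dv k F} {f : F} (hf : f ≠ 0) {s : ℕ}
    {w : Fin s → F} {p : ℕ} (h : XA A (W + dv k f) (fun l => f⁻¹ * w l) p) : XA A W w p := by
  intro r a m u hmu g hg hm hcyc
  obtain ⟨g', f', hg', hf', hgm, hfm, hfc, he⟩ := h r a m u hmu
    (fun I J => f⁻¹ * g I J) ⟨fun J => UX_alt_mul (hg.1 J) _, fun I => UX_alt_mul (hg.2 I) _⟩
    (fun I J => UX_inv_mem hF hf (by abel) (hm I J))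
    (fun J => UX_cyc_mul (y := 1) (fun j => (one_mul _).symm) (hcyc J))
  refine ⟨fun I J => f * g' I J, f', ⟨fun J => UX_alt_mul (hg'.1 J) _,
    fun I => UX_alt_mul (hg'.2 I) _⟩, hf', fun I J => (hF.mul_mem_iff hf).2 (hgm I J), hfm, hfc,
    fun I J => ?_⟩
  have h1 := congrArg (fun x => f * x) (he I J)
  beta_reduce at h1
  rw [← mul_assoc, mul_inv_cancel₀ hf, one_mul, mul_add, Finset.mul_sum, Finset.mul_sum] at h1
  rw [h1]
  congr 1
  · refine Finset.sum_congr rfl fun j _ => ?_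
    ring
  · refine Finset.sum_congr rfl fun l _ => ?_
    rw [← mul_assoc, ← mul_assoc, mul_inv_cancel₀ hf, one_mul]

end

end Pool.Agent.MPd118f9
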