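import Pool.Agent.Lib.MP_d118f9_ag_G.U.PR2
import Pool.Agent.Lib.MP_d118f9_ag_G.U.UX

/-!
# MP_d118f9_ag, block ST2 (uniformity): propagation (PR3)
-/

set_option autoImplicit false

noncomputable section

open Classical

namespace Pool.Agent.MPd118f9

private theorem pr3_sum_cons {X M : Type} [Fintype X] [AddCommMonoid M] {n : ℕ}
    (f : (Fin (n + 1) → X) → M) :
    ∑ I, f I = ∑ q, ∑ I' : Fin n → X, f (Fin.cons q I') := by
  rw [← Fintype.sum_prod_type']
  exact (Fintype.sum_equiv (Fin.consEquiv fun _ => X) _ _ fun _ => rfl).symm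

section

variable {k F : Type} [Field k] [Field F] [Algebra k F] {r r' : ℕ} {T : Fin r → Fin r' → k}

private theorem pr3_psh_add {n : ℕ} (c c' : (Fin n → Fin r') → F) (I : Fin n → Fin r) :
    psh T (fun I' => c I' + c' I') I = psh T c I + psh T c' I := by
  unfold psh
  rw [← Finset.sum_add_distrib]
  exact Finset.sum_congr rfl fun I' _ => smul_add _ _ _

private theorem pr3_psh_mul {n : ℕ} (w : F) (c : (Fin n → Fin r') → F) (I : Fin n → Fin r) :
    psh T (fun I' => w * c I') I = w * psh T c I := by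
  unfold psh
  rw [Finset.mul_sum]
  exact Finset.sum_congr rfl fun I' _ => (mul_smul_comm _ _ _).symm

private theorem pr3_psh_sum {n : ℕ} {κ : Type} (s : Finset κ) (c : κ → (Fin n → Fin r') → F)
    (I : Fin n → Fin r) :
    psh T (fun I' => ∑ l ∈ s, c l I') I = ∑ l ∈ s, psh T (c l) I := by
  unfold psh
  rw [Finset.sum_comm]
  exact Finset.sum_congr rfl fun I' _ => Finset.smul_sum

private theorem pr3_psh_zero {n : ℕ} (I : Fin n → Fin r) :
    psh T (fun _ : Fin n → Fin r' => (0 : F)) I = 0 := by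
  unfold psh
  exact Finset.sum_eq_zero fun I' _ => smul_zero _

private theorem pr3_psh_mem {n : ℕ} {P : Submodule k F} {c : (Fin n → Fin r') → F}
    (h : ∀ I', c I' ∈ P) (I : Fin n → Fin r) : psh T c I ∈ P :=
  Submodule.sum_mem _ fun I' _ => Submodule.smul_mem _ _ (h I')

/-- `psh` preserves alternating functions. -/
private theorem pr3_psh_alt {n : ℕ} {c : (Fin n → Fin r') → F} (h : Alt c) : Alt (psh T c) := by
  intro σ I
  unfold psh
  rw [Finset.smul_sum]
  refine Fintype.sum_equiv (Equiv.arrowCongr σ (Equiv.refl (Fin r'))) _ _ fun I' => ?_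
  obtain ⟨I₂, hI₂⟩ : ∃ I₂ : Fin n → Fin r', I₂ = Equiv.arrowCongr σ (Equiv.refl (Fin r')) I' :=
    ⟨_, rfl⟩
  have h1 : I' = I₂ ∘ σ := by
    funext l
    rw [hI₂]
    show I' l = I' (σ.symm (σ l))
    rw [Equiv.symm_apply_apply]
  rw [← hI₂, h1, h σ I₂, smul_comm]
  have h2 : ∏ l, T (I l) (I₂ l) = ∏ l, T ((I ∘ σ) l) ((I₂ ∘ σ) l) :=
    (Equiv.prod_comp σ fun l => T (I l) (I₂ l)).symm
  rw [h2]

/-- The identity for the first differential. -/
private theorem pr3_key {n : ℕ} {a : Fin r → F} {a' : Fin r' → F} {ζ : F}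
    (hT : ∀ q, ζ * a' q = ∑ p, T p q • a p) (γ : (Fin (n + 1) → Fin r') → F)
    (I : Fin n → Fin r) :
    ∑ p, a p * psh T γ (Fin.cons p I) =
      psh T (fun I' => ∑ q, ζ * a' q * γ (Fin.cons q I')) I := by
  have h1 : ∀ p, a p * psh T γ (Fin.cons p I) =
      ∑ I' : Fin n → Fin r', ∑ q,
        (∏ l, T (I l) (I' l)) • ((T p q • a p) * γ (Fin.cons q I')) := by
    intro p
    unfold psh
    rw [pr3_sum_cons, Finset.sum_comm, Finset.mul_sum]
    refine Finset.sum_congr rfl fun I' _ => ?_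
    rw [Finset.mul_sum]
    refine Finset.sum_congr rfl fun q _ => ?_
    rw [Fin.prod_univ_succ]
    simp only [Fin.cons_zero, Fin.cons_succ]
    rw [mul_smul_comm, smul_mul_assoc, smul_smul, mul_comm (T p q)]
  rw [Finset.sum_congr rfl fun p _ => h1 p, Finset.sum_comm]
  unfold psh
  refine Finset.sum_congr rfl fun I' _ => ?_
  rw [Finset.sum_comm, Finset.smul_sum]
  refine Finset.sum_congr rfl fun q _ => ?_
  rw [hT, ← Finset.smul_sum, Finset.sum_mul]

end

variable {k F : Type} [Field k] [IsAlgClosed k] [CharZero k] [Field F] [Algebra k F]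

private theorem pr3_poles_nonneg (z : F) : 0 ≤ poles k z := le_sup_right

private theorem pr3_z_mem (hF : IsCurve k F) {z : F} (hz : ∀ c : k, z ≠ algebraMap k F c) :
    z ∈ L (poles k z) := by
  have hz0 : z ≠ 0 := by
    intro h
    exact hz 0 (by rw [map_zero]; exact h)
  rw [mem_L_of_ne hz0]
  intro P
  have h1 : poles k z P = max (-P.ord z) 0 := by
    show ((-dv k z) ⊔ 0) P = _
    rw [Finsupp.sup_apply, Finsupp.neg_apply, hF.dv_apply hz0]
    rfl
  rw [h1]
  have h2 := le_max_left (-P.ord z) 0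
  omega

/-- **PR3.**  Proof.  Let `u + m = p` and `g` as in `GX`, `i = m ≤ p`.  Take a basis `a'` of
`L (A - poles k z)` (`finDim`).  `exists_split` (with the roles: `i = m` first indices, `u` second
indices) gives `b`, `T`, `c' j`; the hypothesis gives `c' j = ∑ q, a' q * g' j (cons q ·) · +
∑ l, w l * f' j · (cons l ·)`.  Then
`G I J = ∑ j, psh (T j) (fun I' => g' j I' J) I` (`m + 1` first indices, values in `L W`) and
`Φ I J = ∑ j, psh (T j) (fun I' => (z - b j) * f' j I' J) I` (values in `L A`) do it: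
`∑ p, a p * psh (T j) γ (cons p I) = psh (T j) (fun I' => ∑ q, (z - b j) * a' q * γ (cons q I')) I`
(`∑ p, T j p q • a p = (z - b j) * a' q`, the sum over `Fin (m + 1) → Fin r'` is a double sum:
`Fin.consEquiv` or `Fin.insertNthEquiv`).  `psh` preserves `Alt` (`Alt2`), and by the same identity
`Φ` is a cycle. -/
theorem XA.step (hF : IsCurve k F) {a₀ : ℤ} (ha : IsGood k F a₀) {z : F}
    (hz : ∀ c : k, z ≠ algebraMap k F c) {A W : Dv k F} {s : ℕ} {w : Fin s → F} {p : ℕ}
    (hA : ((p : ℤ) + 3) * deg (poles k z) + (p + 2) * a₀ + |deg W| ≤ deg A)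
    (h : XA (A - poles k z) W w p) : XA A W w p := by
  intro r a m u hup g hg hgL hgc
  have hmp : (m : ℤ) ≤ p := by
    rw [← hup]
    push_cast
    omega
  have hA' : ((m : ℤ) + 3) * deg (poles k z) + (m + 2) * a₀ + |deg W| ≤ deg A := by
    have h1 := hF.deg_poles_pos hz
    have h2 := ha.pos
    nlinarith
  have hfd := hF.finDim (A - poles k z)
  obtain ⟨r', a'⟩ : ∃ r' : ℕ, Nonempty (Module.Basis (Fin r') k (L (A - poles k z))) :=
    ⟨_, ⟨Module.finBasis k (L (A - poles k z))⟩⟩
  obtain ⟨a'⟩ := a'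
  obtain ⟨b, T, c', hT, hc'1, hc'2, hc'3, hc'4⟩ :=
    exists_split hF ha hz hA' a a' g hg hgL hgc
  have hh : ∀ j, ∃ (g' : (Fin (m + 1) → Fin r') → (Fin u → Fin s) → F)
      (f' : (Fin m → Fin r') → (Fin (u + 1) → Fin s) → F),
        Alt2 g' ∧ Alt2 f' ∧ (∀ I J, g' I J ∈ L W) ∧ (∀ I J, f' I J ∈ L (A - poles k z)) ∧
          (∀ J, IsCyc (fun q => (a' q : F)) fun I => f' I J) ∧
            ∀ I J, c' j I J = ∑ q, (a' q : F) * g' (Fin.cons q I) J +
              ∑ l, w l * f' I (Fin.cons l J) :=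
    fun j => h r' a' m u hup (c' j) (hc'1 j) (hc'2 j) (hc'3 j)
  choose g' f' hg'1 hf'1 hg'2 hf'2 hf'3 hdec using hh
  have hζ : ∀ j, z - algebraMap k F (b j) ∈ L (poles k z) := by
    intro j
    refine Submodule.sub_mem _ (pr3_z_mem hF hz) ?_
    rw [Algebra.algebraMap_eq_smul_one]
    exact Submodule.smul_mem _ _ (one_mem_L (pr3_poles_nonneg z))
  have hζL : ∀ j (x : F), x ∈ L (A - poles k z) → (z - algebraMap k F (b j)) * x ∈ L A := by
    intro j x hx
    have h1 := mul_mem_L (hζ j) hx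
    rwa [add_sub_cancel] at h1
  refine ⟨fun I J => ∑ j, psh (T j) (fun I' => g' j I' J) I,
    fun I J => ∑ j, psh (T j) (fun I' => (z - algebraMap k F (b j)) * f' j I' J) I,
    ⟨?_, ?_⟩, ⟨?_, ?_⟩, ?_, ?_, ?_, ?_⟩
  · intro J
    exact alt_sum fun j _ => pr3_psh_alt ((hg'1 j).1 J)
  · intro I
    refine alt_sum fun j _ => ?_
    intro σ J
    show psh (T j) (fun I' => g' j I' (J ∘ σ)) I = _
    have h1 : (fun I' => g' j I' (J ∘ σ)) = fun I' =>
        (((Equiv.Perm.sign σ : ℤˣ) : ℤ) : F) * g' j I' J := by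
      funext I'
      rw [(hg'1 j).2 I' σ J, zsmul_eq_mul]
    rw [h1, pr3_psh_mul, zsmul_eq_mul]
  · intro J
    exact alt_sum fun j _ => pr3_psh_alt (alt_mul ((hf'1 j).1 J) _)
  · intro I
    refine alt_sum fun j _ => ?_
    intro σ J
    show psh (T j) (fun I' => (z - algebraMap k F (b j)) * f' j I' (J ∘ σ)) I = _
    have h1 : (fun I' => (z - algebraMap k F (b j)) * f' j I' (J ∘ σ)) = fun I' =>
        (((Equiv.Perm.sign σ : ℤˣ) : ℤ) : F) *
          ((z - algebraMap k F (b j)) * f' j I' J) := by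
      funext I'
      rw [(hf'1 j).2 I' σ J, zsmul_eq_mul]
      ring
    rw [h1, pr3_psh_mul, zsmul_eq_mul]
  · intro I J
    exact Submodule.sum_mem _ fun j _ => pr3_psh_mem (fun I' => hg'2 j I' J) I
  · intro I J
    exact Submodule.sum_mem _ fun j _ => pr3_psh_mem (fun I' => hζL j _ (hf'2 j I' J)) I
  · intro J
    rcases m with _ | m
    · trivial
    · intro I
      show ∑ p, (a p : F) * ∑ j, psh (T j)
        (fun I' => (z - algebraMap k F (b j)) * f' j I' J) (Fin.cons p I) = 0
      rw [Finset.sum_congr rfl fun p _ => Finset.mul_sum _ _ _, Finset.sum_comm]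
      refine Finset.sum_eq_zero fun j _ => ?_
      rw [pr3_key (hT j)]
      have h1 : (fun I' : Fin m → Fin r' => ∑ q, (z - algebraMap k F (b j)) * (a' q : F) *
          ((z - algebraMap k F (b j)) * f' j (Fin.cons q I') J)) = fun _ => 0 := by
        funext I'
        have h2 : ∑ q, (a' q : F) * f' j (Fin.cons q I') J = 0 := hf'3 j J I'
        have h3 : ∑ q, (z - algebraMap k F (b j)) * (a' q : F) *
            ((z - algebraMap k F (b j)) * f' j (Fin.cons q I') J) =
            (z - algebraMap k F (b j)) ^ 2 * ∑ q, (a' q : F) * f' j (Fin.cons q I') J := by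
          rw [Finset.mul_sum]
          refine Finset.sum_congr rfl fun q _ => ?_
          ring
        rw [h3, h2, mul_zero]
      rw [h1, pr3_psh_zero]
  · intro I J
    show g I J = ∑ p, (a p : F) * (∑ j, psh (T j) (fun I' => g' j I' J) (Fin.cons p I)) +
      ∑ l, w l * ∑ j, psh (T j)
        (fun I' => (z - algebraMap k F (b j)) * f' j I' (Fin.cons l J)) I
    rw [hc'4, Finset.sum_congr rfl fun p _ => Finset.mul_sum _ _ _, Finset.sum_comm,
      Finset.sum_congr (s₂ := Finset.univ) (f := fun l => w l * _) rfl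
        fun l _ => Finset.mul_sum _ _ _,
      Finset.sum_comm (s := Finset.univ (α := Fin s)), ← Finset.sum_add_distrib]
    refine Finset.sum_congr rfl fun j _ => ?_
    rw [pr3_key (hT j)]
    have h1 : ∀ l, w l * psh (T j)
        (fun I' => (z - algebraMap k F (b j)) * f' j I' (Fin.cons l J)) I =
        psh (T j) (fun I' => w l * ((z - algebraMap k F (b j)) * f' j I' (Fin.cons l J))) I :=
      fun l => (pr3_psh_mul _ _ _).symm
    rw [Finset.sum_congr rfl fun l _ => h1 l, ← pr3_psh_sum, ← pr3_psh_add]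
    refine congrArg (fun c => psh (T j) c I) (funext fun I' => ?_)
    rw [hdec, mul_add, Finset.mul_sum, Finset.mul_sum]
    refine congrArg₂ (· + ·) (Finset.sum_congr rfl fun q _ => ?_)
      (Finset.sum_congr rfl fun l _ => ?_)
    · ring
    · ring

end Pool.Agent.MPd118f9
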