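import Pool.Agent.Lib.MP_d118f9_ag_G.U.UQ

/-!
# MP_d118f9_ag, block ST2 (uniformity): the ultrapower of `k` is algebraically closed
-/

set_option autoImplicit false

noncomputable section

open Classical

namespace Pool.Agent.MPd118f9

section

variable {k : Type} [Field k] {U : Ultrafilter ℕ}

/-- Proof.  If `(m : UK k U) = (m' : UK k U)` then (`map_natCast (UK.mk k U)`, `UK.mk_eq_iff`)
`(m : k) = (m' : k)` for almost all `n`, so for some `n`. -/
instance UK.charZero [CharZero k] : CharZero (UK k U) := by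
  refine ⟨fun m m' h => ?_⟩
  rw [← map_natCast (UK.mk k U) m, ← map_natCast (UK.mk k U) m', UK.mk_eq_iff] at h
  obtain ⟨n, hn⟩ := h.exists
  exact Nat.cast_injective (R := k) hn

/-- Proof.  `IsAlgClosed.of_exists_root`: let `p` be monic and irreducible over `UK k U`, of degree
`d ≥ 1`.  Choose `c : ℕ → ℕ → k` with `p.coeff i = UK.mk k U (c i)` (`UK.mk_surjective`), `c d = 1`,
and let `p' n = X ^ d + ∑ i ∈ range d, C (c i n) X ^ i`, monic of degree `d ≥ 1`, so there is a root
`r n : k`.  Then `UK.mk k U r` is a root of `p`: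
`p.eval (UK.mk r) = UK.mk (fun n => (p' n).eval (r n))`
(write `p = X ^ d + ∑ i ∈ range d, C (p.coeff i) X ^ i`, `UK.mk` is a ring homomorphism). -/
instance UK.isAlgClosed [IsAlgClosed k] : IsAlgClosed (UK k U) := by
  refine IsAlgClosed.of_exists_root _ fun p hp hirr => ?_
  have hl : p ∈ Polynomial.lifts (UK.mk k U) :=
    (Polynomial.mem_lifts _).2 (Polynomial.map_surjective _ UK.mk_surjective p)
  obtain ⟨P, hP, hdeg, hmon⟩ := Polynomial.lifts_and_natDegree_eq_and_monic hl hp
  have hroot : ∀ n : ℕ, ∃ r : k, (P.map (Pi.evalRingHom (fun _ : ℕ => k) n)).eval r = 0 := by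
    intro n
    have h1 : (P.map (Pi.evalRingHom (fun _ : ℕ => k) n)).natDegree = P.natDegree :=
      hmon.natDegree_map _
    refine IsAlgClosed.exists_root _ fun h2 => ?_
    have h3 : (P.map (Pi.evalRingHom (fun _ : ℕ => k) n)).natDegree = 0 :=
      Polynomial.natDegree_eq_of_degree_eq_some h2
    have h4 := hirr.natDegree_pos
    rw [h1, hdeg] at h3
    omega
  choose r hr using hroot
  refine ⟨UK.mk k U r, ?_⟩
  rw [← hP, Polynomial.eval_map, Polynomial.eval₂_at_apply]
  have h5 : P.eval r = 0 := by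
    funext n
    have h6 := hr n
    rw [Polynomial.eval_map] at h6
    have h7 : Polynomial.eval₂ (Pi.evalRingHom (fun _ : ℕ => k) n)
        (Pi.evalRingHom (fun _ : ℕ => k) n r) P = Pi.evalRingHom (fun _ : ℕ => k) n (P.eval r) :=
      Polynomial.eval₂_at_apply _ _
    exact h7.symm.trans h6
  rw [h5, map_zero]

end

end Pool.Agent.MPd118f9
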