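import Pool.Agent.Lib.MP_d118f9_ag_G.U.UF

/-!
# MP_d118f9_ag, block ST2 (uniformity): facts on bounded sequences
-/

set_option autoImplicit false

noncomputable section

open Classical

namespace Pool.Agent.MPd118f9

section

variable {U : Ultrafilter ℕ}

/-- Pigeonhole for ultrafilters (`Ultrafilter.finite_biUnion_mem_iff` or induction). -/
theorem eventually_exists_finite {ι : Type} [Finite ι] {p : ℕ → ι → Prop}
    (h : ∀ᶠ n in (U : Filter ℕ), ∃ i, p n i) : ∃ i, ∀ᶠ n in (U : Filter ℕ), p n i := by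
  by_contra hc
  have h1 : ∀ i, ∀ᶠ n in (U : Filter ℕ), ¬ p n i := fun i =>
    Ultrafilter.eventually_not.2 fun h' => hc ⟨i, h'⟩
  have h2 : ∀ᶠ n in (U : Filter ℕ), ∀ i, ¬ p n i := Filter.eventually_all.2 h1
  obtain ⟨n, ⟨i, hi⟩, hn⟩ := (h.and h2).exists
  exact hn i hi

/-- A bounded sequence of integers is constant almost everywhere (pigeonhole with the finite type
of the elements of `Finset.Icc (-B) B`). -/
theorem eventually_const {B : ℤ} {f : ℕ → ℤ} (h : ∀ᶠ n in (U : Filter ℕ), |f n| ≤ B) :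
    ∃ m : ℤ, ∀ᶠ n in (U : Filter ℕ), f n = m := by
  have h1 : ∀ᶠ n in (U : Filter ℕ), ∃ i : {m : ℤ // m ∈ Finset.Icc (-B) B}, f n = i :=
    h.mono fun n hn => ⟨⟨f n, Finset.mem_Icc.2 (abs_le.1 hn)⟩, rfl⟩
  obtain ⟨i, hi⟩ := eventually_exists_finite h1
  exact ⟨i, hi⟩

variable {k : Type} [Field k] {F : ℕ → Type} [∀ n, Field (F n)] [∀ n, Algebra k (F n)]

theorem mem_bdS_of_L {f : ∀ n, F n} {D : ∀ n, Dv k (F n)} {B : ℤ}
    (h : ∀ᶠ n in (U : Filter ℕ), 0 ≤ D n ∧ deg (D n) ≤ B ∧ f n ∈ L (D n)) : f ∈ bdS k F U :=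
  ⟨B, h.mono fun n hn => ⟨D n, hn⟩⟩

variable [IsAlgClosed k] [CharZero k]

private theorem UBd_dv_zero {K : Type} [Field K] [Algebra k K] : dv k (0 : K) = 0 := by
  unfold dv
  split_ifs with h
  · ext P
    rw [Finsupp.onFinset_apply]
    exact MP9a7843.ord_zero
  · rfl

private theorem UBd_poles_le {K : Type} [Field K] [Algebra k K] (hK : IsCurve k K) {f : K}
    {D : Dv k K} (hD : 0 ≤ D) (hf : f ∈ L D) : poles k f ≤ D := by
  unfold poles
  refine sup_le ?_ hD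
  by_cases h0 : f = 0
  · rw [h0, UBd_dv_zero, neg_zero]
    exact hD
  · intro P
    have h1 := (mem_L_of_ne h0).1 hf P
    rw [Finsupp.neg_apply, hK.dv_apply h0]
    linarith

private theorem UBd_le_deg {K : Type} [Field K] [Algebra k K] {D : Dv k K} (hD : 0 ≤ D)
    (P : Pt k K) : D P ≤ deg D := by
  have h1 : Finsupp.single P (D P) ≤ D := by
    intro Q
    by_cases h : P = Q
    · subst h
      rw [Finsupp.single_eq_same]
    · rw [Finsupp.single_apply, if_neg h]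
      exact hD Q
  have h2 := deg_mono h1
  have h3 : deg (Finsupp.single P (D P)) = D P := by
    unfold deg
    exact Finsupp.sum_single_index rfl
  rwa [h3] at h2

/-- Proof.  Let `f n ∈ L D`, `D ≥ 0`, `deg D ≤ B`, `f n ≠ 0`.  Then `poles k (f n) ≤ D`: at `P` the
pole order is `max (-P.ord (f n)) 0 ≤ D P` (`(hF n).dv_apply`, `mem_L_of_ne`).  `deg_mono`.  For
`f n = 0` (more generally for constants) `poles` is `0`. -/
theorem bdS_poles (hF : ∀ n, IsCurve k (F n)) (f : bdS k F U) :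
    ∃ B : ℤ, ∀ᶠ n in (U : Filter ℕ), deg (poles k (uev _ n f)) ≤ B := by
  obtain ⟨B, hB⟩ := f.2
  refine ⟨B, ?_⟩
  filter_upwards [hB] with n h1
  obtain ⟨D, hD, hDB, hf⟩ := h1
  exact (deg_mono (UBd_poles_le (hF n) hD hf)).trans hDB

private theorem UBd_neg_ord (f : bdS k F U) :
    ∃ B : ℤ, ∀ᶠ n in (U : Filter ℕ), ∀ P : Pt k (F n), -P.ord (uev _ n f) ≤ B := by
  obtain ⟨B, hB⟩ := f.2
  refine ⟨B, ?_⟩
  filter_upwards [hB] with n h1
  obtain ⟨D, hD, hDB, hf⟩ := h1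
  intro P
  have h2 := (UBd_le_deg hD P).trans hDB
  by_cases h0 : uev (bdS k F U) n f = 0
  · have h3 : P.ord (0 : F n) = 0 := MP9a7843.ord_zero
    have h4 : (0 : ℤ) ≤ D P := hD P
    rw [h0, h3, neg_zero]
    exact h4.trans h2
  · have h3 : -D P ≤ P.ord (uev (bdS k F U) n f) := (mem_L_of_ne h0).1 hf P
    linarith

/-- Proof.  As in `bdS_poles`, `-P.ord (f n) ≤ D P ≤ deg D ≤ B` (`D ≥ 0`, so `D P ≤ deg D`: compare
with `Finsupp.single P (D P)`, `deg_mono`).  Apply this also to `UF.inv hF f`. -/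
theorem bdS_ord (hF : ∀ n, IsCurve k (F n)) (f : bdS k F U) :
    ∃ B : ℤ, ∀ᶠ n in (U : Filter ℕ), ∀ P : Pt k (F n), |P.ord (uev _ n f)| ≤ B := by
  obtain ⟨B, hB⟩ := UBd_neg_ord f
  obtain ⟨C, hC⟩ := UBd_neg_ord (UF.inv hF f)
  refine ⟨max B C, ?_⟩
  filter_upwards [hB, hC] with n h1 h2
  intro P
  have h3 := h1 P
  have h4 := h2 P
  rw [uev_UFinv, P.ord_inv, neg_neg] at h4
  exact abs_le.2 ⟨by linarith [le_max_left B C], h4.trans (le_max_right B C)⟩

end

end Pool.Agent.MPd118f9
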