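import Pool.Agent.Lib.MP_d118f9_ag_G.U.UAlg
import Pool.Agent.Lib.MP_d118f9_ag_G.U.UBd
import Pool.Agent.Lib.MP_d118f9_ag_G.U.UZ

/-!
# MP_d118f9_ag, block ST2 (uniformity): the ultraproduct is a curve (U3)
-/

set_option autoImplicit false

noncomputable section

open Classical

namespace Pool.Agent.MPd118f9

section Aux

variable {k F : Type} [Field k] [IsAlgClosed k] [CharZero k] [Field F] [Algebra k F]

omit [IsAlgClosed k] [CharZero k] in
private theorem ufin_poles_nonneg (z : F) : 0 ≤ poles k z := le_sup_right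

private theorem ufin_mem_poles (hF : IsCurve k F) {z : F} (hz : z ≠ 0) : z ∈ L (poles k z) := by
  rw [mem_L_of_ne hz]
  intro P
  have h1 : poles k z P = max (-P.ord z) 0 := by
    change ((-dv k z) ⊔ 0) P = _
    rw [Finsupp.sup_apply, Finsupp.neg_apply, hF.dv_apply hz]
    rfl
  rw [h1]
  have h2 := le_max_left (-P.ord z) 0
  omega

omit [IsAlgClosed k] [CharZero k] in
private theorem ufin_pow_mem {D : Dv k F} {z : F} (hz : z ∈ L D) (i : ℕ) :
    z ^ i ∈ L (i • D) := by
  induction i with
  | zero =>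
    rw [pow_zero, zero_nsmul]
    exact one_mem_L le_rfl
  | succ i ih =>
    rw [pow_succ, succ_nsmul]
    exact mul_mem_L ih hz

/-- The linear dependence in one curve. -/
private theorem ufin_dep (hF : IsCurve k F) {z : F} (hz : ∀ c : k, z ≠ algebraMap k F c)
    {e B : ℕ} (he : deg (poles k z) ≤ e) {f : Fin (e + 1) → F} {D : Dv k F} (hD : 0 ≤ D)
    (hB : deg D ≤ B) (hf : ∀ j, f j ∈ L D) :
    ∃ c : Fin (B + 1) × Fin (e + 1) → k, (∃ ij, c ij ≠ 0) ∧
      ∑ j, (∑ i : Fin (B + 1), algebraMap k F (c (i, j)) * z ^ (i : ℕ)) * f j = 0 := by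
  have hz0 : z ≠ 0 := by
    intro h
    exact hz 0 (by rw [map_zero]; exact h)
  have he1 : 1 ≤ e := by
    have h1 := hF.deg_poles_pos hz
    omega
  have hfin := hF.finDim (B • poles k z + D)
  have hmem : ∀ ij : Fin (B + 1) × Fin (e + 1),
      z ^ (ij.1 : ℕ) * f ij.2 ∈ L (B • poles k z + D) := by
    intro ij
    refine mul_mem_L (L_mono ?_ (ufin_pow_mem (ufin_mem_poles hF hz0) _)) (hf _)
    exact nsmul_le_nsmul_left (ufin_poles_nonneg z) (by omega)
  have hdim : ell (B • poles k z + D) < (B + 1) * (e + 1) := by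
    have h0 : (0 : Dv k F) ≤ B • poles k z + D :=
      add_nonneg (nsmul_nonneg (ufin_poles_nonneg z) _) hD
    have h1 := hF.ell_le_add h0
    rw [hF.ell_zero, deg_zero, deg_add, deg_nsmul] at h1
    have h2 : (B : ℤ) * deg (poles k z) ≤ B * e :=
      mul_le_mul_of_nonneg_left he (Int.natCast_nonneg _)
    have h3 : ((ell (B • poles k z + D) : ℕ) : ℤ) < (((B + 1) * (e + 1) : ℕ) : ℤ) := by
      push_cast at h1 ⊢
      have h4 : ((B : ℤ) + 1) * (e + 1) = B * e + B + e + 1 := by ring
      rw [h4]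
      have h5 : (1 : ℤ) ≤ e := by exact_mod_cast he1
      linarith
    exact_mod_cast h3
  let g : Fin (B + 1) × Fin (e + 1) → L (B • poles k z + D) := fun ij => ⟨_, hmem ij⟩
  have hdep : ¬ LinearIndependent k g := by
    intro hg
    have h1 := hg.fintype_card_le_finrank
    rw [Fintype.card_prod, Fintype.card_fin, Fintype.card_fin] at h1
    unfold ell at hdim
    omega
  obtain ⟨c, hc, hc0⟩ := Fintype.not_linearIndependent_iff.1 hdep
  refine ⟨c, hc0, ?_⟩
  have h1 := congrArg (fun x : L (B • poles k z + D) => (x : F)) hc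
  simp only [Submodule.coe_sum, Submodule.coe_smul, Submodule.coe_zero, g] at h1
  rw [Fintype.sum_prod_type_right] at h1
  rw [← h1]
  refine Finset.sum_congr rfl fun j _ => ?_
  rw [Finset.sum_mul]
  refine Finset.sum_congr rfl fun i _ => ?_
  rw [Algebra.smul_def, mul_assoc]

end Aux

section

variable {U : Ultrafilter ℕ} {k : Type} [Field k] [IsAlgClosed k] [CharZero k] {F : ℕ → Type}
  [∀ n, Field (F n)] [∀ n, Algebra k (F n)] {hF : ∀ n, IsCurve k (F n)}

/-- Constants.  Proof.  If `UF.mk hF z = algebraMap c`, `c = UK.mk k U c'` (`UK.mk_surjective`),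
then `uev n z = algebraMap k (F n) (c' n)` almost everywhere (`UF.algebraMap_mk`, `UF.mk_eq_iff`).
Conversely choose `c' n` where it exists. -/
theorem UF.ne_algebraMap_iff {z : bdS k F U} :
    (∀ c : UK k U, UF.mk hF z ≠ algebraMap (UK k U) (UF hF U) c) ↔
      ∀ᶠ n in (U : Filter ℕ), ∀ c : k, uev _ n z ≠ algebraMap k (F n) c := by
  have h1 : (∀ᶠ n in (U : Filter ℕ), ∀ c : k, uev _ n z ≠ algebraMap k (F n) c) ↔
      ¬ ∀ᶠ n in (U : Filter ℕ), ∃ c : k, uev _ n z = algebraMap k (F n) c := by
    rw [← Ultrafilter.eventually_not]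
    simp only [not_exists, ne_eq]
  rw [h1, ← not_iff_not, not_not]
  push Not
  constructor
  · rintro ⟨c, hc⟩
    obtain ⟨c', rfl⟩ := UK.mk_surjective c
    rw [UF.algebraMap_mk, UF.mk_eq_iff] at hc
    filter_upwards [hc] with n hn
    exact ⟨c' n, by rw [hn, uev_ucst]⟩
  · intro h
    refine ⟨UK.mk k U fun n => if h : ∃ c : k, uev _ n z = algebraMap k (F n) c
      then h.choose else 0, ?_⟩
    rw [UF.algebraMap_mk, UF.mk_eq_iff]
    filter_upwards [h] with n hn
    rw [uev_ucst, dif_pos hn]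
    exact hn.choose_spec

/-- **U3.**  Proof.  Let `E` be the field generated by `z* = UF.mk hF z`.  By `rank_le` it is enough
that a finite set of elements of `UF`, linearly independent over `E`, has at most `e` elements.
Let `x : Fin (e + 1) → UF` be linearly independent, `x j = UF.mk hF (f j)`.  There is `B : ℕ` such
that for almost all `n` there is `D ≥ 0`, `deg D ≤ B`, with `f j n ∈ L D` for all `j` (add up the
divisors of the `f j`; `mem_bdS`).  The elements `z n ^ i * f j n`, `i : Fin (B + 1)`,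
`j : Fin (e + 1)`, are in `L (B • poles k (z n) + D)`, whose dimension is at most
`B e + B + 1 < (B + 1) (e + 1)` (`ell_le_add` or the like: `ell D ≤ deg D + 1` for `D ≥ 0`), so they
are linearly dependent over `k`: choose `c n : Fin (B + 1) × Fin (e + 1) → k`, not `0`, with
`∑ ij, c n ij • (z n ^ i * f j n) = 0`.  By `eventually_exists_finite` some `c n ij` is not `0`
almost everywhere, so `UK.mk k U (fun n => c n ij) ≠ 0`, and `∑ j, q j * x j = 0` with
`q j = ∑ i, algebraMap (UK.mk (fun n => c n (i, j))) * z* ^ i ∈ E`.  By independence all `q j = 0`;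
`z*` is transcendental over `UK k U` (`transcendental_of_ne`, `UF.ne_algebraMap_iff`), so all the
coefficients are `0`, a contradiction. -/
theorem UF.finrank_le {z : bdS k F U} {e : ℕ}
    (hz : ∀ᶠ n in (U : Filter ℕ), ∀ c : k, uev _ n z ≠ algebraMap k (F n) c)
    (he : ∀ᶠ n in (U : Filter ℕ), deg (poles k (uev _ n z)) ≤ e) :
    FiniteDimensional (IntermediateField.adjoin (UK k U) {UF.mk hF z}) (UF hF U) ∧
      Module.finrank (IntermediateField.adjoin (UK k U) {UF.mk hF z}) (UF hF U) ≤ e := by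
  have hdep : ∀ x : Fin (e + 1) → UF hF U,
      ¬ LinearIndependent (IntermediateField.adjoin (UK k U) {UF.mk hF z}) x := by
    intro x hx
    choose f hf using fun j => UF.mk_surjective (x j)
    have hb : ∃ B : ℕ, ∀ᶠ n in (U : Filter ℕ), ∃ D : Dv k (F n), 0 ≤ D ∧ deg D ≤ B ∧
        ∀ j, uev _ n (f j) ∈ L D := by
      choose B hB using fun j => (mem_bdS U).1 (f j).2
      refine ⟨(∑ j, |B j|).toNat, ?_⟩
      have hall : ∀ᶠ n in (U : Filter ℕ), ∀ j, ∃ D : Dv k (F n), 0 ≤ D ∧ deg D ≤ B j ∧
          (f j : ∀ n, F n) n ∈ L D := Filter.eventually_all.2 hB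
      filter_upwards [hall] with n hn
      choose D hD hDB hfD using hn
      refine ⟨∑ j, D j, Finset.sum_nonneg fun j _ => hD j, ?_, fun j => ?_⟩
      · have h1 : deg (∑ j, D j) = ∑ j, deg (D j) := by
          induction (Finset.univ : Finset (Fin (e + 1))) using Finset.induction_on with
          | empty => rw [Finset.sum_empty, Finset.sum_empty, deg_zero]
          | insert a s ha ih => rw [Finset.sum_insert ha, Finset.sum_insert ha, deg_add, ih]
        rw [h1]
        refine le_trans (Finset.sum_le_sum fun j _ => (hDB j).trans (le_abs_self _)) ?_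
        exact Int.self_le_toNat _
      · refine L_mono ?_ (hfD j)
        exact Finset.single_le_sum (f := D) (fun i _ => hD i) (Finset.mem_univ j)
    obtain ⟨B, hB⟩ := hb
    have hc : ∀ᶠ n in (U : Filter ℕ), ∃ c : Fin (B + 1) × Fin (e + 1) → k,
        (∃ ij, c ij ≠ 0) ∧ ∑ j, (∑ i : Fin (B + 1),
          algebraMap k (F n) (c (i, j)) * (uev _ n z) ^ (i : ℕ)) * uev _ n (f j) = 0 := by
      filter_upwards [hz, he, hB] with n h1 h2 h3
      obtain ⟨D, hD, hDB, hfD⟩ := h3
      exact ufin_dep (hF n) h1 h2 hD hDB hfD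
    let c : ℕ → Fin (B + 1) × Fin (e + 1) → k := fun n =>
      if h : ∃ c : Fin (B + 1) × Fin (e + 1) → k,
        (∃ ij, c ij ≠ 0) ∧ ∑ j, (∑ i : Fin (B + 1),
          algebraMap k (F n) (c (i, j)) * (uev _ n z) ^ (i : ℕ)) * uev _ n (f j) = 0
      then h.choose else 0
    have hcn : ∀ᶠ n in (U : Filter ℕ), (∃ ij, c n ij ≠ 0) ∧ ∑ j, (∑ i : Fin (B + 1),
          algebraMap k (F n) (c n (i, j)) * (uev _ n z) ^ (i : ℕ)) * uev _ n (f j) = 0 := by
      filter_upwards [hc] with n hn
      have h1 : c n = hn.choose := dif_pos hn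
      rw [h1]
      exact hn.choose_spec
    obtain ⟨⟨i₀, j₀⟩, hij⟩ := eventually_exists_finite (hcn.mono fun n hn => hn.1)
    let C : Fin (B + 1) × Fin (e + 1) → UK k U := fun ij => UK.mk k U fun n => c n ij
    have hC : C (i₀, j₀) ≠ 0 := UK.mk_ne_zero_iff.2 hij
    have hzE : UF.mk hF z ∈ IntermediateField.adjoin (UK k U) {UF.mk hF z} :=
      IntermediateField.mem_adjoin_simple_self _ _
    let zE : IntermediateField.adjoin (UK k U) {UF.mk hF z} := ⟨UF.mk hF z, hzE⟩
    let q : Fin (e + 1) → IntermediateField.adjoin (UK k U) {UF.mk hF z} := fun j =>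
      ∑ i : Fin (B + 1), algebraMap (UK k U) _ (C (i, j)) * zE ^ (i : ℕ)
    have hq : ∀ j, (q j : UF hF U) =
        UF.mk hF (∑ i : Fin (B + 1), ucst k F U (fun n => c n (i, j)) * z ^ (i : ℕ)) := by
      intro j
      have h1 : (q j : UF hF U) = ∑ i : Fin (B + 1),
          algebraMap (UK k U) (UF hF U) (C (i, j)) * (UF.mk hF z) ^ (i : ℕ) := by
        change ((∑ i : Fin (B + 1), algebraMap (UK k U) _ (C (i, j)) * zE ^ (i : ℕ) :
          IntermediateField.adjoin (UK k U) {UF.mk hF z}) : UF hF U) = _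
        rw [AddSubmonoidClass.coe_finsetSum]
        rfl
      rw [h1, map_sum]
      refine Finset.sum_congr rfl fun i _ => ?_
      rw [map_mul, map_pow]
      rfl
    have hsum : ∑ j, q j • x j = 0 := by
      have h1 : ∑ j, q j • x j = UF.mk hF (∑ j,
          (∑ i : Fin (B + 1), ucst k F U (fun n => c n (i, j)) * z ^ (i : ℕ)) * f j) := by
        rw [map_sum]
        refine Finset.sum_congr rfl fun j _ => ?_
        rw [map_mul, ← hq, hf]
        rfl
      rw [h1, UF.mk_eq_zero_iff]
      filter_upwards [hcn] with n hn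
      rw [map_sum, ← hn.2]
      refine Finset.sum_congr rfl fun j _ => ?_
      rw [map_mul, map_sum]
      congr 1
    have hq0 := Fintype.linearIndependent_iff.1 hx q hsum j₀
    have htr : Transcendental (UK k U) (UF.mk hF z) :=
      transcendental_of_ne (UF.ne_algebraMap_iff.2 hz)
    let p : Polynomial (UK k U) := ∑ i : Fin (B + 1),
      Polynomial.C (C (i, j₀)) * Polynomial.X ^ (i : ℕ)
    have hp0 : p = 0 := by
      have h1 : Polynomial.aeval (UF.mk hF z) p = 0 := by
        have h2 : (q j₀ : UF hF U) = 0 := by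
          rw [hq0]
          rfl
        rw [← h2, map_sum]
        have h3 : (q j₀ : UF hF U) = ∑ i : Fin (B + 1),
            algebraMap (UK k U) (UF hF U) (C (i, j₀)) * (UF.mk hF z) ^ (i : ℕ) := by
          change ((∑ i : Fin (B + 1), algebraMap (UK k U) _ (C (i, j₀)) * zE ^ (i : ℕ) :
            IntermediateField.adjoin (UK k U) {UF.mk hF z}) : UF hF U) = _
          rw [AddSubmonoidClass.coe_finsetSum]
          rfl
        rw [h3]
        refine Finset.sum_congr rfl fun i _ => ?_
        rw [map_mul, Polynomial.aeval_C, map_pow, Polynomial.aeval_X]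
      by_contra h2
      exact htr ⟨p, h2, h1⟩
    have hco : p.coeff (i₀ : ℕ) = C (i₀, j₀) := by
      change (∑ i : Fin (B + 1), Polynomial.C (C (i, j₀)) * Polynomial.X ^ (i : ℕ)).coeff i₀ = _
      rw [Polynomial.finsetSum_coeff, Finset.sum_eq_single i₀]
      · rw [Polynomial.coeff_C_mul, Polynomial.coeff_X_pow, if_pos rfl, mul_one]
      · intro i _ hi
        rw [Polynomial.coeff_C_mul, Polynomial.coeff_X_pow, if_neg, mul_zero]
        intro h
        exact hi (Fin.ext h.symm)
      · intro h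
        exact absurd (Finset.mem_univ _) h
    rw [hp0, Polynomial.coeff_zero] at hco
    exact hC hco.symm
  have hrank : Module.rank (IntermediateField.adjoin (UK k U) {UF.mk hF z}) (UF hF U) ≤ e := by
    refine rank_le fun s hs => ?_
    by_contra hcard
    push Not at hcard
    obtain ⟨φ⟩ : Nonempty (Fin (e + 1) ↪ s) := by
      refine Function.Embedding.nonempty_of_card_le ?_
      rw [Fintype.card_fin, Fintype.card_coe]
      omega
    exact hdep _ (hs.comp φ φ.injective)
  have hfd : FiniteDimensional (IntermediateField.adjoin (UK k U) {UF.mk hF z}) (UF hF U) :=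
    Module.rank_lt_aleph0_iff.1 (hrank.trans_lt (Cardinal.natCast_lt_aleph0))
  exact ⟨hfd, Module.finrank_le_of_rank_le hrank⟩

/-- Proof.  Choose points `P n` (`IsCurve.infinite_pt`) and `z n` by `exists_z`; `mem_bdS_of_L`,
`poles_le_of_mem`, `UF.finrank_le`, `transcendental_of_ne`. -/
theorem UF.isCurve {h : ℕ} (hg : ∀ n, genus k (F n) = h) : IsCurve (UK k U) (UF hF U) := by
  choose z hzc hzL using fun n => exists_z (hF n) (nonempty_pt (hF n)).some
  have hdeg : ∀ n, 0 ≤ (Finsupp.single (nonempty_pt (hF n)).some ((genus k (F n) : ℤ) + 1) :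
      Dv k (F n)) := by
    intro n
    exact Finsupp.single_nonneg.2 (by positivity)
  have hmem : z ∈ bdS k F U := by
    refine mem_bdS_of_L (D := fun n =>
      Finsupp.single (nonempty_pt (hF n)).some ((genus k (F n) : ℤ) + 1)) (B := (h : ℤ) + 1)
      (Filter.Eventually.of_forall fun n => ⟨hdeg n, ?_, hzL n⟩)
    rw [deg_single, hg]
  have hz : ∀ᶠ n in (U : Filter ℕ), ∀ c : k,
      uev _ n (⟨z, hmem⟩ : bdS k F U) ≠ algebraMap k (F n) c :=
    Filter.Eventually.of_forall fun n => hzc n
  have he : ∀ᶠ n in (U : Filter ℕ),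
      deg (poles k (uev _ n (⟨z, hmem⟩ : bdS k F U))) ≤ ((h + 1 : ℕ) : ℤ) := by
    refine Filter.Eventually.of_forall fun n => ?_
    have h1 := deg_mono (poles_le_of_mem (hF n) (hdeg n) (hzL n))
    rw [deg_single, hg] at h1
    rw [uev_mk]
    push_cast
    exact h1
  exact ⟨UF.mk hF ⟨z, hmem⟩, transcendental_of_ne (UF.ne_algebraMap_iff.2 hz),
    (UF.finrank_le hz he).1⟩

end

end Pool.Agent.MPd118f9
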