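import Pool.Agent.Lib.MP_d118f9_ag_G.U.UPt
import Pool.Agent.Lib.MP_d118f9_ag_G.U.UFin

/-!
# MP_d118f9_ag, block ST2 (uniformity): all points are internal (U5)
-/

set_option autoImplicit false

noncomputable section

open Classical

namespace Pool.Agent.MPd118f9

section

private theorem UAll_poles {k K : Type} [Field k] [IsAlgClosed k] [CharZero k] [Field K]
    [Algebra k K] (hK : IsCurve k K) {z : K} (hz : z ≠ 0) (P : Pt k K) :
    poles k z P = max (-P.ord z) 0 := by
  unfold poles
  rw [Finsupp.sup_apply, Finsupp.neg_apply, Finsupp.zero_apply, hK.dv_apply hz]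

private theorem UAll_sum {k K : Type} [Field k] [Field K] [Algebra k K] {e : ℕ}
    (P : Fin e → Pt k K) (Q : Pt k K) :
    (∑ i, Finsupp.single (P i) (1 : ℤ)) Q = ((Finset.univ.filter fun i => P i = Q).card : ℤ) := by
  rw [Finsupp.finsetSum_apply, Finset.card_filter]
  push_cast
  exact Finset.sum_congr rfl fun i _ => Finsupp.single_apply

private theorem UAll_deg {k K : Type} [Field k] [Field K] [Algebra k K] (T : Finset (Pt k K))
    (f : Pt k K → ℤ) : deg (∑ q ∈ T, Finsupp.single q (f q)) = ∑ q ∈ T, f q := by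
  induction T using Finset.induction_on with
  | empty => rw [Finset.sum_empty, Finset.sum_empty, deg_zero]
  | insert a s ha ih => rw [Finset.sum_insert ha, Finset.sum_insert ha, deg_add, ih, deg_single]

private theorem UAll_le {k K : Type} [Field k] [Field K] [Algebra k K] (T : Finset (Pt k K))
    {D : Dv k K} (hD : 0 ≤ D) : ∑ q ∈ T, Finsupp.single q (D q) ≤ D := by
  intro R
  rw [Finsupp.finsetSum_apply]
  have h1 : ∀ q ∈ T, (Finsupp.single q (D q)) R = if q = R then D R else 0 := by
    intro q _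
    rw [Finsupp.single_apply]
    split_ifs with h
    · rw [h]
    · rfl
  rw [Finset.sum_congr rfl h1, Finset.sum_ite_eq' T R]
  split_ifs
  · exact le_refl _
  · exact hD R

variable {U : Ultrafilter ℕ} {k : Type} [Field k] [IsAlgClosed k] [CharZero k] {F : ℕ → Type}
  [∀ n, Field (F n)] [∀ n, Algebra k (F n)] {hF : ∀ n, IsCurve k (F n)} {h : ℕ}
  {hg : ∀ n, genus k (F n) = h}

/-- **U5.**  Proof.  Let `v.ord x = 1` (`Pt.exists_unif`), `x = UF.mk hF f`, `y = x⁻¹ = UF.mk hF g`,
`g = UF.inv hF f`.  `y` is not a constant (`P.ord_algebraMap`), so `g n` is not constant almost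
everywhere (`UF.ne_algebraMap_iff`).  `deg (poles k (g n))` is bounded (`bdS_poles`) and `≥ 0`, so
almost everywhere equal to `e : ℕ`, and `poles k (g n) = ∑ i, single (P i n) 1` with
`P i n : Pt k (F n)`, `i : Fin e` (`exists_sum_single`; extend `P i` arbitrarily, using
`IsCurve.infinite_pt`).  Let `Q i = ipt U hF hg (P i)`.  For an internal point `Q = ipt P'`:
`(poles (UK k U) y) Q = max (-Q.ord y) 0 = max (-(P' n).ord (g n)) 0 = (poles k (g n)) (P' n) =
#{i | P i n = P' n} = #{i | Q i = Q}` almost everywhere (`ord_ipt`, `ipt_eq_iff`,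
`eventually_exists_finite` or `Filter.eventually_all`).  So the sum of `(poles y) Q` over the finite
set `T` of the `Q i` is `e` (`Finset.card_eq_sum_card_fiberwise`).  If `v ∉ T` then, as
`(poles y) v ≥ 1`, `deg (poles (UK k U) y) ≥ e + 1` (compare with the divisor
`∑ Q ∈ insert v T, single Q (poles y Q)`, `deg_mono`).  But `deg (poles y) = finrank ≤ e`
(`IsCurve.deg_poles`, `UF.isCurve`, `UF.finrank_le`). -/
theorem UF.exists_eq_ipt (v : Pt (UK k U) (UF hF U)) : ∃ P : ∀ n, Pt k (F n),
    v = ipt U hF hg P := by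
  obtain ⟨x, hx⟩ := v.exists_unif
  have hx0 : x ≠ 0 := by
    rintro rfl
    have h1 : v.ord (0 : UF hF U) = 0 := MP9a7843.ord_zero
    omega
  obtain ⟨f, rfl⟩ := UF.mk_surjective x
  obtain ⟨g, hgf⟩ : ∃ g : bdS k F U, g = UF.inv hF f := ⟨_, rfl⟩
  have hy : UF.mk hF g = (UF.mk hF f)⁻¹ := by rw [hgf, UF.mk_inv]
  have hy0 : UF.mk hF g ≠ 0 := by
    rw [hy]
    exact inv_ne_zero hx0
  have hvy : v.ord (UF.mk hF g) = -1 := by rw [hy, v.ord_inv, hx]
  have hyc : ∀ c : UK k U, UF.mk hF g ≠ algebraMap (UK k U) (UF hF U) c := by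
    intro c hc
    rw [hc, v.ord_algebraMap] at hvy
    omega
  have hyn := UF.ne_algebraMap_iff.1 hyc
  have hg0 := UF.mk_ne_zero_iff.1 hy0
  have hpos : ∀ n, 0 ≤ poles k (uev _ n g) := fun n => le_sup_right
  have hdpos : ∀ n, 0 ≤ deg (poles k (uev _ n g)) := by
    intro n
    have h1 := deg_mono (hpos n)
    rwa [deg_zero] at h1
  obtain ⟨B, hB⟩ := bdS_poles hF g
  obtain ⟨m, hm⟩ := eventually_const (U := U) (B := B)
    (f := fun n => deg (poles k (uev _ n g))) (by
      filter_upwards [hB] with n hn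
      rw [abs_of_nonneg (hdpos n)]
      exact hn)
  obtain ⟨n₀, hn₀⟩ := hm.exists
  obtain ⟨e, he⟩ : ∃ e : ℕ, m = e := by
    have h1 : 0 ≤ m := by
      rw [← hn₀]
      exact hdpos n₀
    exact ⟨m.toNat, (Int.toNat_of_nonneg h1).symm⟩
  rw [he] at hm
  have hch : ∀ n, ∃ P : Fin e → Pt k (F n), deg (poles k (uev _ n g)) = e →
      poles k (uev _ n g) = ∑ i, Finsupp.single (P i) (1 : ℤ) := by
    intro n
    by_cases h1 : deg (poles k (uev _ n g)) = e
    · obtain ⟨P, hP⟩ := exists_sum_single (hpos n) h1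
      exact ⟨P, fun _ => hP⟩
    · have := (hF n).infinite_pt
      exact ⟨fun _ => Classical.arbitrary _, fun h2 => absurd h2 h1⟩
  choose P hP using hch
  obtain ⟨Q, hQ⟩ : ∃ Q : Fin e → Pt (UK k U) (UF hF U),
      Q = fun i => ipt U hF hg (fun n => P n i) := ⟨_, rfl⟩
  have hUF : IsCurve (UK k U) (UF hF U) := UF.isCurve hg
  have key : ∀ i, poles (UK k U) (UF.mk hF g) (Q i) =
      ((Finset.univ.filter fun j => Q j = Q i).card : ℤ) := by
    intro i
    have h1 : ∀ j, ∀ᶠ n in (U : Filter ℕ), (P n j = P n i ↔ Q j = Q i) := by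
      intro j
      by_cases h2 : Q j = Q i
      · have h3 : ∀ᶠ n in (U : Filter ℕ), P n j = P n i := by
          rw [hQ] at h2
          exact ipt_eq_iff.1 h2
        filter_upwards [h3] with n hn
        exact ⟨fun _ => h2, fun _ => hn⟩
      · have h3 : ¬ ∀ᶠ n in (U : Filter ℕ), P n j = P n i := by
          intro h4
          apply h2
          rw [hQ]
          exact ipt_eq_iff.2 h4
        rw [← Ultrafilter.eventually_not] at h3
        filter_upwards [h3] with n hn
        exact ⟨fun h4 => absurd h4 hn, fun h4 => absurd h4 h2⟩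
    have h2 := Filter.eventually_all.2 h1
    have h3 := ord_ipt (U := U) (hF := hF) (hg := hg) (fun n => P n i) g
    obtain ⟨n, h4, h5, h6, h7⟩ := (h2.and (h3.and (hm.and hg0))).exists
    have h8 : (Q i).ord (UF.mk hF g) = (P n i).ord (uev _ n g) := by
      rw [hQ]
      exact h5
    rw [UAll_poles hUF hy0, h8, ← UAll_poles (hF n) h7, hP n h6, UAll_sum]
    have h9 : (Finset.univ.filter fun j => P n j = P n i) =
        Finset.univ.filter fun j => Q j = Q i :=
      Finset.filter_congr fun j _ => h4 j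
    rw [h9]
  by_contra hcon
  push Not at hcon
  have hvT : v ∉ Finset.univ.image Q := by
    intro h1
    obtain ⟨i, _, hi⟩ := Finset.mem_image.1 h1
    refine hcon (fun n => P n i) ?_
    rw [← hi, hQ]
  have hpy : 0 ≤ poles (UK k U) (UF.mk hF g) := le_sup_right
  have h1 := deg_mono (UAll_le (insert v (Finset.univ.image Q)) hpy)
  rw [UAll_deg, Finset.sum_insert hvT, UAll_poles hUF hy0 v, hvy] at h1
  have h2 : ∑ q ∈ Finset.univ.image Q, poles (UK k U) (UF.mk hF g) q = e := by
    have h3 : ∀ q ∈ Finset.univ.image Q, poles (UK k U) (UF.mk hF g) q =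
        ((Finset.univ.filter fun j => Q j = q).card : ℤ) := by
      intro q hq
      obtain ⟨i, _, rfl⟩ := Finset.mem_image.1 hq
      exact key i
    rw [Finset.sum_congr rfl h3]
    have h4 := Finset.card_eq_sum_card_image Q Finset.univ
    rw [Finset.card_univ, Fintype.card_fin] at h4
    exact_mod_cast h4.symm
  rw [h2, hUF.deg_poles hyc] at h1
  have h5 := (UF.finrank_le (hF := hF) (z := g) (e := e) hyn (by
    filter_upwards [hm] with n hn
    exact hn.le)).2
  have h6 : ((Module.finrank (IntermediateField.adjoin (UK k U) {UF.mk hF g}) (UF hF U) : ℕ) : ℤ)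
      ≤ e := by exact_mod_cast h5
  have h7 : max (-(-1 : ℤ)) 0 = 1 := by norm_num
  rw [h7] at h1
  omega

end

end Pool.Agent.MPd118f9
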