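import Pool.Agent.Lib.MP_d118f9_ag_G.U.UAll

/-!
# MP_d118f9_ag, block ST2 (uniformity): divisors (U6)
-/

set_option autoImplicit false

noncomputable section

open Classical

namespace Pool.Agent.MPd118f9

section

variable {U : Ultrafilter ℕ} {k : Type} [Field k] [IsAlgClosed k] [CharZero k] {F : ℕ → Type}
  [∀ n, Field (F n)] [∀ n, Algebra k (F n)] {hF : ∀ n, IsCurve k (F n)} {h : ℕ}
  {hg : ∀ n, genus k (F n) = h}

/-- The divisor `Ds` of the ultraproduct is the limit of the divisors `D n`. -/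
def TrD (hg : ∀ n, genus k (F n) = h) (Ds : Dv (UK k U) (UF hF U)) (D : ∀ n, Dv k (F n)) : Prop :=
  ∀ P : ∀ n, Pt k (F n), ∀ᶠ n in (U : Filter ℕ), Ds (ipt U hF hg P) = D n (P n)

private theorem udv_deg_sum {k F : Type} [Field k] [Field F] [Algebra k F] {e : ℕ}
    (P : Fin e → Pt k F) (m : Fin e → ℤ) :
    Pool.Agent.MPd118f9.deg (∑ i, Finsupp.single (P i) (m i) : Dv k F) = ∑ i, m i := by
  have key : ∀ t : Finset (Fin e),
      Pool.Agent.MPd118f9.deg (∑ i ∈ t, Finsupp.single (P i) (m i) : Dv k F) = ∑ i ∈ t, m i := by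
    intro t
    induction t using Finset.induction_on with
    | empty => simp [deg_zero]
    | insert a t ha ih => rw [Finset.sum_insert ha, Finset.sum_insert ha, deg_add, ih, deg_single]
  exact key _

theorem TrD.add {Ds Ds' : Dv (UK k U) (UF hF U)} {D D' : ∀ n, Dv k (F n)} (h1 : TrD hg Ds D)
    (h2 : TrD hg Ds' D') : TrD hg (Ds + Ds') fun n => D n + D' n := by
  intro P
  filter_upwards [h1 P, h2 P] with n ha hb
  rw [Finsupp.add_apply, Finsupp.add_apply, ha, hb]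

/-- Proof.  For a point: `single (ipt P) 1` and `single (P n) 1` (`ipt_eq_iff`).  Sums: `TrD.add`,
induction. -/
theorem TrD.sum_single {e : ℕ} (m : Fin e → ℤ) (P : Fin e → ∀ n, Pt k (F n)) :
    TrD hg (∑ i, Finsupp.single (ipt U hF hg (P i)) (m i))
      fun n => ∑ i, Finsupp.single (P i n) (m i) := by
  intro P'
  have h1 : ∀ i, ∀ᶠ n in (U : Filter ℕ),
      (Finsupp.single (ipt U hF hg (P i)) (m i) : Dv (UK k U) (UF hF U)) (ipt U hF hg P') =
        (Finsupp.single (P i n) (m i) : Dv k (F n)) (P' n) := by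
    intro i
    by_cases h2 : ipt U hF hg (P i) = ipt U hF hg P'
    · have h3 := ipt_eq_iff.1 h2
      filter_upwards [h3] with n hn
      rw [h2, hn, Finsupp.single_eq_same, Finsupp.single_eq_same]
    · have h3 : ∀ᶠ n in (U : Filter ℕ), ¬ P i n = P' n := by
        rw [Ultrafilter.eventually_not]
        exact fun h4 => h2 (ipt_eq_iff.2 h4)
      filter_upwards [h3] with n hn
      rw [Finsupp.single_eq_of_ne (Ne.symm h2), Finsupp.single_eq_of_ne (Ne.symm hn)]
  filter_upwards [Filter.eventually_all.2 h1] with n hn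
  rw [Finsupp.finsetSum_apply, Finsupp.finsetSum_apply]
  exact Finset.sum_congr rfl fun i _ => hn i

/-- Every divisor `Ds` is a sum as in `TrD.sum_single` with different internal points (its support,
`UF.exists_eq_ipt`), `m i = Ds (Q i)`. -/
theorem exists_eq_sum_ipt (hg : ∀ n, genus k (F n) = h) (Ds : Dv (UK k U) (UF hF U)) :
    ∃ (e : ℕ) (m : Fin e → ℤ) (P : Fin e → ∀ n, Pt k (F n)),
      Ds = ∑ i, Finsupp.single (ipt U hF hg (P i)) (m i) ∧ (0 ≤ Ds → ∀ i, 0 ≤ m i) := by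
  let Q : Fin Ds.support.card ≃ Ds.support := Ds.support.equivFin.symm
  have h1 : ∀ i, ∃ P : ∀ n, Pt k (F n), (Q i : Pt (UK k U) (UF hF U)) = ipt U hF hg P :=
    fun i => UF.exists_eq_ipt _
  choose P hP using h1
  refine ⟨Ds.support.card, fun i => Ds (Q i), P, ?_, fun h0 i => h0 _⟩
  have h2 : (∑ i, Finsupp.single (ipt U hF hg (P i)) (Ds (Q i)) : Dv (UK k U) (UF hF U)) =
      ∑ x : Ds.support, Finsupp.single (x : Pt (UK k U) (UF hF U)) (Ds x) := by
    rw [← Equiv.sum_comp Q]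
    exact Finset.sum_congr rfl fun i _ => by rw [← hP i]
  rw [h2, Finset.sum_coe_sort Ds.support
    (fun x => (Finsupp.single x (Ds x) : Dv (UK k U) (UF hF U)))]
  exact (Finsupp.sum_single Ds).symm

/-- Two sequences with the same limit are equal almost everywhere.  Proof: otherwise choose points
`P n` with `D n (P n) ≠ D' n (P n)` for almost all `n`. -/
theorem TrD.unique {Ds : Dv (UK k U) (UF hF U)} {D D' : ∀ n, Dv k (F n)} (h1 : TrD hg Ds D)
    (h2 : TrD hg Ds D') : ∀ᶠ n in (U : Filter ℕ), D n = D' n := by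
  by_contra hcon
  rw [← Ultrafilter.eventually_not] at hcon
  have h3 : ∀ n, ∃ P : Pt k (F n), D n ≠ D' n → D n P ≠ D' n P := by
    intro n
    by_cases hn : D n = D' n
    · obtain ⟨P⟩ := nonempty_pt (hF n)
      exact ⟨P, fun h4 => absurd hn h4⟩
    · obtain ⟨P, hP⟩ : ∃ P, D n P ≠ D' n P := by
        by_contra h4
        push Not at h4
        exact hn (Finsupp.ext h4)
      exact ⟨P, fun _ => hP⟩
  choose P hP using h3
  obtain ⟨n, hn, ha, hb⟩ := (hcon.and ((h1 P).and (h2 P))).exists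
  exact hP n hn (ha.symm.trans hb)

private theorem udv_congr {Ds : Dv (UK k U) (UF hF U)} {D D' : ∀ n, Dv k (F n)}
    (h1 : TrD hg Ds D) (h2 : ∀ᶠ n in (U : Filter ℕ), D n = D' n) : TrD hg Ds D' := by
  intro P
  filter_upwards [h1 P, h2] with n ha hb
  rw [ha, hb]

/-- The normal form of a sequence with a limit. -/
private theorem udv_form {Ds : Dv (UK k U) (UF hF U)} {D : ∀ n, Dv k (F n)}
    (h1 : TrD hg Ds D) : ∃ (e : ℕ) (m : Fin e → ℤ) (P : Fin e → ∀ n, Pt k (F n)),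
      Ds = ∑ i, Finsupp.single (ipt U hF hg (P i)) (m i) ∧ (0 ≤ Ds → ∀ i, 0 ≤ m i) ∧
      ∀ᶠ n in (U : Filter ℕ), D n = ∑ i, Finsupp.single (P i n) (m i) := by
  obtain ⟨e, m, P, h2, h3⟩ := exists_eq_sum_ipt hg Ds
  refine ⟨e, m, P, h2, h3, ?_⟩
  rw [h2] at h1
  exact h1.unique (TrD.sum_single m P)

/-- Effective divisors of bounded degree have a limit.  Proof: the degree is almost everywhere
`e : ℕ` (`eventually_const`, `deg_mono`), `D n = ∑ i : Fin e, single (P i n) 1`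
(`exists_sum_single`), `TrD.sum_single` with `m i = 1`. -/
theorem TrD.exists_lim (hg : ∀ n, genus k (F n) = h) {D : ∀ n, Dv k (F n)} {B : ℤ}
    (hD : ∀ᶠ n in (U : Filter ℕ), 0 ≤ D n ∧ deg (D n) ≤ B) :
    ∃ Ds : Dv (UK k U) (UF hF U), TrD hg Ds D := by
  have h1 : ∀ᶠ n in (U : Filter ℕ), |Pool.Agent.MPd118f9.deg (D n)| ≤ B := by
    filter_upwards [hD] with n hn
    have h2 : 0 ≤ Pool.Agent.MPd118f9.deg (D n) := by
      rw [← deg_zero (k := k) (K := F n)]
      exact deg_mono hn.1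
    rw [abs_of_nonneg h2]
    exact hn.2
  obtain ⟨m, hm⟩ := eventually_const h1
  have hm0 : 0 ≤ m := by
    obtain ⟨n, h3, h4⟩ := (hm.and hD).exists
    rw [← h3, ← deg_zero (k := k) (K := F n)]
    exact deg_mono h4.1
  obtain ⟨e, rfl⟩ := Int.eq_ofNat_of_zero_le hm0
  have h3 : ∀ n, ∃ P : Fin e → Pt k (F n),
      (0 ≤ D n ∧ Pool.Agent.MPd118f9.deg (D n) = (e : ℤ)) →
        D n = ∑ i, Finsupp.single (P i) (1 : ℤ) := by
    intro n
    by_cases hn : 0 ≤ D n ∧ Pool.Agent.MPd118f9.deg (D n) = (e : ℤ)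
    · obtain ⟨P, hP⟩ := exists_sum_single hn.1 hn.2
      exact ⟨P, fun _ => hP⟩
    · obtain ⟨P⟩ := nonempty_pt (hF n)
      exact ⟨fun _ => P, fun h4 => absurd h4 hn⟩
  choose P hP using h3
  refine ⟨∑ i, Finsupp.single (ipt U hF hg (fun n => P n i)) (1 : ℤ), ?_⟩
  refine udv_congr (TrD.sum_single (fun _ => (1 : ℤ)) (fun i n => P n i)) ?_
  filter_upwards [hm, hD] with n ha hb
  exact (hP n ⟨hb.1, ha⟩).symm

/-- Proof.  `exists_eq_sum_ipt`, `TrD.sum_single`, `TrD.unique`, `deg_add`, `deg_single`. -/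
theorem TrD.deg {Ds : Dv (UK k U) (UF hF U)} {D : ∀ n, Dv k (F n)} (h1 : TrD hg Ds D) :
    ∀ᶠ n in (U : Filter ℕ), Pool.Agent.MPd118f9.deg (D n) = Pool.Agent.MPd118f9.deg Ds := by
  obtain ⟨e, m, P, h2, -, h3⟩ := udv_form h1
  filter_upwards [h3] with n hn
  rw [hn, h2, udv_deg_sum, udv_deg_sum]

theorem TrD.nonneg {Ds : Dv (UK k U) (UF hF U)} {D : ∀ n, Dv k (F n)} (h1 : TrD hg Ds D)
    (h0 : 0 ≤ Ds) : ∀ᶠ n in (U : Filter ℕ), 0 ≤ D n := by
  obtain ⟨e, m, P, -, h2, h3⟩ := udv_form h1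
  filter_upwards [h3] with n hn
  rw [hn]
  exact Finset.sum_nonneg fun i _ => Finsupp.single_nonneg.2 (h2 h0 i)

/-- Proof.  If `f n ∈ L (D n)` for almost all `n` and `v = ipt P` (`UF.exists_eq_ipt`), then
`-Ds v = -D n (P n) ≤ (P n).ord (f n) = v.ord (mk f)` (or `f n = 0`) for almost all `n`.  If
`f n ∉ L (D n)` for almost all `n`, choose `P n` with `(P n).ord (f n) < -D n (P n)`. -/
theorem TrD.mem_L {Ds : Dv (UK k U) (UF hF U)} {D : ∀ n, Dv k (F n)} (h1 : TrD hg Ds D)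
    (f : bdS k F U) :
    UF.mk hF f ∈ L Ds ↔ ∀ᶠ n in (U : Filter ℕ), uev _ n f ∈ L (D n) := by
  constructor
  · intro hf
    by_contra hcon
    rw [← Ultrafilter.eventually_not] at hcon
    have h0 : UF.mk hF f ≠ 0 := by
      rw [UF.mk_ne_zero_iff]
      filter_upwards [hcon] with n hn
      intro h2
      apply hn
      rw [h2]
      exact (L _).zero_mem
    have h3 : ∀ n, ∃ P : Pt k (F n), uev _ n f ∉ L (D n) →
        P.ord (uev _ n f) < -D n P := by
      intro n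
      by_cases hn : uev _ n f ∈ L (D n)
      · obtain ⟨P⟩ := nonempty_pt (hF n)
        exact ⟨P, fun h4 => absurd hn h4⟩
      · have h4 : ¬ (uev _ n f = 0 ∨ ∀ P : Pt k (F n), -D n P ≤ P.ord (uev _ n f)) := hn
        push Not at h4
        obtain ⟨P, hP⟩ := h4.2
        exact ⟨P, fun _ => hP⟩
    choose P hP using h3
    have h5 := (mem_L_of_ne h0).1 hf (ipt U hF hg P)
    obtain ⟨n, ha, hb, hc⟩ := (hcon.and ((h1 P).and (ord_ipt (hF := hF) (hg := hg) P f))).exists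
    have h6 := hP n ha
    rw [hb, hc] at h5
    exact absurd h5 (not_le.2 h6)
  · intro hf
    by_cases h0 : UF.mk hF f = 0
    · rw [h0]
      exact (L _).zero_mem
    rw [mem_L_of_ne h0]
    intro v
    obtain ⟨P, rfl⟩ := UF.exists_eq_ipt (hg := hg) v
    have h2 := UF.mk_ne_zero_iff.1 h0
    obtain ⟨n, ha, hb, hc, hd⟩ :=
      (hf.and (h2.and ((h1 P).and (ord_ipt (hF := hF) (hg := hg) P f)))).exists
    rw [hc, hd]
    exact (mem_L_of_ne hb).1 ha (P n)

/-- Sections are bounded.  Proof: `D n = ∑ i, single (P i n) (m i) ≤ ∑ i, single (P i n) |m i|`. -/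
theorem TrD.mem_bdS {Ds : Dv (UK k U) (UF hF U)} {D : ∀ n, Dv k (F n)} (h1 : TrD hg Ds D)
    {f : ∀ n, F n} (hf : ∀ᶠ n in (U : Filter ℕ), f n ∈ L (D n)) : f ∈ bdS k F U := by
  obtain ⟨e, m, P, -, -, h3⟩ := udv_form h1
  refine mem_bdS_of_L (D := fun n => ∑ i, Finsupp.single (P i n) |m i|) (B := ∑ i, |m i|) ?_
  filter_upwards [hf, h3] with n ha hb
  refine ⟨Finset.sum_nonneg fun i _ => Finsupp.single_nonneg.2 (abs_nonneg _),
    (udv_deg_sum _ _).le, L_mono ?_ ha⟩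
  rw [hb]
  refine Finset.sum_le_sum fun i _ => ?_
  exact Finsupp.single_le_single.2 (le_abs_self _)

end

end Pool.Agent.MPd118f9
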