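import Pool.Agent.Lib.MP_d118f9_ag_G.U.UQ

/-!
# MP_d118f9_ag, block ST2 (uniformity): the ultraproduct of curves

`UF hF U` is the field of the bounded sequences `f n ∈ F n` modulo equality almost everywhere; it is
an extension of `UK k U`.
-/

set_option autoImplicit false

noncomputable section

open Classical

namespace Pool.Agent.MPd118f9

section

variable {k : Type} [Field k] {F : ℕ → Type} [∀ n, Field (F n)] [∀ n, Algebra k (F n)]
  (U : Ultrafilter ℕ)

/-- Bounded sequences: almost all terms are in `L(D)` with `D` effective of bounded degree. -/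
def Bdd (k : Type) [Field k] {F : ℕ → Type} [∀ n, Field (F n)] [∀ n, Algebra k (F n)]
    (U : Ultrafilter ℕ) (f : ∀ n, F n) : Prop :=
  ∃ B : ℤ, ∀ᶠ n in (U : Filter ℕ), ∃ D : Dv k (F n), 0 ≤ D ∧ deg D ≤ B ∧ f n ∈ L D

variable (k F) in
/-- The ring of the bounded sequences. -/
def bdS : Subring (∀ n, F n) where
  carrier := {f | Bdd k U f}
  mul_mem' := by
    rintro f g ⟨B, hB⟩ ⟨C, hC⟩
    refine ⟨B + C, ?_⟩
    filter_upwards [hB, hC] with n h1 h2
    obtain ⟨D, hD, hDB, hf⟩ := h1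
    obtain ⟨E, hE, hEC, hg⟩ := h2
    exact ⟨D + E, add_nonneg hD hE, by rw [deg_add]; exact add_le_add hDB hEC, mul_mem_L hf hg⟩
  one_mem' := ⟨0, Filter.Eventually.of_forall fun n =>
    ⟨0, le_rfl, deg_zero.le, one_mem_L le_rfl⟩⟩
  add_mem' := by
    rintro f g ⟨B, hB⟩ ⟨C, hC⟩
    refine ⟨B + C, ?_⟩
    filter_upwards [hB, hC] with n h1 h2
    obtain ⟨D, hD, hDB, hf⟩ := h1
    obtain ⟨E, hE, hEC, hg⟩ := h2
    exact ⟨D + E, add_nonneg hD hE, by rw [deg_add]; exact add_le_add hDB hEC,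
      (L _).add_mem (L_mono (le_add_of_nonneg_right hE) hf)
        (L_mono (le_add_of_nonneg_left hD) hg)⟩
  zero_mem' := ⟨0, Filter.Eventually.of_forall fun n =>
    ⟨0, le_rfl, deg_zero.le, (L _).zero_mem⟩⟩
  neg_mem' := by
    rintro f ⟨B, hB⟩
    refine ⟨B, ?_⟩
    filter_upwards [hB] with n h1
    obtain ⟨D, hD, hDB, hf⟩ := h1
    refine ⟨D, hD, hDB, ?_⟩
    show -(f n) ∈ L D
    exact (L D).neg_mem hf

theorem mem_bdS {f : ∀ n, F n} : f ∈ bdS k F U ↔ Bdd k U f := Iff.rfl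

variable (k F) in
/-- The constant sequences (constants of the fields `F n`). -/
def ucst : (ℕ → k) →+* bdS k F U :=
  RingHom.codRestrict (RingHom.pi fun n => (algebraMap k (F n)).comp (Pi.evalRingHom _ n))
    (bdS k F U) fun c => ⟨0, Filter.Eventually.of_forall fun n => ⟨0, le_rfl, deg_zero.le, by
      show algebraMap k (F n) (c n) ∈ L (0 : Dv k (F n))
      rw [Algebra.algebraMap_eq_smul_one]
      exact (L _).smul_mem _ (one_mem_L le_rfl)⟩⟩

@[simp] theorem uev_ucst (n : ℕ) (c : ℕ → k) :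
    uev _ n (ucst k F U c) = algebraMap k (F n) (c n) := rfl

variable {U}

section

variable [IsAlgClosed k] [CharZero k]

theorem bdS_inv (hF : ∀ n, IsCurve k (F n)) :
    ∀ f ∈ bdS k F U, (fun n => (f n)⁻¹) ∈ bdS k F U := by
  rintro f ⟨B, hB⟩
  refine ⟨B, ?_⟩
  filter_upwards [hB] with n h1
  obtain ⟨D, hD, hDB, hf⟩ := h1
  by_cases h0 : f n = 0
  · refine ⟨D, hD, hDB, ?_⟩
    show (f n)⁻¹ ∈ L D
    rw [h0, inv_zero]
    exact (L D).zero_mem
  · refine ⟨D + dv k (f n), fun P => ?_, ?_, ?_⟩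
    · have h2 := (mem_L_of_ne h0).1 hf P
      rw [Finsupp.add_apply, (hF n).dv_apply h0]
      show (0 : ℤ) ≤ _
      linarith
    · rw [deg_add, (hF n).deg_dv h0, add_zero]
      exact hDB
    · show (f n)⁻¹ ∈ L (D + dv k (f n))
      rw [mem_L_of_ne (inv_ne_zero h0)]
      intro P
      rw [Finsupp.add_apply, (hF n).dv_apply h0, P.ord_inv]
      have h3 := hD P
      have h4 : (0 : ℤ) ≤ D P := h3
      linarith

end

/-- The ultraproduct of the curves `F n`. -/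
def UF [IsAlgClosed k] [CharZero k] (hF : ∀ n, IsCurve k (F n)) (U : Ultrafilter ℕ) : Type :=
  UQ U (bdS k F U) (bdS_inv hF)

variable [IsAlgClosed k] [CharZero k] {hF : ∀ n, IsCurve k (F n)}

instance : Field (UF hF U) := inferInstanceAs (Field (UQ U (bdS k F U) (bdS_inv hF)))

/-- The class of a bounded sequence. -/
def UF.mk (hF : ∀ n, IsCurve k (F n)) : bdS k F U →+* UF hF U := UQ.mk (bdS_inv hF)

/-- The pointwise inverse. -/
def UF.inv (hF : ∀ n, IsCurve k (F n)) (f : bdS k F U) : bdS k F U := upinv (bdS_inv hF) f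

@[simp] theorem uev_UFinv (n : ℕ) (f : bdS k F U) : uev _ n (UF.inv hF f) = (uev _ n f)⁻¹ := rfl

theorem UF.mk_surjective : Function.Surjective (UF.mk (U := U) hF) := UQ.mk_surjective

theorem UF.mk_eq_zero_iff {f : bdS k F U} :
    UF.mk hF f = 0 ↔ ∀ᶠ n in (U : Filter ℕ), uev _ n f = 0 := UQ.mk_eq_zero_iff

theorem UF.mk_ne_zero_iff {f : bdS k F U} :
    UF.mk hF f ≠ 0 ↔ ∀ᶠ n in (U : Filter ℕ), uev _ n f ≠ 0 := UQ.mk_ne_zero_iff

theorem UF.mk_eq_iff {f g : bdS k F U} :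
    UF.mk hF f = UF.mk hF g ↔ ∀ᶠ n in (U : Filter ℕ), uev _ n f = uev _ n g := UQ.mk_eq_iff

theorem UF.mk_inv (f : bdS k F U) : UF.mk hF (UF.inv hF f) = (UF.mk hF f)⁻¹ := UQ.mk_upinv f

/-- The embedding of the ultrapower of `k`. -/
def UK.toUF (hF : ∀ n, IsCurve k (F n)) : UK k U →+* UF hF U :=
  Ideal.Quotient.lift (unul U (⊤ : Subring (∀ _ : ℕ, k)))
    ((UF.mk hF).comp ((ucst k F U).comp (Subring.topEquiv :
      (⊤ : Subring (∀ _ : ℕ, k)) ≃+* (ℕ → k)).toRingHom)) (by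
    intro c hc
    have h1 : ∀ᶠ n in (U : Filter ℕ), (c : ℕ → k) n = 0 := hc
    show UF.mk hF (ucst k F U (c : ℕ → k)) = 0
    rw [UF.mk_eq_zero_iff]
    filter_upwards [h1] with n hn
    rw [uev_ucst, hn, map_zero])

instance : Algebra (UK k U) (UF hF U) := (UK.toUF hF).toAlgebra

theorem UF.algebraMap_mk (c : ℕ → k) :
    algebraMap (UK k U) (UF hF U) (UK.mk k U c) = UF.mk hF (ucst k F U c) := rfl

theorem UF.smul_mk (c : ℕ → k) (f : bdS k F U) :
    UK.mk k U c • UF.mk hF f = UF.mk hF (ucst k F U c * f) := by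
  rw [Algebra.smul_def, UF.algebraMap_mk, map_mul]

end

end Pool.Agent.MPd118f9
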