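import Pool.Agent.Lib.MP_d118f9_ag_G.U.UDv

/-!
# MP_d118f9_ag, block ST2 (uniformity): linear algebra
-/

set_option autoImplicit false

noncomputable section

open Classical

namespace Pool.Agent.MPd118f9

section

variable {U : Ultrafilter ℕ} {k : Type} [Field k] [IsAlgClosed k] [CharZero k] {F : ℕ → Type}
  [∀ n, Field (F n)] [∀ n, Algebra k (F n)] {hF : ∀ n, IsCurve k (F n)} {h : ℕ}
  {hg : ∀ n, genus k (F n) = h}

private theorem ulin_sum {r : ℕ} (f : Fin r → bdS k F U) (c : Fin r → ℕ → k) :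
    ∑ i, UK.mk k U (c i) • UF.mk hF (f i) = UF.mk hF (∑ i, ucst k F U (c i) * f i) := by
  rw [map_sum]
  exact Finset.sum_congr rfl fun i _ => UF.smul_mk (c i) (f i)

omit [IsAlgClosed k] [CharZero k] in
private theorem ulin_ev {r : ℕ} (f : Fin r → bdS k F U) (c : Fin r → ℕ → k) (n : ℕ) :
    uev _ n (∑ i, ucst k F U (c i) * f i) = ∑ i, c i n • uev _ n (f i) := by
  rw [map_sum]
  exact Finset.sum_congr rfl fun i _ => by rw [map_mul, uev_ucst, Algebra.smul_def]

/-- Proof.  `Fintype.linearIndependent_iff`.  A relation `∑ i, c i • mk (f i) = 0`,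
`c i = UK.mk (c' i)`, is `∑ i, c' i n • f i n = 0` almost everywhere (`UF.smul_mk`,
`UF.mk_eq_zero_iff`).  If the `f i n` are dependent almost everywhere, choose a relation for each
`n`; some coefficient is
not `0` almost everywhere (`eventually_exists_finite`). -/
theorem UF.linearIndependent_iff {r : ℕ} (f : Fin r → bdS k F U) :
    LinearIndependent (UK k U) (fun i => UF.mk hF (f i)) ↔
      ∀ᶠ n in (U : Filter ℕ), LinearIndependent k fun i => uev _ n (f i) := by
  constructor
  · intro hli
    by_contra hcon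
    have hcon' : ∀ᶠ n in (U : Filter ℕ), ¬ LinearIndependent k fun i => uev _ n (f i) :=
      Ultrafilter.eventually_not.2 hcon
    have h1 : ∀ n, ∃ c : Fin r → k, (¬ LinearIndependent k fun i => uev _ n (f i)) →
        ∑ i, c i • uev _ n (f i) = 0 ∧ ∃ i, c i ≠ 0 := by
      intro n
      by_cases h : LinearIndependent k fun i => uev _ n (f i)
      · exact ⟨0, fun h' => absurd h h'⟩
      · rw [Fintype.linearIndependent_iff] at h
        push Not at h
        obtain ⟨c, hc, hi⟩ := h
        exact ⟨c, fun _ => ⟨hc, hi⟩⟩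
    choose c hc using h1
    obtain ⟨i, hi⟩ := eventually_exists_finite (U := U) (p := fun n i => c n i ≠ 0)
      (hcon'.mono fun n hn => (hc n hn).2)
    rw [Fintype.linearIndependent_iff] at hli
    have h2 := hli (fun i => UK.mk k U fun n => c n i) (by
      rw [ulin_sum (hF := hF) f fun i n => c n i, UF.mk_eq_zero_iff]
      exact hcon'.mono fun n hn => by
        rw [ulin_ev f (fun i n => c n i) n]
        exact (hc n hn).1) i
    exact UK.mk_ne_zero_iff.2 hi h2
  · intro hev
    rw [Fintype.linearIndependent_iff]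
    intro q hq i
    choose c hc using fun i => UK.mk_surjective (k := k) (U := U) (q i)
    have h1 : ∑ i, UK.mk k U (c i) • UF.mk hF (f i) = 0 := by
      rw [← hq]
      exact Finset.sum_congr rfl fun i _ => by rw [hc]
    rw [ulin_sum, UF.mk_eq_zero_iff] at h1
    rw [← hc i, UK.mk_eq_zero_iff]
    filter_upwards [h1, hev] with n h2 h3
    rw [ulin_ev] at h2
    exact Fintype.linearIndependent_iff.1 h3 (fun i => c i n) h2 i

/-- Proof.  Let the `f i n` span `L (D n)` almost everywhere, `x = mk g ∈ L Ds`, so `g n ∈ L (D n)`,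
`g n = ∑ i, c i n • f i n` almost everywhere, `x = ∑ i, UK.mk (c i) • mk (f i)`.  Conversely if
`L (D n)` is not in the span almost everywhere, choose `g n ∈ L (D n)` outside the span; `g` is
bounded (`TrD.mem_bdS`) and `mk g` is in `L Ds` but not in the span. -/
theorem TrD.le_span_iff {Ds : Dv (UK k U) (UF hF U)} {D : ∀ n, Dv k (F n)} (h1 : TrD hg Ds D)
    {r : ℕ} (f : Fin r → bdS k F U) :
    L Ds ≤ Submodule.span (UK k U) (Set.range fun i => UF.mk hF (f i)) ↔
      ∀ᶠ n in (U : Filter ℕ), L (D n) ≤ Submodule.span k (Set.range fun i => uev _ n (f i)) := by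
  constructor
  · intro hle
    by_contra hcon
    have hcon' : ∀ᶠ n in (U : Filter ℕ), ¬ L (D n) ≤
        Submodule.span k (Set.range fun i => uev _ n (f i)) := Ultrafilter.eventually_not.2 hcon
    have h2 : ∀ n, ∃ g : F n, (¬ L (D n) ≤
        Submodule.span k (Set.range fun i => uev _ n (f i))) →
        g ∈ L (D n) ∧ g ∉ Submodule.span k (Set.range fun i => uev _ n (f i)) := by
      intro n
      by_cases h : L (D n) ≤ Submodule.span k (Set.range fun i => uev _ n (f i))
      · exact ⟨0, fun h' => absurd h h'⟩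
      · obtain ⟨g, hg1, hg2⟩ := Set.not_subset.1 h
        exact ⟨g, fun _ => ⟨hg1, hg2⟩⟩
    choose g hg' using h2
    have h3 : ∀ᶠ n in (U : Filter ℕ), g n ∈ L (D n) := hcon'.mono fun n hn => (hg' n hn).1
    have h4 : UF.mk hF ⟨g, h1.mem_bdS h3⟩ ∈ L Ds := (h1.mem_L ⟨g, h1.mem_bdS h3⟩).2 h3
    obtain ⟨q, hq⟩ := (Submodule.mem_span_range_iff_exists_fun _).1 (hle h4)
    choose c hc using fun i => UK.mk_surjective (k := k) (U := U) (q i)
    have h5 : ∑ i, UK.mk k U (c i) • UF.mk hF (f i) = UF.mk hF ⟨g, h1.mem_bdS h3⟩ := by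
      rw [← hq]
      exact Finset.sum_congr rfl fun i _ => by rw [hc]
    rw [ulin_sum, UF.mk_eq_iff] at h5
    obtain ⟨n, h6, h7⟩ := (h5.and hcon').exists
    rw [ulin_ev, uev_mk] at h6
    exact (hg' n h7).2 ((Submodule.mem_span_range_iff_exists_fun _).2 ⟨fun i => c i n, h6⟩)
  · intro hev x hx
    obtain ⟨g, rfl⟩ := UF.mk_surjective x
    have h2 := (h1.mem_L g).1 hx
    have h3 : ∀ n, ∃ c : Fin r → k,
        uev _ n g ∈ Submodule.span k (Set.range fun i => uev _ n (f i)) →
        ∑ i, c i • uev _ n (f i) = uev _ n g := by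
      intro n
      by_cases h : uev _ n g ∈ Submodule.span k (Set.range fun i => uev _ n (f i))
      · obtain ⟨c, hc⟩ := (Submodule.mem_span_range_iff_exists_fun _).1 h
        exact ⟨c, fun _ => hc⟩
      · exact ⟨0, fun h' => absurd h' h⟩
    choose c hc using h3
    refine (Submodule.mem_span_range_iff_exists_fun _).2 ⟨fun i => UK.mk k U fun n => c n i, ?_⟩
    rw [ulin_sum (hF := hF) f fun i n => c n i, UF.mk_eq_iff]
    filter_upwards [h2, hev] with n h4 h5
    rw [ulin_ev f (fun i n => c n i) n]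
    exact hc n (h5 h4)

/-- Proof.  A basis `x : Fin (ell Ds) → L Ds` (`finDim`, `UF.isCurve`), `x i = mk (f i)`;
`TrD.mem_L`, `UF.linearIndependent_iff`, `TrD.le_span_iff`: the `f i n` are a basis of `L (D n)`
almost everywhere. -/
theorem TrD.ell {Ds : Dv (UK k U) (UF hF U)} {D : ∀ n, Dv k (F n)} (h1 : TrD hg Ds D) :
    ∀ᶠ n in (U : Filter ℕ), Pool.Agent.MPd118f9.ell (D n) = Pool.Agent.MPd118f9.ell Ds := by
  have hK : IsCurve (UK k U) (UF hF U) := UF.isCurve hg
  have := hK.finDim Ds
  let x : Module.Basis (Fin (Pool.Agent.MPd118f9.ell Ds)) (UK k U) (L Ds) :=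
    Module.finBasisOfFinrankEq (UK k U) (L Ds) rfl
  choose f hf using fun i => UF.mk_surjective (hF := hF) (U := U) (x i : UF hF U)
  have h2 : LinearIndependent (UK k U) fun i => UF.mk hF (f i) := by
    have h3 : (fun i => UF.mk hF (f i)) = fun i => ((L Ds).subtype (x i)) := by
      funext i
      exact hf i
    rw [h3]
    exact x.linearIndependent.map' (L Ds).subtype (Submodule.ker_subtype _)
  have h4 : L Ds ≤ Submodule.span (UK k U) (Set.range fun i => UF.mk hF (f i)) := by
    intro y hy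
    refine (Submodule.mem_span_range_iff_exists_fun _).2 ⟨fun i => x.repr ⟨y, hy⟩ i, ?_⟩
    have h5 := congrArg (L Ds).subtype (x.sum_repr ⟨y, hy⟩)
    rw [map_sum] at h5
    refine (Finset.sum_congr rfl fun i _ => ?_).trans h5
    rw [map_smul, hf]
    rfl
  have h6 : ∀ i, ∀ᶠ n in (U : Filter ℕ), uev _ n (f i) ∈ L (D n) := fun i =>
    (h1.mem_L (f i)).1 (by rw [hf]; exact (x i).2)
  filter_upwards [(UF.linearIndependent_iff f).1 h2, (h1.le_span_iff f).1 h4,
    Filter.eventually_all.2 h6] with n h7 h8 h9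
  have h10 : L (D n) = Submodule.span k (Set.range fun i => uev _ n (f i)) :=
    le_antisymm h8 (Submodule.span_le.2 (by
      rintro _ ⟨i, rfl⟩
      exact h9 i))
  rw [Pool.Agent.MPd118f9.ell, h10, finrank_span_eq_card h7, Fintype.card_fin]

end

end Pool.Agent.MPd118f9
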