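import Pool.Agent.Lib.MP_d118f9_ag_G.U.UAlg
import Pool.Agent.Lib.MP_d118f9_ag_G.U.UBd
import Pool.Agent.Lib.MP_d118f9_ag_G.U.UZ

/-!
# MP_d118f9_ag, block ST2 (uniformity): internal points (U4)
-/

set_option autoImplicit false

noncomputable section

open Classical

namespace Pool.Agent.MPd118f9

section

variable {U : Ultrafilter ℕ} {k : Type} [Field k] [IsAlgClosed k] [CharZero k] {F : ℕ → Type}
  [∀ n, Field (F n)] [∀ n, Algebra k (F n)]

/-- A function with exact pole order `m + 1` at `P` and no other poles. -/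
private theorem upt_exact {k F : Type} [Field k] [IsAlgClosed k] [CharZero k] [Field F]
    [Algebra k F] (hF : IsCurve k F) (P : Pt k F) {m : ℤ} (hm : 2 * (genus k F : ℤ) - 1 ≤ m) :
    ∃ f : F, f ≠ 0 ∧ f ∈ L (Finsupp.single P (m + 1)) ∧ P.ord f = -(m + 1) := by
  have h1 := ell_of_large hF (D := Finsupp.single P m) (by rw [deg_single]; exact hm)
  have h2 := ell_of_large hF (D := Finsupp.single P (m + 1)) (by rw [deg_single]; omega)
  rw [deg_single] at h1 h2
  have h3 : ¬ L (Finsupp.single P (m + 1)) ≤ L (Finsupp.single P m) := by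
    intro h
    have := hF.finDim (Finsupp.single P m)
    have h4 : ell (Finsupp.single P (m + 1)) ≤ ell (Finsupp.single P m) :=
      Submodule.finrank_mono h
    omega
  obtain ⟨f, hf, hfn⟩ := Set.not_subset.1 h3
  have hf0 : f ≠ 0 := by
    rintro rfl
    exact hfn (L (Finsupp.single P m)).zero_mem
  refine ⟨f, hf0, hf, ?_⟩
  have h5 := (mem_L_of_ne hf0).1 hf
  have h6 : ¬ ∀ Q, -(Finsupp.single P m : Dv k F) Q ≤ Q.ord f := fun h =>
    hfn ((mem_L_of_ne hf0).2 h)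
  push Not at h6
  obtain ⟨Q, hQ⟩ := h6
  have h7 := h5 Q
  by_cases hQP : Q = P
  · subst hQP
    rw [Finsupp.single_eq_same] at hQ h7
    omega
  · rw [Finsupp.single_eq_of_ne hQP] at hQ h7
    omega

/-- A valuation subring with an order function with values in the integers is discrete. -/
private theorem upt_dvr {k K : Type} [Field k] [Field K] [Algebra k K] (A : ValuationSubring K)
    (ν : K → ℤ) (hA : ∀ x, x ≠ 0 → (x ∈ A ↔ 0 ≤ ν x))
    (hmul : ∀ x y, x ≠ 0 → y ≠ 0 → ν (x * y) = ν x + ν y) (hinv : ∀ x, ν x⁻¹ = -ν x)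
    (h0 : ν 0 = 0) {ϖ : K} (hϖ0 : ϖ ≠ 0) (hϖ : ν ϖ = 1) (hk : ∀ c : k, algebraMap k K c ∈ A) :
    ∃ Q : Pt k K, ∀ x, Q.ord x = ν x := by
  have hone : ν 1 = 0 := by
    have h1 := hmul 1 1 one_ne_zero one_ne_zero
    rw [mul_one] at h1
    omega
  have hpow : ∀ n : ℕ, ν (ϖ ^ n) = n := by
    intro n
    induction n with
    | zero => rw [pow_zero, hone, Nat.cast_zero]
    | succ n ih => rw [pow_succ, hmul _ _ (pow_ne_zero n hϖ0) hϖ0, ih, hϖ, Nat.cast_succ]
  have hzpow : ∀ n : ℤ, ν (ϖ ^ n) = n := by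
    intro n
    cases n with
    | ofNat n =>
      rw [Int.ofNat_eq_natCast, zpow_natCast]
      exact hpow n
    | negSucc n =>
      rw [zpow_negSucc, hinv, hpow]
      rfl
  have hdiv : ∀ (x : K) (n : ℤ), x ≠ 0 → ν (x / ϖ ^ n) = ν x - n := by
    intro x n hx
    rw [div_eq_mul_inv, hmul _ _ hx (inv_ne_zero (zpow_ne_zero n hϖ0)), hinv, hzpow]
    ring
  have hunif : MP9a7843.IsUnif A ϖ := by
    refine ⟨hϖ0, fun x => ?_⟩
    by_cases hx : x = 0
    · rw [hx, map_zero, zero_div]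
      exact ⟨fun _ => A.zero_mem, fun _ => zero_lt_one⟩
    rw [MP9a7843.val_lt_one_iff hx, hA _ (inv_ne_zero hx), hA _ (div_ne_zero hx hϖ0), hinv]
    have h1 := hdiv x 1 hx
    rw [zpow_one] at h1
    rw [h1]
    omega
  have hval : ∀ x : K, x ≠ 0 → A.valuation (x / ϖ ^ ν x) = 1 := by
    intro x hx
    have hne : x / ϖ ^ ν x ≠ 0 := div_ne_zero hx (zpow_ne_zero _ hϖ0)
    rw [MP9a7843.val_eq_one_iff hne, hA _ hne, hA _ (inv_ne_zero hne), hinv, hdiv x _ hx]
    omega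
  have hdvr : MP9a7843.IsDVRof k A := by
    refine MP9a7843.isDVRof_of_isUnif hk hunif fun a ha ha0 => ?_
    have h2 := (hA a ha0).1 ha
    refine ⟨(ν a).toNat, ?_⟩
    have h3 := hval a ha0
    rw [← Int.toNat_of_nonneg h2, zpow_natCast] at h3
    exact h3
  refine ⟨⟨A, hdvr⟩, fun x => ?_⟩
  by_cases hx : x = 0
  · rw [hx, h0]
    exact MP9a7843.ord_zero
  · exact MP9a7843.ord_eq hunif (hval x hx)

/-- A bounded sequence of uniformizers.  Proof: with `h = genus` there are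
`f ∈ L ((2 h + 1) P) \ L (2 h P)` and `g ∈ L ((2 h + 2) P) \ L ((2 h + 1) P)` (`ell_of_large`), so
`P.ord f = -(2 h + 1)`, `P.ord g = -(2 h + 2)`; take `f / g` (`mem_bdS_of_L`, `UF.inv`). -/
theorem exists_unif_bdS (hF : ∀ n, IsCurve k (F n)) {h : ℕ} (hg : ∀ n, genus k (F n) = h)
    (P : ∀ n, Pt k (F n)) : ∃ ϖ : bdS k F U, ∀ n, (P n).ord (uev _ n ϖ) = 1 := by
  have h1 : ∀ n, ∃ f : F n, f ≠ 0 ∧ f ∈ L (Finsupp.single (P n) (2 * (h : ℤ) + 1)) ∧
      (P n).ord f = -(2 * (h : ℤ) + 1) := fun n =>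
    upt_exact (hF n) (P n) (by rw [hg n]; omega)
  have h2 : ∀ n, ∃ f : F n, f ≠ 0 ∧ f ∈ L (Finsupp.single (P n) (2 * (h : ℤ) + 1 + 1)) ∧
      (P n).ord f = -(2 * (h : ℤ) + 1 + 1) := fun n =>
    upt_exact (hF n) (P n) (by rw [hg n]; omega)
  choose f hf0 hfL hf using h1
  choose g hg0 hgL hgo using h2
  have hfb : f ∈ bdS k F U := mem_bdS_of_L (D := fun n => Finsupp.single (P n) (2 * (h : ℤ) + 1))
    (B := 2 * (h : ℤ) + 1) (Filter.Eventually.of_forall fun n =>
      ⟨Finsupp.single_nonneg.2 (by omega), (deg_single _ _).le, hfL n⟩)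
  have hgb : g ∈ bdS k F U :=
    mem_bdS_of_L (D := fun n => Finsupp.single (P n) (2 * (h : ℤ) + 1 + 1))
    (B := 2 * (h : ℤ) + 1 + 1) (Filter.Eventually.of_forall fun n =>
      ⟨Finsupp.single_nonneg.2 (by omega), (deg_single _ _).le, hgL n⟩)
  refine ⟨⟨f, hfb⟩ * UF.inv hF ⟨g, hgb⟩, fun n => ?_⟩
  rw [map_mul, uev_UFinv, uev_mk, uev_mk, (P n).ord_mul (hf0 n) (inv_ne_zero (hg0 n)),
    (P n).ord_inv, hf, hgo]
  omega

/-- The valuation ring of the internal point. -/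
private def uptA (hF : ∀ n, IsCurve k (F n)) (P : ∀ n, Pt k (F n)) :
    ValuationSubring (UF hF U) where
  carrier := {x | ∃ f : bdS k F U, UF.mk hF f = x ∧
    ∀ᶠ n in (U : Filter ℕ), uev _ n f ∈ (P n).1}
  mul_mem' := by
    rintro _ _ ⟨f, rfl, hf⟩ ⟨g, rfl, hg⟩
    refine ⟨f * g, map_mul _ _ _, ?_⟩
    filter_upwards [hf, hg] with n h1 h2
    rw [map_mul]
    exact mul_mem h1 h2
  one_mem' := by
    refine ⟨1, map_one _, Filter.Eventually.of_forall fun n => ?_⟩
    rw [map_one]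
    exact one_mem _
  add_mem' := by
    rintro _ _ ⟨f, rfl, hf⟩ ⟨g, rfl, hg⟩
    refine ⟨f + g, map_add _ _ _, ?_⟩
    filter_upwards [hf, hg] with n h1 h2
    rw [map_add]
    exact add_mem h1 h2
  zero_mem' := by
    refine ⟨0, map_zero _, Filter.Eventually.of_forall fun n => ?_⟩
    rw [map_zero]
    exact zero_mem _
  neg_mem' := by
    rintro _ ⟨f, rfl, hf⟩
    refine ⟨-f, map_neg _ _, ?_⟩
    filter_upwards [hf] with n h1
    rw [map_neg]
    exact neg_mem h1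
  mem_or_inv_mem' := by
    intro x
    obtain ⟨f, rfl⟩ := UF.mk_surjective x
    have h1 : ∀ᶠ n in (U : Filter ℕ), uev _ n f ∈ (P n).1 ∨ (uev _ n f)⁻¹ ∈ (P n).1 :=
      Filter.Eventually.of_forall fun n => (P n).1.mem_or_inv_mem (uev _ n f)
    rcases Ultrafilter.eventually_or.1 h1 with h2 | h2
    · exact Or.inl ⟨f, rfl, h2⟩
    · exact Or.inr ⟨UF.inv hF f, UF.mk_inv f, h2⟩

private theorem mem_uptA {hF : ∀ n, IsCurve k (F n)} {P : ∀ n, Pt k (F n)} {x : UF hF U} :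
    x ∈ uptA hF P ↔ ∃ f : bdS k F U, UF.mk hF f = x ∧
      ∀ᶠ n in (U : Filter ℕ), uev _ n f ∈ (P n).1 := Iff.rfl

/-- **U4.**  Proof.  The valuation ring is
`{x | ∃ f : bdS k F U, UF.mk hF f = x ∧ ∀ᶠ n in U, uev _ n f ∈ (P n).1}`
(equivalently for all `f` with `UF.mk hF f = x`); `mem_or_inv_mem` by `Ultrafilter.eventually_or`
and `UF.inv`.  Let `ϖ` be as in `exists_unif_bdS`.  For `x = UF.mk hF f ≠ 0` the integers
`(P n).ord (f n)` are bounded (`bdS_ord`), so almost everywhere equal to `m` (`eventually_const`),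
and `f / ϖ ^ m` and its inverse are in the ring (`Pt.mem_iff`).  `UF.mk hF ϖ` is a uniformizer
(`MP9a7843.IsUnif`, `MP9a7843.val_lt_one_iff`: `x⁻¹` is not in the ring iff the orders of `f` are
`≥ 1` almost everywhere); `MP9a7843.isDVRof_of_isUnif`, `MP9a7843.ord_eq`.  (See `dpt_below` in
`MP_d118f9_ag/D/DPt.lean` for a similar construction.)  For `f` with `UF.mk hF f = 0` both sides are
`0` almost everywhere (`Pt.ord_zero`). -/
theorem UF.exists_ipt (hF : ∀ n, IsCurve k (F n)) {h : ℕ} (hg : ∀ n, genus k (F n) = h)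
    (P : ∀ n, Pt k (F n)) : ∃ Q : Pt (UK k U) (UF hF U), ∀ f : bdS k F U,
      ∀ᶠ n in (U : Filter ℕ), Q.ord (UF.mk hF f) = (P n).ord (uev _ n f) := by
  have hν : ∀ x : UF hF U, ∃ m : ℤ, ∀ f : bdS k F U, UF.mk hF f = x →
      ∀ᶠ n in (U : Filter ℕ), (P n).ord (uev _ n f) = m := by
    intro x
    obtain ⟨f₀, rfl⟩ := UF.mk_surjective x
    obtain ⟨B, hB⟩ := bdS_ord hF f₀
    obtain ⟨m, hm⟩ := eventually_const (f := fun n => (P n).ord (uev _ n f₀))
      (hB.mono fun n hn => hn (P n))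
    refine ⟨m, fun f hf => ?_⟩
    filter_upwards [hm, UF.mk_eq_iff.1 hf] with n h1 h2
    rw [h2]
    exact h1
  choose ν hν using hν
  obtain ⟨ϖ, hϖ⟩ := exists_unif_bdS (U := U) hF hg P
  have hϖ0 : UF.mk hF ϖ ≠ 0 := by
    rw [UF.mk_ne_zero_iff]
    refine Filter.Eventually.of_forall fun n h1 => ?_
    have h2 := hϖ n
    rw [h1, Pt.ord_zero] at h2
    exact zero_ne_one h2
  obtain ⟨Q, hQ⟩ := upt_dvr (k := UK k U) (uptA hF P) ν
    (by
      intro x hx
      rw [mem_uptA]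
      constructor
      · rintro ⟨f, rfl, hf⟩
        have h1 := UF.mk_ne_zero_iff.1 hx
        obtain ⟨n, h2, h3, h4⟩ := (h1.and (hf.and (hν _ f rfl))).exists
        rw [← h4]
        exact ((P n).mem_iff h2).1 h3
      · intro h1
        obtain ⟨f, rfl⟩ := UF.mk_surjective x
        refine ⟨f, rfl, ?_⟩
        filter_upwards [UF.mk_ne_zero_iff.1 hx, hν _ f rfl] with n h2 h3
        rw [(P n).mem_iff h2, h3]
        exact h1)
    (by
      intro x y hx hy
      obtain ⟨f, rfl⟩ := UF.mk_surjective x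
      obtain ⟨g, rfl⟩ := UF.mk_surjective y
      obtain ⟨n, h1, h2, h3, h4, h5⟩ := ((hν _ (f * g) (map_mul _ _ _)).and
        ((hν _ f rfl).and ((hν _ g rfl).and ((UF.mk_ne_zero_iff.1 hx).and
          (UF.mk_ne_zero_iff.1 hy))))).exists
      rw [← h1, ← h2, ← h3, map_mul, (P n).ord_mul h4 h5])
    (by
      intro x
      obtain ⟨f, rfl⟩ := UF.mk_surjective x
      obtain ⟨n, h1, h2⟩ := ((hν _ (UF.inv hF f) (UF.mk_inv f)).and (hν _ f rfl)).exists
      rw [← h1, ← h2, uev_UFinv, (P n).ord_inv])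
    (by
      obtain ⟨n, h1⟩ := (hν _ 0 (map_zero _)).exists
      rw [← h1, map_zero, Pt.ord_zero])
    hϖ0
    (by
      obtain ⟨n, h1⟩ := (hν _ ϖ rfl).exists
      rw [← h1, hϖ])
    (by
      intro c
      obtain ⟨c, rfl⟩ := UK.mk_surjective c
      rw [UF.algebraMap_mk]
      exact ⟨_, rfl, Filter.Eventually.of_forall fun n => (P n).2.1 (c n)⟩)
  refine ⟨Q, fun f => ?_⟩
  rw [hQ]
  exact (hν _ f rfl).mono fun n hn => hn.symm

variable (U) in
/-- The internal point given by the sequence `P` of points. -/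
def ipt (hF : ∀ n, IsCurve k (F n)) {h : ℕ} (hg : ∀ n, genus k (F n) = h)
    (P : ∀ n, Pt k (F n)) : Pt (UK k U) (UF hF U) := (UF.exists_ipt hF hg P).choose

variable {hF : ∀ n, IsCurve k (F n)} {h : ℕ} {hg : ∀ n, genus k (F n) = h}

theorem ord_ipt (P : ∀ n, Pt k (F n)) (f : bdS k F U) : ∀ᶠ n in (U : Filter ℕ),
    (ipt U hF hg P).ord (UF.mk hF f) = (P n).ord (uev _ n f) :=
  (UF.exists_ipt hF hg P).choose_spec f

/-- Proof.  If `P n = P' n` almost everywhere then the orders are the same (`Pt.eq_of_le`).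
Otherwise `P n ≠ P' n` almost everywhere; let `z n ∈ L ((h + 1) P n)` be not constant (`exists_z`):
it has a pole at `P n` (otherwise it has no pole and is a constant: `poles_le_of_mem`,
`deg_poles_pos`) and none at `P' n`. -/
theorem ipt_eq_iff {P P' : ∀ n, Pt k (F n)} :
    ipt U hF hg P = ipt U hF hg P' ↔ ∀ᶠ n in (U : Filter ℕ), P n = P' n := by
  constructor
  · intro heq
    by_contra hcon
    have hne : ∀ᶠ n in (U : Filter ℕ), P n ≠ P' n := Ultrafilter.eventually_not.2 hcon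
    have hz := fun n => exists_z (hF n) (P n)
    choose z hzc hzL using hz
    have hzb : z ∈ bdS k F U :=
      mem_bdS_of_L (D := fun n => Finsupp.single (P n) ((genus k (F n) : ℤ) + 1))
      (B := (h : ℤ) + 1) (Filter.Eventually.of_forall fun n =>
        ⟨Finsupp.single_nonneg.2 (by omega), by rw [deg_single, hg n], hzL n⟩)
    have h1 := ord_ipt (hF := hF) (hg := hg) P (⟨z, hzb⟩ : bdS k F U)
    have h2 := ord_ipt (hF := hF) (hg := hg) P' (⟨z, hzb⟩ : bdS k F U)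
    rw [← heq] at h2
    obtain ⟨n, h3, h4, h5⟩ := (h1.and (h2.and hne)).exists
    rw [uev_mk] at h3 h4
    have hz0 : z n ≠ 0 := fun h0 => hzc n 0 (by rw [h0, map_zero])
    have h6 := (mem_L_of_ne hz0).1 (hzL n)
    have h7 := h6 (P' n)
    rw [Finsupp.single_eq_of_ne (Ne.symm h5), neg_zero] at h7
    have h8 : z n ∈ L (0 : Dv k (F n)) := by
      rw [mem_L_of_ne hz0]
      intro Q
      rw [Finsupp.zero_apply, neg_zero]
      by_cases hQ : Q = P n
      · rw [hQ, ← h3, h4]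
        exact h7
      · have h9 := h6 Q
        rw [Finsupp.single_eq_of_ne hQ, neg_zero] at h9
        exact h9
    obtain ⟨c, hc⟩ := (hF n).mem_L_zero.1 h8
    exact hzc n c hc
  · intro heq
    refine Pt.eq_of_le fun x _ hx => ?_
    obtain ⟨f, rfl⟩ := UF.mk_surjective x
    obtain ⟨n, h1, h2, h3⟩ := ((ord_ipt (hF := hF) (hg := hg) P f).and
      ((ord_ipt (hF := hF) (hg := hg) P' f).and heq)).exists
    rw [h2, ← h3, ← h1]
    exact hx

end

end Pool.Agent.MPd118f9
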