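import Pool.Agent.Lib.MP_d118f9_ag.Iface1

/-!
# MP_d118f9_ag, block ST2 (uniformity): ultraproducts of fields

Text: `/team-store/TEXT_d118f9_ST2.md`.  `UQ U S hS` is the field of the sequences `f ∈ S` modulo
equality almost everywhere (for the ultrafilter `U`); `S` is a subring of a product of fields that
is closed under the pointwise inverse.  `UK k U` is the ultrapower of `k`.
-/

set_option autoImplicit false

noncomputable section

open Classical

namespace Pool.Agent.MPd118f9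

section

variable {G : ℕ → Type} [∀ n, Field (G n)] (U : Ultrafilter ℕ) (S : Subring (∀ n, G n))

/-- The ideal of the sequences that vanish almost everywhere. -/
def unul : Ideal S where
  carrier := {f | ∀ᶠ n in (U : Filter ℕ), (f : ∀ n, G n) n = 0}
  zero_mem' := Filter.Eventually.of_forall fun _ => rfl
  add_mem' := by
    intro f g hf hg
    filter_upwards [hf, hg] with n h1 h2
    show (f : ∀ n, G n) n + (g : ∀ n, G n) n = 0
    rw [h1, h2, add_zero]
  smul_mem' := by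
    intro f g hg
    filter_upwards [hg] with n h1
    show (f : ∀ n, G n) n * (g : ∀ n, G n) n = 0
    rw [h1, mul_zero]

theorem mem_unul {f : S} : f ∈ unul U S ↔ ∀ᶠ n in (U : Filter ℕ), (f : ∀ n, G n) n = 0 := Iff.rfl

theorem unul_isMaximal (hS : ∀ f ∈ S, (fun n => (f n)⁻¹) ∈ S) : (unul U S).IsMaximal := by
  rw [Ideal.isMaximal_iff]
  constructor
  · intro h
    have h1 : ∀ᶠ n in (U : Filter ℕ), ((1 : S) : ∀ n, G n) n = 0 := h
    obtain ⟨n, hn⟩ := h1.exists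
    exact one_ne_zero hn
  · intro J f hJ hf hfJ
    have h1 : ∀ᶠ n in (U : Filter ℕ), (f : ∀ n, G n) n ≠ 0 := by
      rw [mem_unul] at hf
      exact Ultrafilter.eventually_not.2 hf
    let g : S := ⟨fun n => ((f : ∀ n, G n) n)⁻¹, hS _ f.2⟩
    have h2 : 1 - g * f ∈ unul U S := by
      rw [mem_unul]
      filter_upwards [h1] with n hn
      show 1 - ((f : ∀ n, G n) n)⁻¹ * (f : ∀ n, G n) n = 0
      rw [inv_mul_cancel₀ hn, sub_self]
    have h3 := J.add_mem (hJ h2) (J.mul_mem_left g hfJ)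
    rwa [sub_add_cancel] at h3

/-- The ultraproduct. -/
def UQ (_hS : ∀ f ∈ S, (fun n => (f n)⁻¹) ∈ S) : Type := S ⧸ unul U S

variable {U S} {hS : ∀ f ∈ S, (fun n => (f n)⁻¹) ∈ S}

instance : Field (UQ U S hS) := @Ideal.Quotient.field S _ (unul U S) (unul_isMaximal U S hS)

/-- The class of a sequence. -/
def UQ.mk (hS : ∀ f ∈ S, (fun n => (f n)⁻¹) ∈ S) : S →+* UQ U S hS :=
  (Ideal.Quotient.mk (unul U S) : S →+* (S ⧸ unul U S))

/-- The term number `n` of a sequence. -/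
def uev (S : Subring (∀ n, G n)) (n : ℕ) : S →+* G n := (Pi.evalRingHom G n).comp S.subtype

@[simp] theorem uev_mk (n : ℕ) (f : ∀ n, G n) (hf : f ∈ S) : uev S n ⟨f, hf⟩ = f n := rfl

theorem UQ.mk_surjective : Function.Surjective (UQ.mk (U := U) hS) := Ideal.Quotient.mk_surjective

theorem UQ.mk_eq_zero_iff {f : S} :
    UQ.mk (U := U) hS f = 0 ↔ ∀ᶠ n in (U : Filter ℕ), uev S n f = 0 :=
  (Ideal.Quotient.eq_zero_iff_mem (I := unul U S) (a := f)).trans (mem_unul U S)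

theorem UQ.mk_ne_zero_iff {f : S} :
    UQ.mk (U := U) hS f ≠ 0 ↔ ∀ᶠ n in (U : Filter ℕ), uev S n f ≠ 0 := by
  rw [Ne, UQ.mk_eq_zero_iff, Ultrafilter.eventually_not]

theorem UQ.mk_eq_iff {f g : S} :
    UQ.mk (U := U) hS f = UQ.mk hS g ↔ ∀ᶠ n in (U : Filter ℕ), uev S n f = uev S n g := by
  rw [← sub_eq_zero, ← map_sub, UQ.mk_eq_zero_iff]
  simp only [map_sub, sub_eq_zero]

/-- The pointwise inverse. -/
def upinv (hS : ∀ f ∈ S, (fun n => (f n)⁻¹) ∈ S) (f : S) : S :=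
  ⟨fun n => ((f : ∀ n, G n) n)⁻¹, hS _ f.2⟩

@[simp] theorem uev_upinv (n : ℕ) (f : S) : uev S n (upinv hS f) = (uev S n f)⁻¹ := rfl

theorem UQ.mk_upinv (f : S) : UQ.mk (U := U) hS (upinv hS f) = (UQ.mk hS f)⁻¹ := by
  by_cases h : UQ.mk (U := U) hS f = 0
  · rw [h, inv_zero, UQ.mk_eq_zero_iff]
    rw [UQ.mk_eq_zero_iff] at h
    filter_upwards [h] with n hn
    rw [uev_upinv, hn, inv_zero]
  · refine eq_inv_of_mul_eq_one_left ?_
    rw [← map_mul, ← map_one (UQ.mk (U := U) hS), UQ.mk_eq_iff]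
    rw [← Ne, UQ.mk_ne_zero_iff] at h
    filter_upwards [h] with n hn
    rw [map_mul, uev_upinv, map_one, inv_mul_cancel₀ hn]

end

/-! ### The ultrapower of `k` -/

section

variable (k : Type) [Field k] (U : Ultrafilter ℕ)

/-- The ultrapower of `k`. -/
def UK : Type := UQ U (⊤ : Subring (∀ _ : ℕ, k)) fun _ _ => trivial

instance : Field (UK k U) :=
  inferInstanceAs (Field (UQ U (⊤ : Subring (∀ _ : ℕ, k)) fun _ _ => trivial))

/-- The class of a sequence. -/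
def UK.mk : (ℕ → k) →+* UK k U :=
  (UQ.mk (U := U) (S := (⊤ : Subring (∀ _ : ℕ, k))) fun _ _ => trivial).comp
    (Subring.topEquiv.symm : (ℕ → k) ≃+* (⊤ : Subring (∀ _ : ℕ, k))).toRingHom

variable {k U}

theorem UK.mk_surjective : Function.Surjective (UK.mk k U) :=
  (UQ.mk_surjective (U := U) (S := (⊤ : Subring (∀ _ : ℕ, k)))).comp
    (Subring.topEquiv.symm : (ℕ → k) ≃+* (⊤ : Subring (∀ _ : ℕ, k))).surjective

theorem UK.mk_eq_iff {c d : ℕ → k} :
    UK.mk k U c = UK.mk k U d ↔ ∀ᶠ n in (U : Filter ℕ), c n = d n := UQ.mk_eq_iff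

theorem UK.mk_eq_zero_iff {c : ℕ → k} :
    UK.mk k U c = 0 ↔ ∀ᶠ n in (U : Filter ℕ), c n = 0 := UQ.mk_eq_zero_iff

theorem UK.mk_ne_zero_iff {c : ℕ → k} :
    UK.mk k U c ≠ 0 ↔ ∀ᶠ n in (U : Filter ℕ), c n ≠ 0 := UQ.mk_ne_zero_iff

end

end Pool.Agent.MPd118f9
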