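import Pool.Agent.Lib.MP_d118f9_ag_G.U.ULin
import Pool.Agent.Lib.MP_d118f9_ag_G.U.UX

/-!
# MP_d118f9_ag, block ST2 (uniformity): transfer of `XA` (U8)
-/

set_option autoImplicit false

noncomputable section

open Classical

namespace Pool.Agent.MPd118f9

/-- The conclusion of `GX`. -/
private def utrC {R A X Y : Type} [Field R] [CommRing A] [Algebra R A] [Fintype X] [Fintype Y]
    (a : X → A) (w : Y → A) (Pf₀ Pg₀ : Submodule R A) {m u : ℕ}
    (g : (Fin m → X) → (Fin u → Y) → A) : Prop :=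
  ∃ (g' : (Fin (m + 1) → X) → (Fin u → Y) → A) (f' : (Fin m → X) → (Fin (u + 1) → Y) → A),
    Alt2 g' ∧ Alt2 f' ∧ (∀ I J, g' I J ∈ Pg₀) ∧ (∀ I J, f' I J ∈ Pf₀) ∧
      (∀ J, IsCyc a fun I => f' I J) ∧
        ∀ I J, g I J = ∑ j, a j * g' (Fin.cons j I) J + ∑ l, w l * f' I (Fin.cons l J)

section

variable {k K : Type} [Field k] [Field K] [Algebra k K]

/-- A counterexample to `XA`, without `Module.Basis`. -/
private def utrB (A W : Dv k K) {s : ℕ} (w : Fin s → K) {R m u : ℕ} (a : Fin R → K)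
    (g : (Fin m → Fin R) → (Fin u → Fin s) → K) : Prop :=
  LinearIndependent k a ∧ (∀ i, a i ∈ L A) ∧ L A ≤ Submodule.span k (Set.range a) ∧ Alt2 g ∧
    (∀ I J, g I J ∈ L (A + W)) ∧ (∀ J, IsCyc a fun I => g I J) ∧ ¬ utrC a w (L A) (L W) g

private theorem utr_not {A W : Dv k K} {s : ℕ} {w : Fin s → K} {p : ℕ} (h : ¬ XA A W w p) :
    ∃ m u : ℕ, u + m = p ∧ ∃ (a : Fin (ell A) → K)
      (g : (Fin m → Fin (ell A)) → (Fin u → Fin s) → K), utrB A W w a g := by
  by_contra hc
  refine h fun r a m u hum g hg1 hg2 hg3 => ?_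
  by_contra hn
  refine hc ?_
  have hr : r = ell A := by
    have h1 := Module.finrank_eq_card_basis a
    rw [Fintype.card_fin] at h1
    exact h1.symm
  subst hr
  refine ⟨m, u, hum, fun j => (a j : K), g, ?_, fun j => (a j).2, ?_, hg1, hg2, hg3, hn⟩
  · exact a.linearIndependent.map' (L A).subtype (Submodule.ker_subtype _)
  · intro x hx
    have h1 := a.mem_span ⟨x, hx⟩
    have h2 := Submodule.apply_mem_span_image_of_mem_span (L A).subtype h1
    rwa [← Set.range_comp] at h2

private theorem utr_basis {A W : Dv k K} {s : ℕ} {w : Fin s → K} {p R : ℕ} (h : XA A W w p)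
    {a : Fin R → K} (h1 : LinearIndependent k a) (h2 : ∀ i, a i ∈ L A)
    (h3 : L A ≤ Submodule.span k (Set.range a)) : GX a w (L A) (L W) (L (A + W)) p := by
  let v : Fin R → L A := fun j => ⟨a j, h2 j⟩
  have hv : LinearIndependent k v := LinearIndependent.of_comp (L A).subtype h1
  have hs : ⊤ ≤ Submodule.span k (Set.range v) := by
    rintro ⟨x, hx⟩ -
    have h4 := h3 hx
    have h5 : Set.range a = (L A).subtype '' Set.range v := by
      rw [← Set.range_comp]
      rfl
    rw [h5, Submodule.span_image] at h4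
    obtain ⟨y, hy, hyx⟩ := h4
    have h6 : y = ⟨x, hx⟩ := Subtype.ext hyx
    rw [← h6]
    exact hy
  have h7 := h R (Module.Basis.mk hv hs)
  have h8 : (fun j => ((Module.Basis.mk hv hs j : L A) : K)) = a := by
    funext j
    rw [Module.Basis.mk_apply]
  rw [h8] at h7
  exact h7

end

section

variable {U : Ultrafilter ℕ} {k : Type} [Field k] [IsAlgClosed k] [CharZero k] {F : ℕ → Type}
  [∀ n, Field (F n)] [∀ n, Algebra k (F n)] {hF : ∀ n, IsCurve k (F n)} {h : ℕ}
  {hg : ∀ n, genus k (F n) = h}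

private theorem utr_alt {i : ℕ} {X : Type} [Finite X] (c : (Fin i → X) → bdS k F U) :
    (Alt fun I => UF.mk hF (c I)) ↔
      ∀ᶠ n in (U : Filter ℕ), Alt fun I => uev _ n (c I) := by
  unfold Alt
  rw [Filter.eventually_all]
  refine forall_congr' fun σ => ?_
  rw [Filter.eventually_all]
  refine forall_congr' fun I => ?_
  rw [← map_zsmul, UF.mk_eq_iff]
  refine Filter.eventually_congr (Filter.Eventually.of_forall fun n => ?_)
  rw [map_zsmul]

private theorem utr_alt2 {m u : ℕ} {X Y : Type} [Finite X] [Finite Y]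
    (g : (Fin m → X) → (Fin u → Y) → bdS k F U) :
    (Alt2 fun I J => UF.mk hF (g I J)) ↔
      ∀ᶠ n in (U : Filter ℕ), Alt2 fun I J => uev _ n (g I J) := by
  unfold Alt2
  rw [Filter.eventually_and, Filter.eventually_all, Filter.eventually_all]
  exact and_congr (forall_congr' fun J => utr_alt fun I => g I J)
    (forall_congr' fun I => utr_alt (g I))

private theorem utr_cyc {i : ℕ} {X : Type} [Fintype X] (a : X → bdS k F U)
    (c : (Fin i → X) → bdS k F U) :
    (IsCyc (fun j => UF.mk hF (a j)) fun I => UF.mk hF (c I)) ↔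
      ∀ᶠ n in (U : Filter ℕ), IsCyc (fun j => uev _ n (a j)) fun I => uev _ n (c I) := by
  cases i with
  | zero => exact ⟨fun _ => Filter.Eventually.of_forall fun _ => trivial, fun _ => trivial⟩
  | succ i =>
    show (∀ J : Fin i → X, ∑ j, UF.mk hF (a j) * UF.mk hF (c (Fin.cons j J)) = 0) ↔
      ∀ᶠ n in (U : Filter ℕ), ∀ J : Fin i → X,
        ∑ j, uev _ n (a j) * uev _ n (c (Fin.cons j J)) = 0
    rw [Filter.eventually_all]
    refine forall_congr' fun J => ?_
    have h1 : ∑ j, UF.mk hF (a j) * UF.mk hF (c (Fin.cons j J)) =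
        UF.mk hF (∑ j, a j * c (Fin.cons j J)) := by
      rw [map_sum]
      exact Finset.sum_congr rfl fun j _ => (map_mul _ _ _).symm
    rw [h1, UF.mk_eq_zero_iff]
    refine Filter.eventually_congr (Filter.Eventually.of_forall fun n => ?_)
    rw [map_sum]
    simp only [map_mul]

private theorem utr_cyc2 {m u : ℕ} {X Y : Type} [Fintype X] [Finite Y] (a : X → bdS k F U)
    (g : (Fin m → X) → (Fin u → Y) → bdS k F U) :
    (∀ J, IsCyc (fun j => UF.mk hF (a j)) fun I => UF.mk hF (g I J)) ↔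
      ∀ᶠ n in (U : Filter ℕ), ∀ J, IsCyc (fun j => uev _ n (a j)) fun I => uev _ n (g I J) := by
  rw [Filter.eventually_all]
  exact forall_congr' fun J => utr_cyc a fun I => g I J

private theorem utr_memL {Ds : Dv (UK k U) (UF hF U)} {D : ∀ n, Dv k (F n)}
    (h1 : TrD hg Ds D) {X Y : Type} [Finite X] [Finite Y] (g : X → Y → bdS k F U) :
    (∀ I J, UF.mk hF (g I J) ∈ L Ds) ↔
      ∀ᶠ n in (U : Filter ℕ), ∀ I J, uev _ n (g I J) ∈ L (D n) := by
  rw [Filter.eventually_all]
  refine forall_congr' fun I => ?_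
  rw [Filter.eventually_all]
  exact forall_congr' fun J => h1.mem_L (g I J)

private theorem utr_eq {m u : ℕ} {X Y : Type} [Fintype X] [Fintype Y] (a : X → bdS k F U)
    (w : Y → bdS k F U) (g : (Fin m → X) → (Fin u → Y) → bdS k F U)
    (g' : (Fin (m + 1) → X) → (Fin u → Y) → bdS k F U)
    (f' : (Fin m → X) → (Fin (u + 1) → Y) → bdS k F U) :
    (∀ I J, UF.mk hF (g I J) = ∑ j, UF.mk hF (a j) * UF.mk hF (g' (Fin.cons j I) J) +
      ∑ l, UF.mk hF (w l) * UF.mk hF (f' I (Fin.cons l J))) ↔
      ∀ᶠ n in (U : Filter ℕ), ∀ I J, uev _ n (g I J) =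
        ∑ j, uev _ n (a j) * uev _ n (g' (Fin.cons j I) J) +
          ∑ l, uev _ n (w l) * uev _ n (f' I (Fin.cons l J)) := by
  rw [Filter.eventually_all]
  refine forall_congr' fun I => ?_
  rw [Filter.eventually_all]
  refine forall_congr' fun J => ?_
  have h1 : ∑ j, UF.mk hF (a j) * UF.mk hF (g' (Fin.cons j I) J) +
      ∑ l, UF.mk hF (w l) * UF.mk hF (f' I (Fin.cons l J)) =
      UF.mk hF (∑ j, a j * g' (Fin.cons j I) J + ∑ l, w l * f' I (Fin.cons l J)) := by
    rw [map_add, map_sum, map_sum]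
    simp only [map_mul]
  rw [h1, UF.mk_eq_iff]
  refine Filter.eventually_congr (Filter.Eventually.of_forall fun n => ?_)
  rw [map_add, map_sum, map_sum]
  simp only [map_mul]

/-- **U8.**  Proof.  Suppose not: `¬ XA (A n) (W n) (w n) p` for almost all `n`.  Let `r = ell As`.
For almost all `n`: `ell (A n) = r` (`TrD.ell`), so there are `m u` with `u + m = p` and functions
`a n : Fin r → F n` (a basis of `L (A n)`: linearly independent, in `L (A n)`, and spanning) and
`g n : (Fin m → Fin r) → (Fin u → Fin s) → F n` that satisfy the hypotheses of `GX` but not its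
conclusion; `m`, `u` are the same for almost all `n` (`eventually_exists_finite`).  (State this as a
predicate of `n`, `r`, `m`, `u` with functions `a : Fin r → F n`, without `Module.Basis`, in order
to avoid casts.)  The sequences `a · j` and `g · I J` are bounded (`TrD.mem_bdS`, for `g` with
`TrD.add`); their classes are a basis of `L As` (`TrD.mem_L`, `UF.linearIndependent_iff`,
`TrD.le_span_iff`) and a function `gs` that satisfies the hypotheses of `GX` over `UF`
(finitely many identities, each true almost everywhere: `UF.mk_eq_iff`, `map_sum`, `map_mul`,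
`map_zsmul`).  `hX` gives `gs'`, `fs'` with values in `L Ws`, `L As`; their representatives (`UF.mk_surjective`) satisfy
the conclusion of `GX` for almost all `n` (`Filter.eventually_all` over the finite index types,
`TrD.mem_L`), a contradiction. -/
theorem XA.transfer {As Ws : Dv (UK k U) (UF hF U)} {A W : ∀ n, Dv k (F n)}
    (hA : TrD hg As A) (hW : TrD hg Ws W) {s : ℕ} (w : Fin s → bdS k F U) {p : ℕ}
    (hX : XA As Ws (fun l => UF.mk hF (w l)) p) :
    ∀ᶠ n in (U : Filter ℕ), XA (A n) (W n) (fun l => uev _ n (w l)) p := by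
  by_contra hcon
  rw [← Ultrafilter.eventually_not] at hcon
  -- the bad data
  have hbad : ∀ᶠ n in (U : Filter ℕ), ∃ mu : Fin (p + 1) × Fin (p + 1),
      (mu.2 : ℕ) + (mu.1 : ℕ) = p ∧ ∃ (a : Fin (ell As) → F n)
        (g : (Fin mu.1 → Fin (ell As)) → (Fin mu.2 → Fin s) → F n),
          utrB (A n) (W n) (fun l => uev _ n (w l)) a g := by
    filter_upwards [hcon, hA.ell] with n h1 h2
    obtain ⟨m, u, h3, a, g, h4⟩ := utr_not h1
    revert a g
    rw [h2]
    intro a g h4
    exact ⟨(⟨m, by omega⟩, ⟨u, by omega⟩), h3, a, g, h4⟩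
  obtain ⟨⟨⟨m, hm⟩, ⟨u, hu⟩⟩, hbad⟩ := eventually_exists_finite hbad
  have hum : u + m = p := by
    obtain ⟨n, hn⟩ := hbad.exists
    exact hn.1
  have hch : ∀ n, ∃ (a : Fin (ell As) → F n) (g : (Fin m → Fin (ell As)) → (Fin u → Fin s) → F n),
      (∃ (a : Fin (ell As) → F n) (g : (Fin m → Fin (ell As)) → (Fin u → Fin s) → F n),
        utrB (A n) (W n) (fun l => uev _ n (w l)) a g) →
        utrB (A n) (W n) (fun l => uev _ n (w l)) a g := by
    intro n
    by_cases h1 : ∃ (a : Fin (ell As) → F n) (g : (Fin m → Fin (ell As)) → (Fin u → Fin s) → F n),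
        utrB (A n) (W n) (fun l => uev _ n (w l)) a g
    · obtain ⟨a, g, h2⟩ := h1
      exact ⟨a, g, fun _ => h2⟩
    · exact ⟨0, 0, fun h2 => absurd h2 h1⟩
  choose a g hag using hch
  have hB : ∀ᶠ n in (U : Filter ℕ), utrB (A n) (W n) (fun l => uev _ n (w l)) (a n) (g n) := by
    filter_upwards [hbad] with n hn
    exact hag n hn.2
  -- the classes
  let as : Fin (ell As) → bdS k F U := fun j => ⟨fun n => a n j,
    hA.mem_bdS (by filter_upwards [hB] with n hn using hn.2.1 j)⟩
  let gs : (Fin m → Fin (ell As)) → (Fin u → Fin s) → bdS k F U := fun I J =>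
    ⟨fun n => g n I J, (hA.add hW).mem_bdS (by
      filter_upwards [hB] with n hn using hn.2.2.2.2.1 I J)⟩
  have e1 : ∀ n, (fun j => uev _ n (as j)) = a n := fun n => rfl
  have e2 : ∀ n, (fun I J => uev _ n (gs I J)) = g n := fun n => rfl
  have hli : LinearIndependent (UK k U) fun j => UF.mk hF (as j) := by
    rw [UF.linearIndependent_iff]
    filter_upwards [hB] with n hn
    exact hn.1
  have hmem : ∀ j, UF.mk hF (as j) ∈ L As := by
    intro j
    rw [hA.mem_L]
    filter_upwards [hB] with n hn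
    exact hn.2.1 j
  have hspan : L As ≤ Submodule.span (UK k U) (Set.range fun j => UF.mk hF (as j)) := by
    rw [hA.le_span_iff]
    filter_upwards [hB] with n hn
    exact hn.2.2.1
  have hGX := utr_basis hX hli hmem hspan m u hum (fun I J => UF.mk hF (gs I J))
    ((utr_alt2 gs).2 (by
      filter_upwards [hB] with n hn
      exact hn.2.2.2.1))
    ((utr_memL (hA.add hW) gs).2 (by
      filter_upwards [hB] with n hn
      exact hn.2.2.2.2.1))
    ((utr_cyc2 as gs).2 (by
      filter_upwards [hB] with n hn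
      exact hn.2.2.2.2.2.1))
  obtain ⟨g', f', h1, h2, h3, h4, h5, h6⟩ := hGX
  choose gb hgb using fun I J => UF.mk_surjective (U := U) (hF := hF) (g' I J)
  choose fb hfb using fun I J => UF.mk_surjective (U := U) (hF := hF) (f' I J)
  obtain rfl : (fun I J => UF.mk hF (gb I J)) = g' := by
    funext I J
    exact hgb I J
  obtain rfl : (fun I J => UF.mk hF (fb I J)) = f' := by
    funext I J
    exact hfb I J
  have hfin := ((((((utr_alt2 gb).1 h1).and ((utr_alt2 fb).1 h2)).and
    ((utr_memL hW gb).1 h3)).and ((utr_memL hA fb).1 h4)).and ((utr_cyc2 as fb).1 h5)).and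
    ((utr_eq as w gs gb fb).1 h6)
  obtain ⟨n, hn, hn'⟩ := (hB.and hfin).exists
  refine hn.2.2.2.2.2.2 ⟨fun I J => uev _ n (gb I J), fun I J => uev _ n (fb I J), ?_⟩
  exact ⟨hn'.1.1.1.1.1, hn'.1.1.1.1.2, hn'.1.1.1.2, hn'.1.1.2, hn'.1.2, hn'.2⟩

end

end Pool.Agent.MPd118f9
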